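import Mathlib

namespace Pool.Agent.Lib.IZ64

/-- Machine found equational proof of associativity from the twisted distributive laws. -/
theorem assoc_aux {α : Type} (j m : α → α → α) (e f : α → α) (z o : α)
    (D : ∀ x y w, j (m x y) w = m (j w x) (j y w))
    (Dp : ∀ x y w, m (j x y) w = j (m w x) (m y w))
    (h0 : ∀ x, j x z = x) (h1 : ∀ x, m x o = x) (h2 : ∀ x, j z x = x) (h3 : ∀ x, m o x = x)
    (e1 : ∀ x, j x o = e x) (e2 : ∀ x, j o x = e x)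
    (f1 : ∀ x, m x z = f x) (f2 : ∀ x, m z x = f x) (a b c : α) :
    m (m a b) c = m a (m b c) := by
  have k12 : ∀ x0 x1 : α, (e (m x0 x1)) = (m (e x0) (e x1)) :=
    fun x0 x1 => ((e1 (m x0 x1)).symm.trans ((D x0 x1 o).trans ((congrArg (fun t => (m t (j x1 o))) (e2 x0)).trans (congrArg (fun t => (m (e x0) t)) (e1 x1)))))
  have k10 : o = (e z) :=
    ((h2 o).symm.trans (e1 z))
  have k13 : ∀ x0 : α, (e (f x0)) = (e x0) :=
    fun x0 => ((congrArg (fun t => (e t)) (f2 x0).symm).trans ((k12 z x0).trans ((congrArg (fun t => (m t (e x0))) k10.symm).trans (h3 (e x0)))))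
  have k11 : (f o) = z :=
    ((f1 o).symm.trans (h3 z))
  have k14 : (e o) = o :=
    ((k13 o).symm.trans ((congrArg (fun t => (e t)) k11).trans k10.symm))
  have k40 : ∀ x0 x1 : α, (m (e x0) x1) = (j x1 (m x0 x1)) :=
    fun x0 x1 => ((congrArg (fun t => (m t x1)) (e2 x0).symm).trans ((Dp o x0 x1).trans (congrArg (fun t => (j t (m x0 x1))) (h1 x1))))
  have k41 : ∀ x0 : α, x0 = (j x0 x0) :=
    fun x0 => ((h3 x0).symm.trans ((congrArg (fun t => (m t x0)) k14.symm).trans ((k40 o x0).trans (congrArg (fun t => (j x0 t)) (h3 x0)))))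
  have k36 : ∀ x0 x1 : α, (j (f x0) x1) = (m x1 (j x0 x1)) :=
    fun x0 x1 => ((congrArg (fun t => (j t x1)) (f2 x0).symm).trans ((D z x0 x1).trans (congrArg (fun t => (m t (j x0 x1))) (h0 x1))))
  have k50 : ∀ x0 x1 : α, (j (m x0 x1) x0) = (j (f x1) x0) :=
    fun x0 x1 => ((D x0 x1 x0).trans ((congrArg (fun t => (m t (j x1 x0))) (k41 x0).symm).trans (k36 x1 x0).symm))
  have k54 : ∀ x0 x1 : α, (m (e x0) x1) = (j (f x0) x1) :=
    fun x0 x1 => ((congrArg (fun t => (m t x1)) (e1 x0).symm).trans ((Dp x0 o x1).trans ((congrArg (fun t => (j (m x1 x0) t)) (h3 x1)).trans (k50 x1 x0))))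
  have k15 : ∀ x0 x1 : α, (f (j x0 x1)) = (j (f x0) (f x1)) :=
    fun x0 x1 => ((f1 (j x0 x1)).symm.trans ((Dp x0 x1 z).trans ((congrArg (fun t => (j t (m x1 z))) (f2 x0)).trans (congrArg (fun t => (j (f x0) t)) (f1 x1)))))
  have k16 : ∀ x0 : α, (f (e x0)) = (f x0) :=
    fun x0 => ((congrArg (fun t => (f t)) (e2 x0).symm).trans ((k15 o x0).trans ((congrArg (fun t => (j t (f x0))) k11).trans (h2 (f x0)))))
  have k19 : ∀ x0 : α, (e (e x0)) = (e x0) :=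
    fun x0 => ((k13 (e x0)).symm.trans ((congrArg (fun t => (e t)) (k16 x0)).trans (k13 x0)))
  have k73 : ∀ x0 x1 : α, (j (f x0) x1) = (j x1 (j (f x0) x1)) :=
    fun x0 x1 => ((k54 x0 x1).symm.trans ((congrArg (fun t => (m t x1)) (k19 x0).symm).trans ((k40 (e x0) x1).trans (congrArg (fun t => (j x1 t)) (k54 x0 x1)))))
  have k17 : (f z) = z :=
    ((k16 z).symm.trans ((congrArg (fun t => (f t)) k10.symm).trans k11))
  have k37 : ∀ x0 : α, x0 = (m x0 x0) :=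
    fun x0 => ((h2 x0).symm.trans ((congrArg (fun t => (j t x0)) k17.symm).trans ((k36 z x0).trans (congrArg (fun t => (m x0 t)) (h2 x0)))))
  have k38 : ∀ x0 : α, x0 = (m x0 (e x0)) :=
    fun x0 => ((h2 x0).symm.trans ((congrArg (fun t => (j t x0)) k11.symm).trans ((k36 o x0).trans (congrArg (fun t => (m x0 t)) (e2 x0)))))
  have k44 : ∀ x0 : α, (e x0) = (j (e x0) x0) :=
    fun x0 => ((congrArg (fun t => (e t)) (k37 x0)).trans ((k12 x0 x0).trans ((k40 x0 (e x0)).trans (congrArg (fun t => (j (e x0) t)) (k38 x0).symm))))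
  have k59 : ∀ x0 x1 : α, (j x0 x1) = (m (j x1 x0) (e x1)) :=
    fun x0 x1 => ((congrArg (fun t => (j t x1)) (h1 x0).symm).trans ((D x0 o x1).trans (congrArg (fun t => (m (j x1 x0) t)) (e2 x1))))
  have k103 : ∀ x0 x1 : α, (j (m x0 (e x1)) x1) = (j x0 x1) :=
    fun x0 x1 => ((D x0 (e x1) x1).trans ((congrArg (fun t => (m (j x1 x0) t)) (k44 x1).symm).trans (k59 x0 x1).symm))
  have k18 : ∀ x0 : α, (f (f x0)) = (f x0) :=
    fun x0 => ((k16 (f x0)).symm.trans ((congrArg (fun t => (f t)) (k13 x0)).trans (k16 x0)))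
  have k24 : ∀ x0 x1 : α, (f (j (f x0) x1)) = (f (j x0 x1)) :=
    fun x0 x1 => ((k15 (f x0) x1).trans ((congrArg (fun t => (j t (f x1))) (k18 x0)).trans (k15 x0 x1).symm))
  have k32 : ∀ x0 x1 : α, (e (j (f x0) x1)) = (e (j x0 x1)) :=
    fun x0 x1 => ((k13 (j (f x0) x1)).symm.trans ((congrArg (fun t => (e t)) (k24 x0 x1)).trans (k13 (j x0 x1))))
  have k26 : ∀ x0 x1 : α, (e (m (e x0) x1)) = (e (m x0 x1)) :=
    fun x0 x1 => ((k12 (e x0) x1).trans ((congrArg (fun t => (m t (e x1))) (k19 x0)).trans (k12 x0 x1).symm))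
  have k56 : ∀ x0 x1 : α, (e (j x0 x1)) = (e (m x0 x1)) :=
    fun x0 x1 => ((k32 x0 x1).symm.trans ((congrArg (fun t => (e t)) (k54 x0 x1).symm).trans (k26 x0 x1)))
  have k66 : ∀ x0 x1 : α, (m (j x0 x1) x1) = (j (f x0) x1) :=
    fun x0 x1 => ((Dp x0 x1 x1).trans ((congrArg (fun t => (j (m x1 x0) t)) (k37 x1).symm).trans (k50 x1 x0)))
  have k81 : ∀ x0 x1 : α, (e (j (j x0 x1) x1)) = (e (j x0 x1)) :=
    fun x0 x1 => ((k56 (j x0 x1) x1).trans ((congrArg (fun t => (e t)) (k66 x0 x1)).trans (k32 x0 x1)))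
  have k82 : ∀ x0 x1 : α, (j (j x0 x1) x1) = (j x1 (j x0 x1)) :=
    fun x0 x1 => ((k38 (j (j x0 x1) x1)).trans ((congrArg (fun t => (m (j (j x0 x1) x1) t)) (k81 x0 x1)).trans (k59 x1 (j x0 x1)).symm))
  have k104 : ∀ x0 x1 : α, (j (j x0 x1) x0) = (j x0 (j x1 x0)) :=
    fun x0 x1 => ((k103 (j x0 x1) x0).symm.trans ((congrArg (fun t => (j t x0)) (k59 x1 x0).symm).trans (k82 x1 x0)))
  have k65 : ∀ x0 x1 : α, (m x0 x1) = (j (m x1 x0) (f x1)) :=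
    fun x0 x1 => ((congrArg (fun t => (m t x1)) (h0 x0).symm).trans ((Dp x0 z x1).trans (congrArg (fun t => (j (m x1 x0) t)) (f2 x1))))
  have k108 : ∀ x0 x1 : α, (j (f x0) (m x0 x1)) = (m x0 x1) :=
    fun x0 x1 => ((k73 x0 (m x0 x1)).trans ((k104 (m x0 x1) (f x0)).symm.trans ((congrArg (fun t => (j t (m x0 x1))) (k65 x1 x0).symm).trans ((Dp x0 x0 x1).symm.trans (congrArg (fun t => (m t x1)) (k41 x0).symm)))))
  have k43 : ∀ x0 : α, (j (f x0) x0) = x0 :=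
    fun x0 => ((k36 x0 x0).trans ((congrArg (fun t => (m x0 t)) (k41 x0).symm).trans (k37 x0).symm))
  have k99 : ∀ x0 x1 : α, (m x0 x1) = (m x1 (j x0 (f x1))) :=
    fun x0 x1 => ((k65 x0 x1).trans ((D x1 x0 (f x1)).trans (congrArg (fun t => (m t (j x0 (f x1)))) (k43 x1))))
  have k63 : ∀ x0 x1 : α, (m x0 x1) = (j (f x1) (m x0 x1)) :=
    fun x0 x1 => ((congrArg (fun t => (m t x1)) (h2 x0).symm).trans ((Dp z x0 x1).trans (congrArg (fun t => (j t (m x0 x1))) (f1 x1))))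
  have k83 : ∀ x0 x1 : α, (m x0 x1) = (j (m x0 x1) (f x1)) :=
    fun x0 x1 => ((k63 x0 x1).trans ((congrArg (fun t => (j (f x1) t)) (k65 x0 x1)).trans ((k82 (m x1 x0) (f x1)).symm.trans (congrArg (fun t => (j t (f x1))) (k65 x0 x1).symm))))
  have k102 : ∀ x0 x1 : α, (m (m x0 x1) x1) = (m x1 (m x0 x1)) :=
    fun x0 x1 => ((k99 (m x0 x1) x1).trans (congrArg (fun t => (m x1 t)) (k83 x0 x1).symm))
  have k100 : ∀ x0 x1 : α, (m (j x0 (f x1)) x1) = (m x0 x1) :=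
    fun x0 x1 => ((k65 (j x0 (f x1)) x1).trans ((congrArg (fun t => (j t (f x1))) (k99 x0 x1).symm).trans (k83 x0 x1).symm))
  have k107 : ∀ x0 x1 : α, (j (j x0 (f x1)) x1) = (j x0 x1) :=
    fun x0 x1 => ((congrArg (fun t => (j (j x0 t) x1)) (k16 x1).symm).trans ((k103 (j x0 (f (e x1))) x1).symm.trans ((congrArg (fun t => (j t x1)) (k100 x0 (e x1))).trans (k103 x0 x1))))
  have k25 : ∀ x0 x1 : α, (f (j x0 (f x1))) = (f (j x0 x1)) :=
    fun x0 x1 => ((k15 x0 (f x1)).trans ((congrArg (fun t => (j (f x0) t)) (k18 x1)).trans (k15 x0 x1).symm))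
  have k33 : ∀ x0 x1 : α, (e (j x0 (f x1))) = (e (j x0 x1)) :=
    fun x0 x1 => ((k13 (j x0 (f x1))).symm.trans ((congrArg (fun t => (e t)) (k25 x0 x1)).trans (k13 (j x0 x1))))
  have k109 : ∀ x0 x1 : α, (j x0 (j x1 (f x0))) = (j x1 x0) :=
    fun x0 x1 => ((k59 x0 (j x1 (f x0))).trans ((congrArg (fun t => (m t (e (j x1 (f x0))))) (k107 x1 x0)).trans ((congrArg (fun t => (m (j x1 x0) t)) (k33 x1 x0)).trans (k38 (j x1 x0)).symm)))
  have k58 : ∀ x0 x1 : α, (j x0 x1) = (j (f x1) (j x0 x1)) :=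
    fun x0 x1 => ((congrArg (fun t => (j t x1)) (h3 x0).symm).trans ((D o x0 x1).trans ((congrArg (fun t => (m t (j x0 x1))) (e1 x1)).trans (k54 x1 (j x0 x1)))))
  have k52 : ∀ x0 x1 : α, (j (f x0) x1) = (m (j x1 x0) x1) :=
    fun x0 x1 => ((congrArg (fun t => (j t x1)) (f1 x0).symm).trans ((D x0 z x1).trans (congrArg (fun t => (m (j x1 x0) t)) (h2 x1))))
  have k68 : ∀ x0 x1 : α, (j x0 x1) = (j (j (f x1) x0) x1) :=
    fun x0 x1 => ((k58 x0 x1).trans ((k66 x1 (j x0 x1)).symm.trans ((D (j x0 x1) x0 x1).symm.trans (congrArg (fun t => (j t x1)) (k52 x1 x0).symm))))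
  have k34 : ∀ x0 x1 : α, (f (m (e x0) x1)) = (f (m x0 x1)) :=
    fun x0 x1 => ((k16 (m (e x0) x1)).symm.trans ((congrArg (fun t => (f t)) (k26 x0 x1)).trans (k16 (m x0 x1))))
  have k57 : ∀ x0 x1 : α, (f (j x0 x1)) = (f (m x0 x1)) :=
    fun x0 x1 => ((k24 x0 x1).symm.trans ((congrArg (fun t => (f t)) (k54 x0 x1).symm).trans (k34 x0 x1)))
  have k71 : ∀ x0 x1 : α, (j (f (j x0 x1)) x0) = (j (f x1) x0) :=
    fun x0 x1 => ((congrArg (fun t => (j t x0)) (k57 x0 x1)).trans ((k36 (m x0 x1) x0).trans ((congrArg (fun t => (m x0 t)) (k50 x0 x1)).trans ((k36 (f x1) x0).symm.trans (congrArg (fun t => (j t x0)) (k18 x1))))))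
  have k161 : ∀ x0 x1 : α, (j x0 (j x0 x1)) = (j (j (f x1) x0) (j x0 x1)) :=
    fun x0 x1 => ((k68 x0 (j x0 x1)).trans (congrArg (fun t => (j t (j x0 x1))) (k71 x0 x1)))
  have k67 : ∀ x0 x1 : α, (j (m x0 x1) x1) = (j (f x0) x1) :=
    fun x0 x1 => ((D x0 x1 x1).trans ((congrArg (fun t => (m (j x1 x0) t)) (k41 x1).symm).trans (k52 x0 x1).symm))
  have k85 : ∀ x0 x1 : α, (j (f (j x0 x1)) x1) = (j (f x0) x1) :=
    fun x0 x1 => ((congrArg (fun t => (j t x1)) (k57 x0 x1)).trans ((k36 (m x0 x1) x1).trans ((congrArg (fun t => (m x1 t)) (k67 x0 x1)).trans ((k36 (f x0) x1).symm.trans (congrArg (fun t => (j t x1)) (k18 x0))))))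
  have k129 : ∀ x0 x1 : α, (j x0 x1) = (j (j (f x0) x1) (j x0 x1)) :=
    fun x0 x1 => ((k58 x0 x1).trans ((k50 (j x0 x1) x1).symm.trans (congrArg (fun t => (j t (j x0 x1))) (k66 x0 x1))))
  have k162 : ∀ x0 x1 : α, (j x0 (j x1 x0)) = (j x1 x0) :=
    fun x0 x1 => ((congrArg (fun t => (j x0 t)) (k109 x0 x1).symm).trans ((k161 x0 (j x1 (f x0))).trans ((congrArg (fun t => (j (j (f (j x1 (f x0))) x0) t)) (k109 x0 x1)).trans ((congrArg (fun t => (j (j t x0) (j x1 x0))) (k25 x1 x0)).trans ((congrArg (fun t => (j t (j x1 x0))) (k85 x1 x0)).trans (k129 x1 x0).symm)))))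
  have k55 : ∀ x0 x1 : α, (e (m x0 x1)) = (j (f x0) (e x1)) :=
    fun x0 x1 => ((k12 x0 x1).trans (k54 x0 (e x1)))
  have k60 : ∀ x0 x1 : α, (j x0 (e x1)) = (e (j x0 x1)) :=
    fun x0 x1 => ((k59 x0 (e x1)).trans ((congrArg (fun t => (m (j (e x1) x0) t)) (k19 x1)).trans ((k52 x0 (e x1)).symm.trans ((k55 x0 x1).symm.trans (k56 x0 x1).symm))))
  have k78 : ∀ x0 x1 : α, (j (e x0) x1) = (e (j x0 x1)) :=
    fun x0 x1 => ((k59 (e x0) x1).trans ((congrArg (fun t => (m t (e x1))) (k60 x1 x0)).trans ((k54 (j x1 x0) (e x1)).trans ((k60 (f (j x1 x0)) x1).trans ((congrArg (fun t => (e t)) (k71 x1 x0)).trans (k32 x0 x1))))))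
  have k87 : ∀ x0 x1 : α, (j (f x0) x1) = (m x1 (e (j x0 x1))) :=
    fun x0 x1 => ((congrArg (fun t => (j t x1)) (k16 x0).symm).trans ((k36 (e x0) x1).trans (congrArg (fun t => (m x1 t)) (k78 x0 x1))))
  have k61 : ∀ x0 x1 : α, (j (e x0) (f x1)) = (e (j (j x1 x0) x1)) :=
    fun x0 x1 => ((k59 (e x0) (f x1)).trans ((congrArg (fun t => (m t (e (f x1)))) (k55 x1 x0).symm).trans ((congrArg (fun t => (m t (e (f x1)))) (k56 x1 x0).symm).trans ((congrArg (fun t => (m (e (j x1 x0)) t)) (k13 x1)).trans ((k54 (j x1 x0) (e x1)).trans ((k60 (f (j x1 x0)) x1).trans (k32 (j x1 x0) x1)))))))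
  have k79 : ∀ x0 x1 : α, (e (j x0 (j x0 x1))) = (e (j x0 x1)) :=
    fun x0 x1 => ((k33 x0 (j x0 x1)).symm.trans ((k78 x0 (f (j x0 x1))).symm.trans ((congrArg (fun t => (j (e x0) t)) (k57 x0 x1)).trans ((congrArg (fun t => (j t (f (m x0 x1)))) (k13 x0).symm).trans ((k61 (f x0) (m x0 x1)).trans ((congrArg (fun t => (e (j t (m x0 x1)))) (k65 x1 x0).symm).trans ((congrArg (fun t => (e t)) (Dp x0 x0 x1).symm).trans ((congrArg (fun t => (e (m t x1))) (k41 x0).symm).trans (k56 x0 x1).symm))))))))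
  have k88 : ∀ x0 x1 : α, (j (f x0) (j x0 x1)) = (j x0 x1) :=
    fun x0 x1 => ((k87 x0 (j x0 x1)).trans ((congrArg (fun t => (m (j x0 x1) t)) (k79 x0 x1)).trans (k38 (j x0 x1)).symm))
  have k89 : ∀ x0 x1 : α, (j (j x0 x1) (f x0)) = (j x1 x0) :=
    fun x0 x1 => ((k59 (j x0 x1) (f x0)).trans ((congrArg (fun t => (m t (e (f x0)))) (k88 x0 x1)).trans ((congrArg (fun t => (m (j x0 x1) t)) (k13 x0)).trans (k59 x1 x0).symm)))
  have k114 : ∀ x0 x1 : α, (j x0 (f x1)) = (m (j (f x1) x0) (e x1)) :=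
    fun x0 x1 => ((k59 x0 (f x1)).trans (congrArg (fun t => (m (j (f x1) x0) t)) (k13 x1)))
  have k115 : ∀ x0 x1 : α, (m x0 (e x1)) = (j (f x1) (m x0 (e x1))) :=
    fun x0 x1 => ((k63 x0 (e x1)).trans (congrArg (fun t => (j t (m x0 (e x1)))) (k16 x1)))
  have k69 : ∀ x0 x1 : α, (m x0 x1) = (m (j (f x1) x0) x1) :=
    fun x0 x1 => ((k63 x0 x1).trans ((k67 x1 (m x0 x1)).symm.trans ((Dp (m x0 x1) x0 x1).symm.trans (congrArg (fun t => (m t x1)) (k50 x0 x1)))))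
  have k116 : ∀ x0 x1 : α, (j x0 (f x1)) = (m x0 (e x1)) :=
    fun x0 x1 => ((k114 x0 x1).trans ((congrArg (fun t => (m (j t x0) (e x1))) (k16 x1).symm).trans ((k115 (j (f (e x1)) x0) x1).trans ((congrArg (fun t => (j (f x1) t)) (k69 x0 (e x1)).symm).trans (k115 x0 x1).symm))))
  have k132 : ∀ x0 x1 : α, (j x0 x1) = (j (j x1 x0) (f (j x0 x1))) :=
    fun x0 x1 => ((k88 x0 x1).symm.trans ((k59 (f x0) (j x0 x1)).trans ((congrArg (fun t => (m t (e (j x0 x1)))) (k89 x0 x1)).trans (k116 (j x1 x0) (j x0 x1)).symm)))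
  have k90 : ∀ x0 x1 : α, (f (j x0 (j x0 x1))) = (f (j x0 x1)) :=
    fun x0 x1 => ((k16 (j x0 (j x0 x1))).symm.trans ((congrArg (fun t => (f t)) (k79 x0 x1)).trans (k16 (j x0 x1))))
  have k119 : ∀ x0 x1 : α, (f (j x0 x1)) = (f (j x0 (j (f x0) x1))) :=
    fun x0 x1 => ((k24 x0 x1).symm.trans ((k90 (f x0) x1).symm.trans (k24 x0 (j (f x0) x1))))
  have k133 : ∀ x0 x1 : α, (j x0 (j (f x0) x1)) = (j x0 x1) :=
    fun x0 x1 => ((k132 x0 (j (f x0) x1)).trans ((congrArg (fun t => (j t (f (j x0 (j (f x0) x1))))) (k68 x1 x0).symm).trans ((congrArg (fun t => (j (j x1 x0) t)) (k119 x0 x1).symm).trans (k132 x0 x1).symm)))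
  have k168 : ∀ x0 x1 : α, (j x0 x1) = (j (j x1 x0) (j (f x0) x1)) :=
    fun x0 x1 => ((k162 x1 x0).symm.trans ((k104 x1 x0).symm.trans ((k133 (j x1 x0) x1).symm.trans (congrArg (fun t => (j (j x1 x0) t)) (k71 x1 x0)))))
  have k111 : ∀ x0 x1 : α, (j x0 x1) = (j (j x1 x0) (j x0 x1)) :=
    fun x0 x1 => ((k41 (j x0 x1)).trans ((congrArg (fun t => (j (j x0 x1) t)) (k88 x0 x1).symm).trans ((k104 (j x0 x1) (f x0)).symm.trans (congrArg (fun t => (j t (j x0 x1))) (k89 x0 x1)))))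
  have k169 : ∀ x0 x1 : α, (j x0 (j x0 x1)) = (j x0 x1) :=
    fun x0 x1 => ((k168 x0 (j x0 x1)).trans ((congrArg (fun t => (j (j (j x0 x1) x0) t)) (k88 x0 x1)).trans ((congrArg (fun t => (j t (j x0 x1))) (k104 x0 x1)).trans ((congrArg (fun t => (j t (j x0 x1))) (k162 x0 x1)).trans (k111 x0 x1).symm))))
  have k170 : ∀ x0 x1 x2 : α, (j (m (j x0 x1) x2) x0) = (j (m x1 x2) x0) :=
    fun x0 x1 x2 => ((D (j x0 x1) x2 x0).trans ((congrArg (fun t => (m t (j x2 x0))) (k169 x0 x1)).trans (D x1 x2 x0).symm))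
  have k128 : ∀ x0 x1 : α, (m x0 x1) = (m (j (f x0) x1) (m x0 x1)) :=
    fun x0 x1 => ((k63 x0 x1).trans ((k66 x1 (m x0 x1)).symm.trans ((congrArg (fun t => (m t (m x0 x1))) (k40 x0 x1).symm).trans (congrArg (fun t => (m t (m x0 x1))) (k54 x0 x1)))))
  have k171 : ∀ x0 x1 : α, (j (m x0 (m x1 x0)) (f x1)) = (m x0 x1) :=
    fun x0 x1 => ((k170 (f x1) x0 (m x1 x0)).symm.trans ((congrArg (fun t => (j t (f x1))) (k128 x1 x0).symm).trans (k65 x0 x1).symm))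
  have k208 : ∀ x0 x1 : α, (m x0 x1) = (j (m x0 (m x1 x0)) (m x0 x1)) :=
    fun x0 x1 => ((k171 x0 x1).symm.trans ((k169 (m x0 (m x1 x0)) (f x1)).symm.trans (congrArg (fun t => (j (m x0 (m x1 x0)) t)) (k171 x0 x1))))
  have k209 : ∀ x0 x1 : α, (m x0 (m x1 x0)) = (m x1 x0) :=
    fun x0 x1 => ((k102 x1 x0).symm.trans ((k208 (m x1 x0) x0).trans ((congrArg (fun t => (j (m (m x1 x0) (m x0 (m x1 x0))) t)) (k102 x1 x0)).trans ((Dp (m x0 (m x1 x0)) x0 (m x1 x0)).symm.trans ((congrArg (fun t => (m t (m x1 x0))) (k50 x0 (m x1 x0))).trans ((congrArg (fun t => (m (j t x0) (m x1 x0))) (k57 x1 x0).symm).trans ((congrArg (fun t => (m t (m x1 x0))) (k85 x1 x0)).trans (k128 x1 x0).symm)))))))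
  have k110 : ∀ x0 x1 : α, (m x0 x1) = (m (m x1 x0) (e x1)) :=
    fun x0 x1 => ((k65 x0 x1).trans ((k59 (m x1 x0) (f x1)).trans ((congrArg (fun t => (m t (e (f x1)))) (k108 x1 x0)).trans (congrArg (fun t => (m (m x1 x0) t)) (k13 x1)))))
  have k135 : ∀ x0 x1 : α, (m x0 x1) = (j (m x1 x0) (f (j x0 x1))) :=
    fun x0 x1 => ((k108 x0 x1).symm.trans ((k54 x0 (m x0 x1)).symm.trans ((k65 (e x0) (m x0 x1)).trans ((congrArg (fun t => (j t (f (m x0 x1)))) (k110 x1 x0).symm).trans (congrArg (fun t => (j (m x1 x0) t)) (k57 x0 x1).symm)))))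
  have k136 : ∀ x0 x1 : α, (m x0 (j (f x0) x1)) = (m x0 x1) :=
    fun x0 x1 => ((k135 x0 (j (f x0) x1)).trans ((congrArg (fun t => (j t (f (j x0 (j (f x0) x1))))) (k69 x1 x0).symm).trans ((congrArg (fun t => (j (m x1 x0) (f t))) (k133 x0 x1)).trans (k135 x0 x1).symm)))
  have k130 : ∀ x0 x1 : α, (m x0 x1) = (j (f (j x1 x0)) (m x0 x1)) :=
    fun x0 x1 => ((k65 x0 x1).trans ((k88 (m x1 x0) (f x1)).symm.trans ((congrArg (fun t => (j (f (m x1 x0)) t)) (k65 x0 x1).symm).trans (congrArg (fun t => (j t (m x0 x1))) (k57 x1 x0).symm))))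
  have k176 : ∀ x0 x1 : α, (j (f x0) x1) = (j (m x1 x0) (j (f x0) x1)) :=
    fun x0 x1 => ((k50 x1 x0).symm.trans ((k169 (m x1 x0) x1).symm.trans (congrArg (fun t => (j (m x1 x0) t)) (k50 x1 x0))))
  have k177 : ∀ x0 x1 : α, (m x0 x1) = (m (j (f x1) x0) (m x0 x1)) :=
    fun x0 x1 => ((k130 x0 x1).trans ((congrArg (fun t => (j t (m x0 x1))) (k24 x1 x0).symm).trans ((k52 (j (f x1) x0) (m x0 x1)).trans (congrArg (fun t => (m t (m x0 x1))) (k176 x1 x0).symm))))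
  have k179 : ∀ x0 x1 : α, (j (m x0 (m x0 x1)) (f x1)) = (m x0 x1) :=
    fun x0 x1 => ((k170 (f x1) x0 (m x0 x1)).symm.trans ((congrArg (fun t => (j t (f x1))) (k177 x0 x1).symm).trans (k83 x0 x1).symm))
  have k23 : ∀ x0 x1 : α, (f (j x0 (e x1))) = (f (j x0 x1)) :=
    fun x0 x1 => ((k15 x0 (e x1)).trans ((congrArg (fun t => (j (f x0) t)) (k16 x1)).trans (k15 x0 x1).symm))
  have k123 : ∀ x0 x1 x2 : α, (f (j x0 (m x1 x2))) = (f (j x0 (j x1 x2))) :=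
    fun x0 x1 x2 => ((k23 x0 (m x1 x2)).symm.trans ((congrArg (fun t => (f (j x0 t))) (k56 x1 x2).symm).trans ((congrArg (fun t => (f t)) (k60 x0 (j x1 x2))).trans (k16 (j x0 (j x1 x2))))))
  have k126 : ∀ x0 x1 : α, (m x0 x1) = (j (m x0 x1) (f (j x0 x1))) :=
    fun x0 x1 => ((k38 (m x0 x1)).trans ((congrArg (fun t => (m (m x0 x1) t)) (k56 x0 x1).symm).trans (k116 (m x0 x1) (j x0 x1)).symm))
  have k180 : ∀ x0 x1 : α, (j (f x0) (m x1 (m x1 x0))) = (m x1 x0) :=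
    fun x0 x1 => ((k89 (m x1 (m x1 x0)) (f x0)).symm.trans ((congrArg (fun t => (j t (f (m x1 (m x1 x0))))) (k179 x1 x0)).trans ((congrArg (fun t => (j (m x1 x0) t)) (k57 x1 (m x1 x0)).symm).trans ((congrArg (fun t => (j (m x1 x0) t)) (k123 x1 x1 x0)).trans ((congrArg (fun t => (j (m x1 x0) (f t))) (k169 x1 x0)).trans (k126 x1 x0).symm)))))
  have k183 : ∀ x0 x1 : α, (m x0 (m x1 (m x1 x0))) = (m x0 (m x1 x0)) :=
    fun x0 x1 => ((k136 x0 (m x1 (m x1 x0))).symm.trans (congrArg (fun t => (m x0 t)) (k180 x0 x1)))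
  have k210 : ∀ x0 x1 : α, (m x0 x1) = (m x0 (m x0 x1)) :=
    fun x0 x1 => ((k209 x1 x0).symm.trans ((k183 x1 x0).symm.trans ((k209 (m x0 (m x0 x1)) x1).symm.trans ((congrArg (fun t => (m (m x0 (m x0 x1)) t)) (k183 x1 x0)).trans ((congrArg (fun t => (m (m x0 (m x0 x1)) t)) (k209 x1 x0)).trans ((k102 x0 (m x0 x1)).trans (k209 (m x0 x1) x0)))))))
  have k211 : ∀ x0 x1 x2 : α, (m (j (m x0 x1) x2) x0) = (m (j x1 x2) x0) :=
    fun x0 x1 x2 => ((Dp (m x0 x1) x2 x0).trans ((congrArg (fun t => (j t (m x2 x0))) (k210 x0 x1).symm).trans (Dp x1 x2 x0).symm))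
  have k212 : ∀ x0 x1 x2 : α, (m (j x0 (m x1 x2)) x2) = (m (j x0 x1) x2) :=
    fun x0 x1 x2 => ((k211 x2 x0 (m x1 x2)).symm.trans ((congrArg (fun t => (m t x2)) (Dp x0 x1 x2).symm).trans ((k102 (j x0 x1) x2).trans (k209 x2 (j x0 x1)))))
  have k101 : ∀ x0 x1 : α, (m (m x0 x1) x0) = (m x0 (m x1 x0)) :=
    fun x0 x1 => ((k99 (m x0 x1) x0).trans (congrArg (fun t => (m x0 t)) (k65 x1 x0).symm))
  have k213 : ∀ x0 x1 x2 : α, (m (j x0 (m x1 x2)) x1) = (m (j x0 x2) x1) :=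
    fun x0 x1 x2 => ((k212 x0 (m x1 x2) x1).symm.trans ((congrArg (fun t => (m (j x0 t) x1)) (k101 x1 x2)).trans ((congrArg (fun t => (m (j x0 t) x1)) (k209 x1 x2)).trans (k212 x0 x2 x1))))
  have k219 : ∀ x0 x1 x2 : α, (m (j (f x0) x1) x2) = (m (m (j x0 x2) x1) x2) :=
    fun x0 x1 x2 => ((congrArg (fun t => (m t x2)) (k50 x1 x0).symm).trans ((k213 (m x1 x0) x2 x1).symm.trans (congrArg (fun t => (m t x2)) (Dp x0 x2 x1).symm)))
  have k255 : ∀ x0 x1 x2 : α, (m (j (f x0) x1) (j x2 x0)) = (m x1 (j x2 x0)) :=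
    fun x0 x1 x2 => ((congrArg (fun t => (m (j t x1) (j x2 x0))) (k18 x0).symm).trans ((k219 (f x0) x1 (j x2 x0)).trans ((congrArg (fun t => (m (m t x1) (j x2 x0))) (k58 x2 x0).symm).trans ((k101 (j x2 x0) x1).trans (k209 (j x2 x0) x1)))))
  have k256 : ∀ x0 x1 x2 : α, (m x0 (j x1 (f x2))) = (j (m x0 x1) (f x2)) :=
    fun x0 x1 x2 => ((k255 (f x2) x0 x1).symm.trans ((congrArg (fun t => (m (j t x0) (j x1 (f x2)))) (k18 x2)).trans (D x0 x1 (f x2)).symm))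
  have k285 : ∀ x0 x1 x2 : α, (j (m x0 (j x1 x2)) (f x1)) = (m x0 (j x2 x1)) :=
    fun x0 x1 x2 => ((k256 x0 (j x1 x2) x1).symm.trans (congrArg (fun t => (m x0 t)) (k89 x1 x2)))
  have k216 : ∀ x0 x1 x2 : α, (m (j x0 x1) (m x2 x1)) = (j (f x0) (m x2 x1)) :=
    fun x0 x1 x2 => ((Dp x0 x1 (m x2 x1)).trans ((congrArg (fun t => (j (m (m x2 x1) x0) t)) (k209 x1 x2)).trans (k50 (m x2 x1) x0)))
  have k247 : ∀ x0 x1 x2 : α, (j (f x0) (m x1 (j x2 x0))) = (m x1 (j x2 x0)) :=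
    fun x0 x1 x2 => ((congrArg (fun t => (j t (m x1 (j x2 x0)))) (k18 x0).symm).trans ((k216 (f x0) (j x2 x0) x1).symm.trans ((congrArg (fun t => (m t (m x1 (j x2 x0)))) (k58 x2 x0).symm).trans (k209 (j x2 x0) x1))))
  have k184 : ∀ x0 x1 x2 : α, (j (m x0 (j x1 x2)) x2) = (j (m x0 x1) x2) :=
    fun x0 x1 x2 => ((k170 x2 x0 (j x1 x2)).symm.trans ((congrArg (fun t => (j t x2)) (D x0 x1 x2).symm).trans ((k82 (m x0 x1) x2).trans (k162 x2 (m x0 x1)))))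
  have k22 : ∀ x0 x1 : α, (f (j (e x0) x1)) = (f (j x0 x1)) :=
    fun x0 x1 => ((k15 (e x0) x1).trans ((congrArg (fun t => (j t (f x1))) (k16 x0)).trans (k15 x0 x1).symm))
  have k122 : ∀ x0 x1 x2 : α, (f (j (m x0 x1) x2)) = (f (j (j x0 x1) x2)) :=
    fun x0 x1 x2 => ((k22 (m x0 x1) x2).symm.trans ((congrArg (fun t => (f (j t x2))) (k56 x0 x1).symm).trans ((congrArg (fun t => (f t)) (k78 (j x0 x1) x2)).trans (k16 (j (j x0 x1) x2)))))
  have k218 : ∀ x0 x1 x2 : α, (m (j x0 x1) (m x2 x0)) = (j (f x1) (m x2 x0)) :=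
    fun x0 x1 x2 => ((k211 (m x2 x0) x0 x1).symm.trans ((congrArg (fun t => (m (j t x1) (m x2 x0))) (k102 x2 x0)).trans ((congrArg (fun t => (m (j t x1) (m x2 x0))) (k209 x0 x2)).trans (k52 x1 (m x2 x0)).symm)))
  have k64 : ∀ x0 x1 : α, (m x0 (f x1)) = (f (j x0 x1)) :=
    fun x0 x1 => ((k63 x0 (f x1)).trans ((congrArg (fun t => (j t (m x0 (f x1)))) (k18 x1)).trans ((k40 x0 (f x1)).symm.trans ((k54 x0 (f x1)).trans (k15 x0 x1).symm))))
  have k220 : ∀ x0 x1 x2 : α, (j (f x0) (j (f x1) x2)) = (j (f (j x0 x1)) x2) :=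
    fun x0 x1 x2 => ((congrArg (fun t => (j (f x0) t)) (k52 x1 x2)).trans ((k218 x2 x0 (j x2 x1)).symm.trans ((congrArg (fun t => (m (j x2 x0) t)) (k52 x1 x2).symm).trans ((D x0 (f x1) x2).symm.trans (congrArg (fun t => (j t x2)) (k64 x0 x1))))))
  have k221 : ∀ x0 x1 x2 : α, (f (j (j x0 x1) x2)) = (f (j x0 (j x1 x2))) :=
    fun x0 x1 x2 => ((k15 (j x0 x1) x2).trans ((k220 x0 x1 (f x2)).symm.trans ((congrArg (fun t => (j (f x0) t)) (k15 x1 x2).symm).trans (k15 x0 (j x1 x2)).symm)))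
  have k273 : ∀ x0 x1 x2 : α, (j (m x0 (j x1 x2)) (f x2)) = (m x0 (j x1 x2)) :=
    fun x0 x1 x2 => ((k132 (m x0 (j x1 x2)) (f x2)).trans ((congrArg (fun t => (j t (f (j (m x0 (j x1 x2)) (f x2))))) (k247 x2 x0 x1)).trans ((congrArg (fun t => (j (m x0 (j x1 x2)) t)) (k25 (m x0 (j x1 x2)) x2)).trans ((congrArg (fun t => (j (m x0 (j x1 x2)) (f t))) (k184 x0 x1 x2)).trans ((congrArg (fun t => (j (m x0 (j x1 x2)) t)) (k122 x0 x1 x2)).trans ((congrArg (fun t => (j (m x0 (j x1 x2)) t)) (k221 x0 x1 x2)).trans (k126 x0 (j x1 x2)).symm))))))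
  have k274 : ∀ x0 x1 x2 : α, (j (m x0 x1) x2) = (j x2 (m x0 (j x1 x2))) :=
    fun x0 x1 x2 => ((k184 x0 x1 x2).symm.trans ((k109 x2 (m x0 (j x1 x2))).symm.trans (congrArg (fun t => (j x2 t)) (k273 x0 x1 x2))))
  have k236 : ∀ x0 x1 x2 : α, (j (m (j x0 x1) x2) x1) = (m (j x0 x1) (j x2 x1)) :=
    fun x0 x1 x2 => ((D (j x0 x1) x2 x1).trans (congrArg (fun t => (m t (j x2 x1))) (k162 x1 x0)))
  have k240 : ∀ x0 x1 x2 : α, (m (j (m x0 x1) x2) x1) = (j (m x0 x1) (m x2 x1)) :=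
    fun x0 x1 x2 => ((Dp (m x0 x1) x2 x1).trans (congrArg (fun t => (j t (m x2 x1))) (k209 x1 x0)))
  have k77 : ∀ x0 x1 : α, (e (j x0 x1)) = (j (e x1) (j x0 x1)) :=
    fun x0 x1 => ((k32 x0 x1).symm.trans ((congrArg (fun t => (e t)) (k71 x1 x0).symm).trans ((k60 (f (j x1 x0)) x1).symm.trans ((k54 (j x1 x0) (e x1)).symm.trans ((k40 (j x1 x0) (e x1)).trans (congrArg (fun t => (j (e x1) t)) (k59 x0 x1).symm))))))
  have k228 : ∀ x0 x1 x2 : α, (j (j x0 (f x1)) (j x2 x1)) = (j x0 (j x2 x1)) :=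
    fun x0 x1 x2 => ((congrArg (fun t => (j t (j x2 x1))) (k116 x0 x1)).trans ((D x0 (e x1) (j x2 x1)).trans ((congrArg (fun t => (m (j (j x2 x1) x0) t)) (k77 x2 x1).symm).trans ((k116 (j (j x2 x1) x0) (j x2 x1)).symm.trans (k89 (j x2 x1) x0)))))
  have k261 : ∀ x0 x1 x2 : α, (j x0 (m x1 x2)) = (j (j x0 (f x2)) (m x1 x2)) :=
    fun x0 x1 x2 => ((congrArg (fun t => (j x0 t)) (k65 x1 x2)).trans ((k228 x0 (f x2) (m x2 x1)).symm.trans ((congrArg (fun t => (j (j x0 (f (f x2))) t)) (k65 x1 x2).symm).trans (congrArg (fun t => (j (j x0 t) (m x1 x2))) (k18 x2)))))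
  have k262 : ∀ x0 x1 x2 : α, (m (j x0 x1) x2) = (j (m x0 x2) (m x1 x2)) :=
    fun x0 x1 x2 => ((Dp x0 x1 x2).trans ((k261 (m x2 x0) x1 x2).trans (congrArg (fun t => (j t (m x1 x2))) (k65 x0 x2).symm)))
  have k276 : ∀ x0 x1 x2 : α, (j (m x0 x1) x2) = (j (m (j x0 x2) x1) x2) :=
    fun x0 x1 x2 => ((D x0 x1 x2).trans ((k212 x2 x0 (j x1 x2)).symm.trans ((congrArg (fun t => (m t (j x1 x2))) (k274 x0 x1 x2).symm).trans ((k236 (m x0 x1) x2 x1).symm.trans ((congrArg (fun t => (j t x2)) (k240 x0 x1 x2)).trans (congrArg (fun t => (j t x2)) (k262 x0 x2 x1).symm))))))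
  have k292 : ∀ x0 x1 x2 : α, (m x0 (j x1 x2)) = (m (j x0 (f x2)) (j x1 x2)) :=
    fun x0 x1 x2 => ((k273 x0 x1 x2).symm.trans ((k276 x0 (j x1 x2) (f x2)).trans (k273 (j x0 (f x2)) x1 x2)))
  have k298 : ∀ x0 x1 x2 : α, (m (j x0 (f x1)) (j x1 x2)) = (m x0 (j x1 x2)) :=
    fun x0 x1 x2 => ((k285 (j x0 (f x1)) x2 x1).symm.trans ((congrArg (fun t => (j t (f x2))) (k292 x0 x2 x1).symm).trans (k285 x0 x2 x1)))
  have k302 : ∀ x0 x1 x2 : α, (m (j x0 x1) (j x0 x2)) = (m (j x1 x0) (j x0 x2)) :=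
    fun x0 x1 x2 => ((k298 (j x0 x1) x0 x2).symm.trans (congrArg (fun t => (m t (j x0 x2))) (k89 x0 x1)))
  have k178 : ∀ x0 x1 : α, (m (m x0 x1) (j (f x1) x0)) = (m x1 x0) :=
    fun x0 x1 => ((k65 (m x0 x1) (j (f x1) x0)).trans ((congrArg (fun t => (j t (f (j (f x1) x0)))) (k177 x0 x1).symm).trans ((congrArg (fun t => (j (m x0 x1) t)) (k24 x1 x0)).trans (k135 x1 x0).symm)))
  have k280 : ∀ x0 x1 x2 : α, (m (j x0 x1) (j (f x1) x2)) = (m (j x0 x1) x2) :=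
    fun x0 x1 x2 => ((k178 (j (f x1) x2) (j x0 x1)).symm.trans ((congrArg (fun t => (m t (j (f (j x0 x1)) (j (f x1) x2)))) (k255 x1 x2 x0)).trans ((congrArg (fun t => (m (m x2 (j x0 x1)) t)) (k220 (j x0 x1) x1 x2)).trans ((congrArg (fun t => (m (m x2 (j x0 x1)) (j (f t) x2))) (k82 x0 x1)).trans ((congrArg (fun t => (m (m x2 (j x0 x1)) (j (f t) x2))) (k162 x1 x0)).trans (k178 x2 (j x0 x1)))))))
  have k293 : ∀ x0 x1 x2 : α, (m (m x0 x1) x2) = (m (m x0 x1) (j (f x1) x2)) :=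
    fun x0 x1 x2 => ((congrArg (fun t => (m t x2)) (k65 x0 x1)).trans ((k280 (m x1 x0) (f x1) x2).symm.trans ((congrArg (fun t => (m t (j (f (f x1)) x2))) (k65 x0 x1).symm).trans (congrArg (fun t => (m (m x0 x1) (j t x2))) (k18 x1)))))
  have k304 : ∀ x0 x1 x2 : α, (m (m x0 x1) (j (f x0) x2)) = (m (m x1 x0) x2) :=
    fun x0 x1 x2 => ((congrArg (fun t => (m t (j (f x0) x2))) (k108 x0 x1).symm).trans ((k302 (f x0) (m x0 x1) x2).trans ((congrArg (fun t => (m t (j (f x0) x2))) (k65 x1 x0).symm).trans (k293 x1 x0 x2).symm)))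
  have k282 : ∀ x0 x1 x2 : α, (j (m x0 (m x1 x2)) (f x1)) = (m x0 (m x2 x1)) :=
    fun x0 x1 x2 => ((k256 x0 (m x1 x2) x1).symm.trans (congrArg (fun t => (m x0 t)) (k65 x2 x1).symm))
  have k257 : ∀ x0 x1 x2 : α, (j (j x0 (f x1)) (f x2)) = (j x0 (f (j x1 x2))) :=
    fun x0 x1 x2 => ((congrArg (fun t => (j t (f x2))) (k116 x0 x1)).trans ((k256 x0 (e x1) x2).symm.trans ((congrArg (fun t => (m x0 t)) (k78 x1 (f x2))).trans ((congrArg (fun t => (m x0 t)) (k33 x1 x2)).trans (k116 x0 (j x1 x2)).symm))))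
  have k379 : ∀ x0 x1 x2 : α, (j (m x0 x1) (f (j x0 x2))) = (j (m x1 x0) (f x2)) :=
    fun x0 x1 x2 => ((k257 (m x0 x1) x0 x2).symm.trans (congrArg (fun t => (j t (f x2))) (k65 x1 x0).symm))
  have k266 : ∀ x0 x1 x2 : α, (m (j (f x0) x1) x2) = (m (m (j x2 x0) x1) x2) :=
    fun x0 x1 x2 => ((congrArg (fun t => (m t x2)) (k54 x0 x1).symm).trans ((congrArg (fun t => (m t x2)) (k40 x0 x1)).trans ((k211 x2 x1 (m x0 x1)).symm.trans (congrArg (fun t => (m t x2)) (k262 x2 x0 x1).symm))))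
  have k322 : ∀ x0 x1 x2 : α, (m (j (f x0) x1) x2) = (j (f (j x2 x0)) (m x1 x2)) :=
    fun x0 x1 x2 => ((Dp (f x0) x1 x2).trans (congrArg (fun t => (j t (m x1 x2))) (k64 x2 x0)))
  have k76 : ∀ x0 x1 : α, (f (j (j x0 x1) x0)) = (f (j x1 x0)) :=
    fun x0 x1 => ((k57 (j x0 x1) x0).trans ((congrArg (fun t => (f t)) (k52 x1 x0).symm).trans (k24 x1 x0)))
  have k80 : ∀ x0 x1 : α, (m (f x0) x1) = (f (j x0 x1)) :=
    fun x0 x1 => ((k65 (f x0) x1).trans ((congrArg (fun t => (j t (f x1))) (k64 x1 x0)).trans ((k15 (j x1 x0) x1).symm.trans (k76 x1 x0))))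
  have k335 : ∀ x0 x1 x2 : α, (m (j (f x0) x1) x2) = (j (f x0) (m x1 x2)) :=
    fun x0 x1 x2 => ((k322 x0 x1 x2).trans ((congrArg (fun t => (j t (m x1 x2))) (k80 x2 x0).symm).trans ((D (f x2) x0 (m x1 x2)).trans ((congrArg (fun t => (m t (j x0 (m x1 x2)))) (k83 x1 x2).symm).trans (k36 x0 (m x1 x2)).symm))))
  have k382 : ∀ x0 x1 x2 : α, (m x0 (m x1 (j x0 x2))) = (j (m x1 x0) (f x2)) :=
    fun x0 x1 x2 => ((k282 x0 (j x0 x2) x1).symm.trans ((k379 x0 (m (j x0 x2) x1) x2).trans ((congrArg (fun t => (j t (f x2))) (k266 x2 x1 x0).symm).trans ((congrArg (fun t => (j t (f x2))) (k335 x2 x1 x0)).trans ((k104 (f x2) (m x1 x0)).trans (k162 (f x2) (m x1 x0)))))))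
  have k332 : ∀ x0 x1 x2 : α, (m (j x0 (f x1)) x2) = (j (m x2 x0) (f (j x1 x2))) :=
    fun x0 x1 x2 => ((Dp x0 (f x1) x2).trans (congrArg (fun t => (j (m x2 x0) t)) (k80 x1 x2)))
  have k91 : ∀ x0 x1 : α, (j (f x0) x1) = (j x1 (f (j x0 x1))) :=
    fun x0 x1 => ((k54 x0 x1).symm.trans ((congrArg (fun t => (m t x1)) (k13 x0).symm).trans ((k40 (f x0) x1).trans (congrArg (fun t => (j x1 t)) (k80 x0 x1)))))
  have k376 : ∀ x0 x1 x2 : α, (j (m x0 x1) (f (j x2 x1))) = (m x0 (j (f x2) x1)) :=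
    fun x0 x1 x2 => ((k256 x0 x1 (j x2 x1)).symm.trans (congrArg (fun t => (m x0 t)) (k91 x2 x1).symm))
  have k380 : ∀ x0 x1 x2 : α, (m x0 (j (f x1) x2)) = (m (j x0 (f x1)) x2) :=
    fun x0 x1 x2 => ((k376 x0 x2 x1).symm.trans ((congrArg (fun t => (j (m x0 x2) t)) (k57 x1 x2)).trans ((k379 x2 x0 (m x1 x2)).symm.trans ((congrArg (fun t => (j (m x2 x0) (f t))) (k40 x1 x2).symm).trans ((congrArg (fun t => (j (m x2 x0) (f t))) (k54 x1 x2)).trans ((congrArg (fun t => (j (m x2 x0) t)) (k24 x1 x2)).trans (k332 x0 x1 x2).symm))))))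
  have k384 : ∀ x0 x1 x2 : α, (m x0 (m (j x0 x1) x2)) = (m x0 (j (f x1) x2)) :=
    fun x0 x1 x2 => ((k282 x0 x2 (j x0 x1)).symm.trans ((congrArg (fun t => (j t (f x2))) (k382 x0 x2 x1)).trans ((k257 (m x2 x0) x1 x2).trans ((k332 x0 x1 x2).symm.trans (k380 x0 x1 x2).symm))))
  have k385 : ∀ x0 x1 x2 : α, (m (m x0 x1) x2) = (m (m x1 x0) (m x1 x2)) :=
    fun x0 x1 x2 => ((k304 x1 x0 x2).symm.trans ((k384 (m x1 x0) x1 x2).symm.trans ((congrArg (fun t => (m (m x1 x0) (m t x2))) (k50 x1 x0)).trans ((congrArg (fun t => (m (m x1 x0) t)) (k335 x0 x1 x2)).trans (k293 x1 x0 (m x1 x2)).symm))))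
  have k294 : ∀ x0 x1 x2 : α, (m (j x0 (f x1)) (m x2 x1)) = (m x0 (m x2 x1)) :=
    fun x0 x1 x2 => ((k282 (j x0 (f x1)) x1 x2).symm.trans ((k276 x0 (m x1 x2) (f x1)).symm.trans (k282 x0 x1 x2)))
  have k299 : ∀ x0 x1 x2 : α, (m (m x0 x1) (m x2 x0)) = (m (m x1 x0) (m x2 x0)) :=
    fun x0 x1 x2 => ((k294 (m x0 x1) x0 x2).symm.trans (congrArg (fun t => (m t (m x2 x0))) (k65 x1 x0).symm))
  have k303 : ∀ x0 x1 x2 : α, (m (m x0 x1) (m x0 x2)) = (m (m x1 x0) (m x0 x2)) :=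
    fun x0 x1 x2 => ((k282 (m x0 x1) x2 x0).symm.trans ((congrArg (fun t => (j t (f x2))) (k299 x0 x1 x2)).trans (k282 (m x1 x0) x2 x0)))
  have k386 : ∀ x0 x1 x2 : α, (m (m x0 x1) x2) = (m (m x0 x1) (m x1 x2)) :=
    fun x0 x1 x2 => ((k385 x0 x1 x2).trans (k303 x1 x0 x2))
  have k390 : ∀ x0 x1 x2 : α, (m (m x0 x1) (m x2 x0)) = (m x1 (m x2 x0)) :=
    fun x0 x1 x2 => ((k209 (m x2 x0) (m x0 x1)).symm.trans ((k101 (m x2 x0) (m x0 x1)).symm.trans ((congrArg (fun t => (m t (m x2 x0))) (k386 x2 x0 x1).symm).trans ((k101 (m x2 x0) x1).trans (k209 (m x2 x0) x1)))))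
  have k392 : ∀ x0 x1 x2 : α, (m (m x0 x1) x2) = (m x0 (m x1 x2)) :=
    fun x0 x1 x2 => ((k385 x0 x1 x2).trans ((k282 (m x1 x0) x2 x1).symm.trans ((congrArg (fun t => (j t (f x2))) (k390 x1 x0 x2)).trans (k282 x0 x2 x1))))
  exact (k392 a b c)

end Pool.Agent.Lib.IZ64
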