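import Mathlib

namespace Pool.Agent.Lib.IZ64

abbrev Lit := ℕ × Bool
abbrev Word := List Lit

def co (x : Lit) : Lit := (x.1, !x.2)
def ng (u : Word) : Word := u.map co
def sbl (σ : ℕ → Word) (x : Lit) : Word := if x.2 then σ x.1 else ng (σ x.1)
def sb (σ : ℕ → Word) (u : Word) : Word := u.flatMap (sbl σ)

@[simp] theorem co_co (x : Lit) : co (co x) = x := by simp [co]
theorem co_ne (x : Lit) : co x ≠ x := by
  obtain ⟨i, b⟩ := x
  cases b <;> simp [co]
theorem co_inj {x y : Lit} (h : co x = co y) : x = y := by rw [← co_co x, h, co_co]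
@[simp] theorem ng_ng (u : Word) : ng (ng u) = u := by
  simp [ng, Function.comp_def]
@[simp] theorem ng_nil : ng [] = [] := rfl
@[simp] theorem ng_cons (x : Lit) (u : Word) : ng (x :: u) = co x :: ng u := rfl
@[simp] theorem ng_append (u v : Word) : ng (u ++ v) = ng u ++ ng v := List.map_append
@[simp] theorem mem_ng {x : Lit} {u : Word} : x ∈ ng u ↔ co x ∈ u := by
  simp only [ng, List.mem_map]
  exact ⟨fun ⟨y, hy, h⟩ => by rw [← h, co_co]; exact hy, fun h => ⟨_, h, co_co x⟩⟩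
@[simp] theorem sb_nil (σ : ℕ → Word) : sb σ [] = [] := rfl
@[simp] theorem sb_cons (σ : ℕ → Word) (x : Lit) (u : Word) : sb σ (x :: u) = sbl σ x ++ sb σ u :=
  List.flatMap_cons
@[simp] theorem sb_append (σ : ℕ → Word) (u v : Word) : sb σ (u ++ v) = sb σ u ++ sb σ v :=
  List.flatMap_append
@[simp] theorem sbl_co (σ : ℕ → Word) (x : Lit) : sbl σ (co x) = ng (sbl σ x) := by
  obtain ⟨i, b⟩ := x
  cases b <;> simp [sbl, co]
@[simp] theorem sbl_true (σ : ℕ → Word) (i : ℕ) : sbl σ (i, true) = σ i := rfl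
@[simp] theorem sbl_false (σ : ℕ → Word) (i : ℕ) : sbl σ (i, false) = ng (σ i) := rfl
@[simp] theorem sb_ng (σ : ℕ → Word) (u : Word) : sb σ (ng u) = ng (sb σ u) := by
  induction u with
  | nil => rfl
  | cons x u ih => simp [ih]
theorem mem_sb {σ : ℕ → Word} {u : Word} {x : Lit} : x ∈ sb σ u ↔ ∃ t ∈ u, x ∈ sbl σ t :=
  List.mem_flatMap
theorem sb_eq_nil {σ : ℕ → Word} {u : Word} (h : ∀ t ∈ u, sbl σ t = []) : sb σ u = [] :=
  List.flatMap_eq_nil_iff.2 h
theorem sb_congr {σ τ : ℕ → Word} {u : Word} (h : ∀ t ∈ u, sbl σ t = sbl τ t) :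
    sb σ u = sb τ u := List.flatMap_congr h

/-- Send the literal `x` to the word `Y`. -/
def upd (σ : ℕ → Word) (x : Lit) (Y : Word) : ℕ → Word :=
  Function.update σ x.1 (if x.2 then Y else ng Y)

@[simp] theorem sbl_upd (σ : ℕ → Word) (x : Lit) (Y : Word) : sbl (upd σ x Y) x = Y := by
  obtain ⟨i, b⟩ := x
  cases b <;> simp [upd]
theorem sbl_upd_ne (σ : ℕ → Word) {x t : Lit} (Y : Word) (h1 : t ≠ x) (h2 : t ≠ co x) :
    sbl (upd σ x Y) t = sbl σ t := by
  have : t.1 ≠ x.1 := by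
    obtain ⟨i, b⟩ := x
    obtain ⟨k, c⟩ := t
    rintro (rfl : k = i)
    cases b <;> cases c <;> simp_all [co]
  simp [sbl, upd, Function.update_of_ne this]
theorem sb_upd (σ : ℕ → Word) {x : Lit} {u : Word} (Y : Word) (h1 : x ∉ u) (h2 : co x ∉ u) :
    sb (upd σ x Y) u = sb σ u :=
  sb_congr fun _ ht => sbl_upd_ne σ Y (fun h => h1 (h ▸ ht)) (fun h => h2 (h ▸ ht))

/-- Equational theories of right regular band monoids with an involutive automorphism. -/
structure WT (R : Word → Word → Prop) : Prop where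
  refl : ∀ u, R u u
  symm : ∀ {u v}, R u v → R v u
  trans : ∀ {u v w}, R u v → R v w → R u w
  left : ∀ p {u v}, R u v → R (p ++ u) (p ++ v)
  right : ∀ q {u v}, R u v → R (u ++ q) (v ++ q)
  sub : ∀ σ {u v}, R u v → R (sb σ u) (sb σ v)
  rrb : ∀ u v, R (u ++ v ++ u) (v ++ u)

variable {R : Word → Word → Prop}

theorem WT.absorb (W : WT R) (p c q : Word) (h : ∀ x ∈ c, x ∈ q) : R (p ++ (c ++ q)) (p ++ q) := by
  refine W.left p ?_
  induction c with
  | nil => exact W.refl _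
  | cons x c ih =>
    have h1 := W.left [x] (ih fun y hy => h y (List.mem_cons_of_mem _ hy))
    refine W.trans h1 ?_
    obtain ⟨q1, q2, rfl⟩ := List.append_of_mem (h x List.mem_cons_self)
    have := W.right q2 (W.rrb [x] q1)
    simpa using this

theorem WT.of_eq (W : WT R) {u v : Word} (h : u = v) : R u v := h ▸ W.refl u

/-- The blocks `X` and `Y` can be exchanged between `a` and `b`. -/
def Sw (R : Word → Word → Prop) (a X Y b : Word) : Prop :=
  R (a ++ (X ++ (Y ++ b))) (a ++ (Y ++ (X ++ b)))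

theorem WT.sw_symm (W : WT R) {a X Y b : Word} (h : Sw R a X Y b) : Sw R a Y X b := W.symm h

/-- Two step exchange through a common block `c`. -/
theorem WT.sw_two (W : WT R) {a c X Y b : Word} (h1 : Sw R a (c ++ X) Y b)
    (h2 : Sw R a c Y (X ++ b)) : Sw R (a ++ c) X Y b := by
  unfold Sw at *
  simp only [List.append_assoc] at *
  exact W.trans h1 (W.symm h2)

def Up : ℕ → Word → Word → Word → Prop
  | 0, _, _, _ => True
  | k + 1, a, L, r => ∃ a1 c, a = a1 ++ c ∧ (∀ x ∈ L, co x ∈ c ∨ co x ∈ L ∨ co x ∈ r) ∧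
      Up k a1 c (L ++ r)

theorem Up.mono : ∀ {k : ℕ} {a L r L' r' : Word}, Up k a L r →
    (∀ x ∈ L', x ∈ L ∨ co x ∈ L' ∨ co x ∈ r') → (∀ x, x ∈ L ∨ x ∈ r → x ∈ L' ∨ x ∈ r') →
    Up k a L' r'
  | 0, _, _, _, _, _, _, _, _ => trivial
  | k + 1, _, _, _, _, _, ⟨a1, c, ha, hc, hu⟩, h1, h2 =>
    ⟨a1, c, ha, fun x hx => by grind, hu.mono (fun _ hx => Or.inl hx) (by grind)⟩

theorem Up.pred : ∀ {k : ℕ} {a L r : Word}, Up (k + 1) a L r → Up k a L r
  | 0, _, _, _, _ => trivial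
  | _ + 1, _, _, _, ⟨a1, c, ha, hc, hu⟩ => ⟨a1, c, ha, hc, hu.pred⟩

theorem Up.of_le {k n : ℕ} {a L r : Word} (h : Up n a L r) (hk : k ≤ n) : Up k a L r := by
  induction hk with
  | refl => exact h
  | step _ ih => exact ih h.pred

theorem Up.closed : ∀ (k : ℕ) (a : Word) {L r : Word}, (∀ x ∈ L, co x ∈ L ∨ co x ∈ r) → Up k a L r
  | 0, _, _, _, _ => trivial
  | k + 1, a, _, _, h => ⟨a, [], by simp, fun x hx => Or.inr (h x hx), Up.closed k a (by simp)⟩

theorem Up.left (p : Word) : ∀ {k : ℕ} {a L r : Word}, Up k a L r → Up k (p ++ a) L r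
  | 0, _, _, _, _ => trivial
  | _ + 1, _, _, _, ⟨a1, c, ha, hc, hu⟩ => ⟨p ++ a1, c, by simp [ha], hc, hu.left p⟩

theorem co_mem_sb {σ : ℕ → Word} {x t : Lit} {u : Word} (hx : x ∈ sbl σ t) (h : co t ∈ u) :
    co x ∈ sb σ u := mem_sb.2 ⟨_, h, by simpa using hx⟩

theorem Up.sub (σ : ℕ → Word) : ∀ {k : ℕ} {a L r : Word}, Up k a L r →
    Up k (sb σ a) (sb σ L) (sb σ r)
  | 0, _, _, _, _ => trivial
  | _ + 1, _, _, _, ⟨a1, c, ha, hc, hu⟩ => by
    refine ⟨sb σ a1, sb σ c, by simp [ha], fun x hx => ?_, by simpa using hu.sub σ⟩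
    obtain ⟨t, ht, hx⟩ := mem_sb.1 hx
    rcases hc t ht with h | h | h
    exacts [Or.inl (co_mem_sb hx h), Or.inr (Or.inl (co_mem_sb hx h)),
      Or.inr (Or.inr (co_mem_sb hx h))]

def lk : ℕ → Lit
  | 0 => (0, true)
  | k + 1 => (k + 1, false)

def Pk : ℕ → Word
  | 0 => []
  | k + 1 => Pk k ++ [(k + 1, true), lk k]

theorem lk_fst (k : ℕ) : (lk k).1 = k := by cases k <;> rfl

theorem Pk_fst : ∀ (k : ℕ), ∀ x ∈ Pk k, x.1 ≤ k
  | 0 => by simp [Pk]
  | k + 1 => by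
    intro x hx
    simp only [Pk, List.mem_append, List.mem_cons, List.not_mem_nil, or_false] at hx
    rcases hx with h | rfl | rfl
    · exact (Pk_fst k x h).trans (Nat.le_succ k)
    · exact le_rfl
    · rw [lk_fst]; exact Nat.le_succ k

theorem up_Pk : ∀ (k : ℕ) {L r : Word}, (∀ x ∈ L, x = lk k ∨ co x ∈ L ∨ co x ∈ r) →
    (lk k ∈ L ∨ lk k ∈ r) → Up k (Pk k) L r
  | 0, _, _, _, _ => trivial
  | k + 1, L, r, h1, h2 => by
    refine ⟨Pk k, [(k + 1, true), lk k], rfl, fun x hx => ?_, up_Pk k ?_ (by simp)⟩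
    · rcases h1 x hx with rfl | h
      · left; simp [lk, co]
      · exact Or.inr h
    · intro x hx
      simp only [List.mem_cons, List.not_mem_nil, or_false] at hx
      rcases hx with rfl | rfl
      · right; right; exact List.mem_append.2 h2
      · exact Or.inl rfl

theorem inflate (W : WT R) : ∀ (k : ℕ) (a L r : Word) (τ : ℕ → Word), Up k a L r →
    ∃ σ a0, (∀ i, k < i → σ i = τ i) ∧ sbl σ (lk k) = L ∧
      ∀ q : Word, (∀ x, x ∈ L ∨ x ∈ r → x ∈ q) → R (a0 ++ (sb σ (Pk k) ++ q)) (a ++ q)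
  | 0, a, L, r, τ, _ => ⟨Function.update τ 0 L, a, fun i hi => Function.update_of_ne hi.ne' _ _,
      by simp [lk], fun q _ => W.refl _⟩
  | k + 1, _, L, r, τ, ⟨a1, c, rfl, hc, hu⟩ => by
    obtain ⟨σ, a0, h1, h2, h3⟩ := inflate W k a1 c (L ++ r) (Function.update τ (k + 1) (ng L)) hu
    have hz : σ (k + 1) = ng L := by rw [h1 _ (Nat.lt_succ_self k), Function.update_self]
    refine ⟨σ, a0, fun i hi => ?_, by simp [lk, hz], fun q hq => ?_⟩
    · rw [h1 i (by omega), Function.update_of_ne hi.ne']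
    · have e1 := h3 (ng L ++ (c ++ q)) (by grind)
      have e2 := W.absorb a1 (ng L) (c ++ q) (fun x hx => by
        have := hc (co x) (mem_ng.1 hx)
        rw [co_co] at this
        grind)
      simpa [Pk, hz, h2] using W.trans e1 e2

/-! ### The principles -/

def pT (R : Word → Word → Prop) : Prop := ∀ u v, R u v
def pP (R : Word → Word → Prop) : Prop := ∀ u, R u (ng u ++ u)
def pE (R : Word → Word → Prop) : Prop :=
  ∀ a X Y b, (∀ x ∈ X, co x ∈ b) → (∀ y ∈ Y, co y ∈ b) → Sw R a X Y b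
def pE1 (R : Word → Word → Prop) : Prop := ∀ a X b, Sw R a X (ng X) b
def pF (R : Word → Word → Prop) : Prop :=
  ∀ a X Y b, (∀ x ∈ X, co x ∈ X ∨ co x ∈ Y ∨ co x ∈ b) → (∀ y ∈ Y, co y ∈ b) → Sw R a X Y b
def pG (R : Word → Word → Prop) : Prop :=
  ∀ a X Y b, (∀ x ∈ X ++ Y, co x ∈ X ++ Y ∨ co x ∈ b) → Sw R a X Y b
def pPhi (k : ℕ) (R : Word → Word → Prop) : Prop :=
  ∀ a X Y b, Up k a X (Y ++ b) → (∀ y ∈ Y, co y ∈ b) → Sw R a X Y b
def pA (k : ℕ) (R : Word → Word → Prop) : Prop :=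
  ∀ a X Y b, Up k a (X ++ Y) b → Sw R a X Y b
def pB (k : ℕ) (R : Word → Word → Prop) : Prop :=
  ∀ a X Y b, Up k a X (ng Y ++ (Y ++ b)) → Sw R (a ++ ng Y) X Y b

theorem WT.phi_of (W : WT R) (k : ℕ)
    (h : Sw R (Pk k) [lk k] [(k + 1, true)] [(k + 1, false)]) : pPhi k R := by
  intro a X Y b hu hY
  obtain ⟨σ, a0, h1, h2, h3⟩ := inflate W k a X _ (fun _ => Y) hu
  have e := W.left a0 (W.right b (W.sub σ h))
  simp only [sb_append, sb_cons, sb_nil, h2, sbl_true, sbl_false, h1 _ (Nat.lt_succ_self k),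
    List.append_nil, List.append_assoc] at e
  have hb : ∀ x ∈ ng Y, x ∈ b := fun x hx => by simpa using hY _ (mem_ng.1 hx)
  have e1 := W.absorb (a0 ++ (sb σ (Pk k) ++ (X ++ Y))) _ b hb
  have e2 := W.absorb (a0 ++ (sb σ (Pk k) ++ (Y ++ X))) _ b hb
  simp only [List.append_assoc] at e1 e2
  exact W.trans (W.symm (h3 _ (by grind))) (W.trans (W.symm e1) (W.trans e (W.trans e2
    (h3 _ (by grind)))))

theorem WT.b_of (W : WT R) (k : ℕ)
    (h : Sw R (Pk k ++ [(k + 1, true)]) [lk k] [(k + 1, false)] []) : pB k R := by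
  intro a X Y b hu
  obtain ⟨σ, a0, h1, h2, h3⟩ := inflate W k a X _ (fun _ => ng Y) hu
  have e := W.left a0 (W.right b (W.sub σ h))
  simp only [sb_append, sb_cons, sb_nil, h2, sbl_true, sbl_false, h1 _ (Nat.lt_succ_self k),
    List.append_nil, List.append_assoc, ng_ng] at e
  unfold Sw
  simp only [List.append_assoc]
  exact W.trans (W.symm (h3 _ (by grind))) (W.trans e (h3 _ (by grind)))

theorem WT.a_of (W : WT R) (k : ℕ)
    (h : Sw R (Pk k ++ [(k + 1, true), (k + 2, true), lk k]) [(k + 1, false)] [(k + 2, false)] []) :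
    pA (k + 1) R := by
  rintro _ X Y b ⟨a, c, rfl, hc, hu⟩
  obtain ⟨σ, a0, h1, h2, h3⟩ := inflate W k a c _
    (fun i => if i = k + 1 then ng X else ng Y) hu
  have e := W.left a0 (W.right b (W.sub σ h))
  have z1 : σ (k + 1) = ng X := by rw [h1 _ (by omega), if_pos rfl]
  have z2 : σ (k + 2) = ng Y := by rw [h1 _ (by omega), if_neg (by omega)]
  simp only [sb_append, sb_cons, sb_nil, h2, sbl_true, sbl_false, z1, z2,
    List.append_nil, List.append_assoc, ng_ng] at e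
  have hb : ∀ x ∈ ng X ++ ng Y, x ∈ c ∨ x ∈ X ∨ x ∈ Y ∨ x ∈ b := fun x hx => by
    have := hc (co x) (by simpa using hx)
    rw [co_co] at this
    grind
  have e1 := W.absorb (a0 ++ sb σ (Pk k)) (ng X ++ ng Y) (c ++ (X ++ (Y ++ b))) (by grind)
  have e2 := W.absorb (a0 ++ sb σ (Pk k)) (ng X ++ ng Y) (c ++ (Y ++ (X ++ b))) (by grind)
  unfold Sw
  simp only [List.append_assoc] at e1 e2 ⊢
  exact W.trans (W.symm (h3 _ (by grind))) (W.trans (W.symm e1) (W.trans e (W.trans e2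
    (h3 _ (by grind)))))

theorem WT.two (W : WT R) {p q : Word} (X Y a b : Word)
    (h : R p q) : R (a ++ (sb (fun i => if i = 0 then X else Y) p ++ b))
      (a ++ (sb (fun i => if i = 0 then X else Y) q ++ b)) :=
  W.left a (W.right b (W.sub _ h))

theorem WT.a0_of (W : WT R) (h : Sw R [] [(0, true)] [(1, true)] []) : pA 0 R := by
  intro a X Y b _
  simpa [Sw] using W.two X Y a b h

theorem WT.e1_of (W : WT R) (h : Sw R [] [(0, true)] [(0, false)] []) : pE1 R := by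
  intro a X b
  simpa [Sw] using W.two X X a b h

theorem WT.e_of (W : WT R) (h : Sw R [] [(0, true)] [(1, true)] [(0, false), (1, false)]) :
    pE R := by
  intro a X Y b hX hY
  have e := W.two X Y a b h
  have hb : ∀ x ∈ ng X ++ ng Y, x ∈ b := fun x hx => by
    rcases List.mem_append.1 hx with h | h
    · simpa using hX _ (mem_ng.1 h)
    · simpa using hY _ (mem_ng.1 h)
  have e1 := W.absorb (a ++ (X ++ Y)) _ b hb
  have e2 := W.absorb (a ++ (Y ++ X)) _ b hb
  simp at e e1 e2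
  exact W.trans (W.symm e1) (W.trans e e2)

theorem WT.f_of (W : WT R) (h : Sw R [(0, false)] [(0, true)] [(1, true)] [(1, false)]) :
    pF R := by
  intro a X Y b hX hY
  have e := W.two X Y a b h
  have hb : ∀ x ∈ ng Y, x ∈ b := fun x hx => by simpa using hY _ (mem_ng.1 hx)
  have hc : ∀ x ∈ ng X, x ∈ X ∨ x ∈ Y ∨ x ∈ b := fun x hx => by simpa using hX _ (mem_ng.1 hx)
  have e1 := W.absorb (a ++ (ng X ++ (X ++ Y))) _ b hb
  have e2 := W.absorb (a ++ (ng X ++ (Y ++ X))) _ b hb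
  have e3 := W.absorb a (ng X) (X ++ (Y ++ b)) (by grind)
  have e4 := W.absorb a (ng X) (Y ++ (X ++ b)) (by grind)
  simp at e e1 e2
  exact W.trans (W.symm e3) (W.trans (W.symm e1) (W.trans e (W.trans e2 e4)))

theorem WT.g_of (W : WT R) (h : Sw R [(0, false), (1, false)] [(0, true)] [(1, true)] []) :
    pG R := by
  intro a X Y b hX
  have e := W.two X Y a b h
  have hc : ∀ x ∈ ng X ++ ng Y, x ∈ X ∨ x ∈ Y ∨ x ∈ b := fun x hx => by
    have := hX (co x) (by simpa using hx)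
    rw [co_co] at this
    grind
  have e3 := W.absorb a (ng X ++ ng Y) (X ++ (Y ++ b)) (by grind)
  have e4 := W.absorb a (ng X ++ ng Y) (Y ++ (X ++ b)) (by grind)
  simp at e e3 e4
  exact W.trans (W.symm e3) (W.trans e e4)

end Pool.Agent.Lib.IZ64
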