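import Mathlib
import Pool.Agent.Lib.IZ64.Word

namespace Pool.Agent.Lib.IZ64

def Down (U : Word) : ℕ → Word → Lit → Prop
  | 0, _, x => co x ∉ U
  | k + 1, a, x => ∃ a1 a2 a3 u, a = a1 ++ co x :: (a2 ++ u :: a3) ∧ Down U k a1 u

theorem Down.app {U : Word} (p : Word) : ∀ {k : ℕ} {a : Word} {x : Lit}, Down U k a x →
    Down U k (a ++ p) x
  | 0, _, _, h => h
  | _ + 1, _, _, ⟨a1, a2, a3, u, ha, h⟩ => ⟨a1, a2, a3 ++ p, u, by simp [ha], h⟩

theorem Down.not_co {U : Word} {k : ℕ} {a : Word} {x : Lit} (h1 : x ∈ U) (h2 : x ∉ a) :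
    ¬ Down U k a (co x) := by
  cases k with
  | zero => simpa [Down] using h1
  | succ k =>
    rintro ⟨a1, a2, a3, u, ha, _⟩
    exact h2 (by simp [ha])

theorem Down.cut {U : Word} : ∀ {k : ℕ} {a0 a' : Word} {x : Lit}, Down U k (a0 ++ a') x →
    Down U k a0 x ∨ ∃ u ∈ a', ∃ i < k, Down U i a0 u
  | 0, _, _, _, h => Or.inl h
  | k + 1, a0, a', x, ⟨a1, a2, a3, u, ha, h⟩ => by
    rcases List.append_eq_append_iff.1 ha with ⟨c, h1, h2⟩ | ⟨c, h1, h2⟩
    · subst h1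
      rcases Down.cut h with h | ⟨v, hv, i, hi, h⟩
      · exact Or.inr ⟨u, by simp [h2], k, Nat.lt_succ_self k, h⟩
      · exact Or.inr ⟨v, by simp [h2, hv], i, by omega, h⟩
    · subst h1
      have h3 : (co x :: a2) ++ u :: a3 = c ++ a' := by simpa using h2
      rcases List.append_eq_append_iff.1 h3 with ⟨d, h4, h5⟩ | ⟨d, h4, h5⟩
      · cases d with
        | nil => exact Or.inr ⟨u, by have : a' = u :: a3 := h5.symm; simp [this], k, Nat.lt_succ_self k, h.app c⟩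
        | cons y d =>
          obtain ⟨rfl, rfl⟩ := List.cons.inj h5
          exact Or.inl ⟨a1, a2, d, u, by simp [h4], h⟩
      · exact Or.inr ⟨u, by simp [h5], k, Nat.lt_succ_self k, h.app c⟩

theorem split_first (p : Lit → Prop) : ∀ a : Word, (∀ t ∈ a, ¬ p t) ∨
    ∃ a1 t a', a = a1 ++ t :: a' ∧ p t ∧ ∀ s ∈ a1, ¬ p s
  | [] => Or.inl (by simp)
  | x :: a => by
    by_cases hx : p x
    · exact Or.inr ⟨[], x, a, rfl, hx, by simp⟩
    · rcases split_first p a with h | ⟨a1, t, a', rfl, h1, h2⟩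
      · exact Or.inl (by simpa [hx] using h)
      · exact Or.inr ⟨x :: a1, t, a', rfl, h1, by simpa [hx] using h2⟩

/-- One step of the analysis of the block `L` after the initial part `a`. -/
theorem step_cases (U a L r : Word) (h1 : ∀ t ∈ U, t ∈ a ∨ t ∈ L ∨ t ∈ r)
    (h2 : ∀ t ∈ L, t ∈ U) (h4 : (a ++ L).Nodup) :
    (∃ x ∈ L, Down U 0 a x) ∨ (∀ x ∈ L, co x ∈ L ∨ co x ∈ r) ∨
    ∃ a1 c, a = a1 ++ c ∧ c ≠ [] ∧ (∀ x ∈ L, co x ∈ c ∨ co x ∈ L ∨ co x ∈ r) ∧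
      ∀ u ∈ c, ∀ i, Down U i a1 u → ∃ x ∈ L, Down U (i + 1) a x := by
  by_cases h : ∃ x ∈ L, co x ∉ U
  · exact Or.inl h
  push Not at h
  right
  rcases split_first (fun t => co t ∈ L) a with h5 | ⟨a1, t, a', rfl, h5, h6⟩
  · left
    intro x hx
    rcases h1 _ (h x hx) with h7 | h7
    · exact absurd (by simpa using hx) (h5 _ h7)
    · exact h7
  · right
    refine ⟨a1, t :: a', rfl, by simp, fun x hx => ?_, fun u hu i hd => ⟨co t, h5, ?_⟩⟩
    · rcases h1 _ (h x hx) with h7 | h7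
      · rcases List.mem_append.1 h7 with h8 | h8
        · exact absurd (by simpa using hx) (h6 _ h8)
        · exact Or.inl h8
      · exact Or.inr h7
    · rcases List.mem_cons.1 hu with rfl | hu
      · refine absurd (by simpa using hd) (Down.not_co (k := i) (a := a1) (h2 _ h5) ?_)
        intro h7
        exact (List.nodup_append.1 h4).2.2 _ (List.mem_append_left _ h7) _ h5 rfl
      · obtain ⟨a2, a3, rfl⟩ := List.append_of_mem hu
        exact ⟨a1, a2, a3, u, by simp, hd⟩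

theorem dichotomy (U : Word) : ∀ (k : ℕ) (a L r : Word), (∀ t ∈ U, t ∈ a ∨ t ∈ L ∨ t ∈ r) →
    (∀ t ∈ L, t ∈ U) → (∀ t ∈ a, t ∈ U) → (a ++ L).Nodup →
    (∀ x ∈ L, ∀ i < k, ¬ Down U i a x) → Up k a L r
  | 0, _, _, _, _, _, _, _, _ => trivial
  | k + 1, a, L, r, h1, h2, h3, h4, h5 => by
    rcases step_cases U a L r h1 h2 h4 with ⟨x, hx, h⟩ | h | ⟨a1, c, rfl, _, h6, h7⟩
    · exact absurd h (h5 x hx 0 (Nat.succ_pos k))
    · exact Up.closed _ _ h
    · refine ⟨a1, c, rfl, h6, dichotomy U k a1 c (L ++ r) (by grind) (by grind) (by grind)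
        (List.nodup_append.1 h4).1 fun u hu i hi hd => ?_⟩
      obtain ⟨x, hx, h8⟩ := h7 u hu i hd
      exact h5 x hx (i + 1) (by omega) h8

theorem closedness (U : Word) : ∀ (n : ℕ) (a L r : Word), a.length ≤ n →
    (∀ t ∈ U, t ∈ a ∨ t ∈ L ∨ t ∈ r) →
    (∀ t ∈ L, t ∈ U) → (∀ t ∈ a, t ∈ U) → (a ++ L).Nodup →
    (∀ x ∈ L, ∀ i, ¬ Down U i a x) →
    ∃ a1 c, a = a1 ++ c ∧ ∀ x ∈ c ++ L, co x ∈ c ++ L ∨ co x ∈ r := by
  intro n
  induction n with
  | zero =>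
    intro a L r hn h1 h2 h3 h4 h5
    rcases step_cases U a L r h1 h2 h4 with ⟨x, hx, h⟩ | h | ⟨a1, c, rfl, h8, h6, h7⟩
    · exact absurd h (h5 x hx 0)
    · exact ⟨a, [], by simp, by simpa using h⟩
    · exact absurd (by simpa using hn) (fun h : a1 = [] ∧ c = [] => h8 h.2)
  | succ n ih =>
    intro a L r hn h1 h2 h3 h4 h5
    rcases step_cases U a L r h1 h2 h4 with ⟨x, hx, h⟩ | h | ⟨a1, c, rfl, h8, h6, h7⟩
    · exact absurd h (h5 x hx 0)
    · exact ⟨a, [], by simp, by simpa using h⟩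
    · have hl : a1.length ≤ n := by
        have := List.length_pos_iff.2 h8
        rw [List.length_append] at hn
        omega
      obtain ⟨a2, c2, rfl, h9⟩ := ih a1 c (L ++ r) hl (by grind) (by grind) (by grind)
        (List.nodup_append.1 h4).1 fun u hu i hd => by
          obtain ⟨x, hx, h8⟩ := h7 u hu i hd
          exact h5 x hx (i + 1) h8
      exact ⟨a2, c2 ++ c, by simp, by grind⟩

theorem deflate (U : Word) : ∀ (k : ℕ) (a : Word) (x : Lit), Down U k a x → (∀ t ∈ a, t ∈ U) →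
    (a ++ [x]).Nodup →
    ∃ σ, sb σ a = Pk k ∧ sbl σ x = [lk k] ∧ ∀ t ∈ U, t ∉ a → t ≠ x → sbl σ t = []
  | 0, a, x, h, h1, h2 => by
    have e : ∀ t ∈ U, t ≠ x → sbl (upd (fun _ => []) x [lk 0]) t = [] := fun t ht hx => by
      rw [sbl_upd_ne _ _ hx (fun h' => h (h' ▸ ht))]
      simp [sbl]
    exact ⟨upd (fun _ => []) x [lk 0], sb_eq_nil fun t ht => e t (h1 t ht) (by grind),
      sbl_upd _ _ _, fun t ht _ hx => e t ht hx⟩
  | k + 1, _, x, ⟨a1, a2, a3, u, rfl, h⟩, h1, h2 => by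
    obtain ⟨σ, e1, e2, e3⟩ := deflate U k a1 u h (by grind) (by grind)
    have e : ∀ t ∈ U, t ∉ a1 → t ≠ u → t ≠ x → t ≠ co x → sbl (upd σ x [lk (k + 1)]) t = [] :=
      fun t ht n1 n2 n3 n4 => by rw [sbl_upd_ne _ _ n3 n4, e3 t ht n1 n2]
    refine ⟨upd σ x [lk (k + 1)], ?_, sbl_upd _ _ _, fun t ht n1 n2 =>
      e t ht (by grind) (by grind) n2 (by grind)⟩
    have s2 : sb (upd σ x [lk (k + 1)]) a2 = [] :=
      sb_eq_nil fun t ht => e t (by grind) (by grind) (by grind) (by grind) (by grind)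
    have s3 : sb (upd σ x [lk (k + 1)]) a3 = [] :=
      sb_eq_nil fun t ht => e t (by grind) (by grind) (by grind) (by grind) (by grind)
    rw [sb_append, sb_cons, sb_append, sb_cons, s2, s3, sb_upd _ _ (by grind) (by grind), e1,
      sbl_co, sbl_upd, sbl_upd_ne _ _ (by grind) (by grind), e2]
    simp [Pk, lk, co]

end Pool.Agent.Lib.IZ64
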