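import Mathlib
import Pool.Agent.Lib.IZ64.Down

namespace Pool.Agent.Lib.IZ64

variable {R R1 R2 : Word → Word → Prop}

theorem WT.sw_sub (W : WT R) (σ : ℕ → Word) {a X Y b : Word} (h : Sw R a X Y b) :
    Sw R (sb σ a) (sb σ X) (sb σ Y) (sb σ b) := by
  simpa [Sw] using W.sub σ h

theorem WT.sw_right (W : WT R) {a X Y b q : Word} (h : Sw R a X Y b) (hq : ∀ x ∈ b, x ∈ q) :
    Sw R a X Y q := by
  have e := W.right q h
  have e1 := W.absorb (a ++ (X ++ Y)) b q hq
  have e2 := W.absorb (a ++ (Y ++ X)) b q hq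
  simp only [List.append_assoc] at e e1 e2
  exact W.trans (W.symm e1) (W.trans e e2)

theorem WT.sw_lit (W : WT R) (σ : ℕ → Word) {a b a' q : Word} {l m l' m' : Lit}
    (h : Sw R a [l] [m] b) (h1 : sb σ a = a') (h2 : sbl σ l = [l']) (h3 : sbl σ m = [m'])
    (h4 : ∀ t ∈ b, ∀ x ∈ sbl σ t, x ∈ q) : Sw R a' [l'] [m'] q := by
  have e := W.sw_sub σ h
  simp only [sb_cons, sb_nil, List.append_nil, h1, h2, h3] at e
  exact W.sw_right e fun x hx => by
    obtain ⟨t, ht, hx⟩ := mem_sb.1 hx
    exact h4 t ht x hx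

structure Imp (R1 R2 : Word → Word → Prop) : Prop where
  T : pT R1 → pT R2
  P : pP R1 → pP R2
  E : pE R1 → pE R2
  E1 : pE1 R1 → pE1 R2
  F : pF R1 → pF R2
  G : pG R1 → pG R2
  Phi : ∀ k, pPhi k R1 → pPhi k R2
  A : ∀ k, pA k R1 → pA k R2
  B : ∀ k, pB k R1 → pB k R2

structure Ctx (U a : Word) (l m : Lit) (b : Word) : Prop where
  mem : ∀ t, t ∈ U ↔ t ∈ a ∨ t = l ∨ t = m ∨ t ∈ b
  nd : (a ++ l :: m :: b).Nodup

theorem Ctx.swap {U a b : Word} {l m : Lit} (C : Ctx U a l m b) : Ctx U a m l b :=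
  ⟨fun t => by rw [C.mem]; tauto,
    (List.Perm.append_left a (List.Perm.swap l m b)).symm.nodup_iff.1 C.nd⟩

/-- The substitution keeping only the variables of `l` and `m`. -/
def two (l m : Lit) : ℕ → Word := upd (upd (fun _ => []) m [(1, true)]) l [(0, true)]

theorem two_l (l m : Lit) : sbl (two l m) l = [(0, true)] := sbl_upd _ _ _
theorem two_m {l m : Lit} (h1 : m ≠ l) (h2 : m ≠ co l) : sbl (two l m) m = [(1, true)] := by
  rw [two, sbl_upd_ne _ _ h1 h2, sbl_upd]
theorem two_cl (l m : Lit) : sbl (two l m) (co l) = [(0, false)] := by rw [sbl_co, two_l]; rfl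
theorem two_cm {l m : Lit} (h1 : m ≠ l) (h2 : m ≠ co l) : sbl (two l m) (co m) = [(1, false)] := by
  rw [sbl_co, two_m h1 h2]; rfl
theorem two_o {l m t : Lit} (h1 : t ≠ l) (h2 : t ≠ co l) (h3 : t ≠ m) (h4 : t ≠ co m) :
    sbl (two l m) t = [] := by
  rw [two, sbl_upd_ne _ _ h1 h2, sbl_upd_ne _ _ h3 h4]
  simp [sbl]

variable {U a b : Word} {l m : Lit}

theorem tr_E1 (W : WT R) (C : Ctx U a l (co l) b) (h : Sw R a [l] [co l] b) : pE1 R := by
  have nd := C.nd
  have e : ∀ t, t ∈ a ∨ t ∈ b → sbl (two l l) t = [] := fun t ht =>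
    two_o (by grind) (by grind) (by grind) (by grind)
  exact W.e1_of (W.sw_lit (two l l) h (sb_eq_nil fun t ht => e t (Or.inl ht)) (two_l _ _)
    (two_cl _ _) fun t ht x hx => by simp [e t (Or.inr ht)] at hx)

theorem tr_E (W : WT R) (C : Ctx U a l m b) (h : Sw R a [l] [m] b) (h1 : co l ∈ b)
    (h2 : co m ∈ b) : pE R := by
  have nd := C.nd
  have n1 : m ≠ l := by grind
  have n2 : m ≠ co l := by grind
  refine W.e_of (W.sw_lit (two l m) h (sb_eq_nil fun t ht =>
    two_o (by grind) (by grind) (by grind) (by grind)) (two_l _ _) (two_m n1 n2)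
    fun t ht x hx => ?_)
  by_cases e1 : t = co l
  · rw [e1, two_cl] at hx; grind
  by_cases e2 : t = co m
  · rw [e2, two_cm n1 n2] at hx; grind
  rw [two_o (by grind) e1 (by grind) e2] at hx
  simp at hx

theorem tr_F (W : WT R) (C : Ctx U a l m b) (h : Sw R a [l] [m] b) (h1 : co l ∈ a)
    (h2 : co m ∈ b) : pF R := by
  have nd := C.nd
  have n1 : m ≠ l := by grind
  have n2 : m ≠ co l := by grind
  obtain ⟨a1, a2, rfl⟩ := List.append_of_mem h1
  refine W.f_of (W.sw_lit (two l m) h ?_ (two_l _ _) (two_m n1 n2) fun t ht x hx => ?_)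
  · rw [sb_append, sb_cons, two_cl, sb_eq_nil fun t ht =>
      two_o (by grind) (by grind) (by grind) (by grind), sb_eq_nil fun t ht =>
      two_o (by grind) (by grind) (by grind) (by grind)]
    rfl
  by_cases e2 : t = co m
  · rw [e2, two_cm n1 n2] at hx; grind
  rw [two_o (by grind) (by grind) (by grind) e2] at hx
  simp at hx

theorem tr_G (W : WT R) {a1 a2 : Word} (C : Ctx U (a1 ++ co l :: a2) l m b)
    (h : Sw R (a1 ++ co l :: a2) [l] [m] b) (h2 : co m ∈ a2) : pG R := by
  have nd := C.nd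
  have n1 : m ≠ l := by grind
  have n2 : m ≠ co l := by grind
  obtain ⟨a2, a3, rfl⟩ := List.append_of_mem h2
  refine W.g_of (W.sw_lit (two l m) h ?_ (two_l _ _) (two_m n1 n2) fun t ht x hx => ?_)
  · rw [sb_append, sb_cons, sb_append, sb_cons, two_cl, two_cm n1 n2, sb_eq_nil fun t ht =>
      two_o (by grind) (by grind) (by grind) (by grind), sb_eq_nil fun t ht =>
      two_o (by grind) (by grind) (by grind) (by grind), sb_eq_nil fun t ht =>
      two_o (by grind) (by grind) (by grind) (by grind)]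
    rfl
  rw [two_o (by grind) (by grind) (by grind) (by grind)] at hx
  simp at hx

theorem tr_A0 (W : WT R) (C : Ctx U a l m b) (h : Sw R a [l] [m] b) (h1 : co l ∉ U)
    (h2 : co m ∉ U) : pA 0 R := by
  have nd := C.nd
  have me := C.mem
  have n1 : m ≠ l := by grind
  have n2 : m ≠ co l := by grind
  refine W.a0_of (W.sw_lit (two l m) h (sb_eq_nil fun t ht =>
    two_o (by grind) (by grind) (by grind) (by grind)) (two_l _ _) (two_m n1 n2)
    fun t ht x hx => ?_)
  rw [two_o (by grind) (by grind) (by grind) (by grind)] at hx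
  simp at hx

theorem tr_Phi (W : WT R) (C : Ctx U a l m b) (h : Sw R a [l] [m] b) {k : ℕ} (hd : Down U k a l)
    (h2 : co m ∈ b) : pPhi k R := by
  have nd := C.nd
  have me := C.mem
  obtain ⟨σ, e1, e2, e3⟩ := deflate U k a l hd (by grind) (by grind)
  refine W.phi_of k (W.sw_lit (upd σ m [(k + 1, true)]) h ?_ ?_ (sbl_upd _ _ _) fun t ht x hx => ?_)
  · rw [sb_upd _ _ (by grind) (by grind), e1]
  · rw [sbl_upd_ne _ _ (by grind) (by grind), e2]
  by_cases e : t = co m
  · rw [e, sbl_co, sbl_upd] at hx; exact hx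
  rw [sbl_upd_ne _ _ (by grind) e, e3 t (by grind) (by grind) (by grind)] at hx
  simp at hx

theorem tr_B (W : WT R) {a1 a2 : Word} (C : Ctx U (a1 ++ co m :: a2) l m b)
    (h : Sw R (a1 ++ co m :: a2) [l] [m] b) {k : ℕ} (hd : Down U k a1 l) : pB k R := by
  have nd := C.nd
  have me := C.mem
  obtain ⟨σ, e1, e2, e3⟩ := deflate U k a1 l hd (by grind) (by grind)
  have e : ∀ t, t ∈ a2 ∨ t ∈ b → sbl (upd σ m [(k + 1, false)]) t = [] := fun t ht => by
    rw [sbl_upd_ne _ _ (by grind) (by grind), e3 t (by grind) (by grind) (by grind)]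
  refine W.b_of k (W.sw_lit (upd σ m [(k + 1, false)]) h ?_ ?_ (sbl_upd _ _ _) fun t ht x hx => ?_)
  · rw [sb_append, sb_cons, sb_upd _ _ (by grind) (by grind), e1, sbl_co, sbl_upd,
      sb_eq_nil fun t ht => e t (Or.inl ht)]
    rfl
  · rw [sbl_upd_ne _ _ (by grind) (by grind), e2]
  · rw [e t (Or.inr ht)] at hx
    exact hx

theorem tr_A (W : WT R) {a0 a1 a2 a3 : Word} {u : Lit}
    (C : Ctx U ((a0 ++ co l :: a1) ++ co m :: (a2 ++ u :: a3)) l m b)
    (h : Sw R ((a0 ++ co l :: a1) ++ co m :: (a2 ++ u :: a3)) [l] [m] b) {k : ℕ}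
    (hd : Down U k (a0 ++ co l :: a1) u)
    (hm : ∀ i < k + 1, ¬ Down U i ((a0 ++ co l :: a1) ++ co m :: (a2 ++ u :: a3)) l) :
    pA (k + 1) R := by
  have nd := C.nd
  have me := C.mem
  rcases hd.cut with hd' | ⟨v, hv, i, hi, hd'⟩
  swap
  · rcases List.mem_cons.1 hv with rfl | hv
    · exact absurd hd' (Down.not_co (by grind) (by grind))
    · obtain ⟨p, q, rfl⟩ := List.append_of_mem hv
      exact absurd ⟨a0, p, q ++ co m :: (a2 ++ u :: a3), v, by simp, hd'⟩ (hm (i + 1) (by omega))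
  have nd2 : (a0 ++ [u]).Nodup := nd.sublist (by simp)
  simp only [List.nodup_append, List.nodup_cons, List.mem_append, List.mem_cons] at nd me
  clear C hm hd
  obtain ⟨σ, e1, e2, e3⟩ := deflate U k a0 u hd' (by grind) nd2
  have e : ∀ t, t ∈ a1 ∨ t ∈ a2 ∨ t ∈ a3 ∨ t ∈ b →
      sbl (upd (upd σ m [(k + 2, false)]) l [(k + 1, false)]) t = [] := fun t ht => by
    rw [sbl_upd_ne _ _ (by grind) (by grind), sbl_upd_ne _ _ (by grind) (by grind),
      e3 t (by grind) (by grind) (by grind)]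
  have em : sbl (upd (upd σ m [(k + 2, false)]) l [(k + 1, false)]) m = [(k + 2, false)] := by
    rw [sbl_upd_ne _ _ (by grind) (by grind), sbl_upd]
  refine W.a_of k (W.sw_lit (upd (upd σ m [(k + 2, false)]) l [(k + 1, false)]) h ?_
    (sbl_upd _ _ _) em fun t ht x hx => ?_)
  · rw [sb_append, sb_append, sb_cons, sb_cons, sb_append, sb_cons, sbl_co, sbl_co, sbl_upd, em,
      sb_upd _ _ (by grind) (by grind), sb_upd _ _ (by grind) (by grind), e1,
      sbl_upd_ne _ _ (by grind) (by grind), sbl_upd_ne _ _ (by grind) (by grind), e2,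
      sb_eq_nil (u := a1) fun t ht => e t (by grind), sb_eq_nil (u := a2) fun t ht => e t (by grind),
      sb_eq_nil (u := a3) fun t ht => e t (by grind)]
    simp [co]
  · rw [e t (by grind)] at hx
    exact hx

theorem case_F (W1 : WT R1) (W2 : WT R2) (I : Imp R1 R2) (C : Ctx U a l m b)
    (h : Sw R1 a [l] [m] b) (h0 : m ≠ co l) (h1 : co l ∉ b) (h2 : co m ∈ b) :
    Sw R2 a [l] [m] b := by
  classical
  have nd := C.nd
  have me := C.mem
  by_cases hd : ∃ k, Down U k a l
  · refine I.Phi _ (tr_Phi W1 C h (Nat.find_spec hd) h2) a [l] [m] b ?_ (by simpa using h2)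
    exact dichotomy U _ a [l] _ (by grind) (by grind) (by grind) (by grind)
      (fun x hx i hi => by rw [List.mem_singleton.1 hx]; exact Nat.find_min hd hi)
  · push Not at hd
    have h3 : co l ∈ U := not_not.1 (hd 0)
    have h4 := co_ne l
    have p := I.F (tr_F W1 C h (by grind) h2)
    obtain ⟨a1, c, rfl, hc⟩ := closedness U _ a [l] (m :: b) le_rfl (by grind) (by grind)
      (by grind) (by grind) (fun x hx i => by rw [List.mem_singleton.1 hx]; exact hd i)
    exact W2.sw_two (p _ _ _ _ (by grind) (by grind)) (p _ _ _ _ (by grind) (by grind))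

theorem case_G1 (W1 : WT R1) (W2 : WT R2) (I : Imp R1 R2) (C : Ctx U a l m b)
    (h : Sw R1 a [l] [m] b) (h0 : m ≠ co l) (h2 : co m ∉ b) {k : ℕ} (hd : Down U k a l)
    (hl : ∀ i < k, ¬ Down U i a l) (hm : ∀ i < k, ¬ Down U i a m) : Sw R2 a [l] [m] b := by
  have nd := C.nd
  have me := C.mem
  by_cases hd2 : Down U k a m
  · have up : Up k a ([l] ++ [m]) b := dichotomy U _ a _ _ (by grind) (by grind) (by grind)
      (by grind) (by grind)
    refine I.A k ?_ a [l] [m] b up
    cases k with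
    | zero => exact tr_A0 W1 C h hd hd2
    | succ k =>
      obtain ⟨c1, c2, c3, u, hc, hu⟩ := hd
      obtain ⟨a1, a2, a3, v, ha, hv⟩ := hd2
      have ne : co l ≠ co m := fun e => by have := co_inj e; grind
      by_cases e : co l ∈ a1
      · obtain ⟨p, q, rfl⟩ := List.append_of_mem e
        subst ha
        exact tr_A W1 C h hv hl
      · have e2 : co m ∈ c1 := by
          rcases List.append_eq_append_iff.1 (hc.symm.trans ha) with ⟨d, h3, h4⟩ | ⟨d, h3, h4⟩
          · cases d <;> grind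
          · cases d <;> grind
        obtain ⟨p, q, rfl⟩ := List.append_of_mem e2
        subst hc
        exact tr_A W1 C.swap (W1.sw_symm h) hu hm
  · have hm' : ∀ i < k + 1, ¬ Down U i a m := fun i hi => by
      rcases Nat.lt_succ_iff_lt_or_eq.1 hi with h | rfl
      exacts [hm i h, hd2]
    have h3 : co m ∈ U := not_not.1 (hm' 0 (Nat.succ_pos k))
    have h4 := co_ne m
    have h5 : co m ≠ l := fun e => h0 (by rw [← e, co_co])
    obtain ⟨a1, a2, rfl⟩ := List.append_of_mem (show co m ∈ a by grind)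
    have key : ∀ u ∈ a2, ∀ i < k, ¬ Down U i a1 u := fun u hu i hi hd3 => by
      obtain ⟨p, q, rfl⟩ := List.append_of_mem hu
      exact hm' (i + 1) (by omega) ⟨a1, p, q, u, rfl, hd3⟩
    have hd1 : Down U k a1 l := by
      rcases hd.cut with hd | ⟨v, hv, i, hi, hd⟩
      · exact hd
      · rcases List.mem_cons.1 hv with rfl | hv
        · exact absurd hd (Down.not_co (by grind) (by grind))
        · exact absurd hd (key v hv i hi)
    have p := I.B k (tr_B W1 C h hd1)
    have up : Up k a1 (a2 ++ [l]) (ng [m] ++ ([m] ++ b)) :=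
      dichotomy U _ a1 _ _ (by simp only [ng_cons, ng_nil]; grind) (by grind) (by grind) (by grind)
        fun x hx i hi hd => by
          rcases List.mem_append.1 hx with hx | hx
          · exact key x hx i hi hd
          · rw [List.mem_singleton.1 hx] at hd
            exact hl i hi (hd.app _)
    have := W2.sw_two (p _ _ _ _ up) (p a1 a2 [m] ([l] ++ b) (up.mono (by grind) (by grind)))
    simpa using this

theorem swap_transfer (W1 : WT R1) (W2 : WT R2) (I : Imp R1 R2)
    (nd : (a ++ l :: m :: b).Nodup) (h : Sw R1 a [l] [m] b) : Sw R2 a [l] [m] b := by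
  classical
  have C : Ctx (a ++ l :: m :: b) a l m b := ⟨by simp, nd⟩
  generalize a ++ l :: m :: b = U at C
  have nd := C.nd
  have me := C.mem
  by_cases h0 : m = co l
  · subst h0
    exact I.E1 (tr_E1 W1 C h) a [l] b
  have h0' : l ≠ co m := fun e => h0 (by rw [e, co_co])
  by_cases h1 : co l ∈ b <;> by_cases h2 : co m ∈ b
  · exact I.E (tr_E W1 C h h1 h2) _ _ _ _ (by simpa using h1) (by simpa using h2)
  · exact W2.sw_symm (case_F W1 W2 I C.swap (W1.sw_symm h) h0' h2 h1)
  · exact case_F W1 W2 I C h h0 h1 h2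
  by_cases hd : ∃ k, Down U k a l ∨ Down U k a m
  · have hl : ∀ i < Nat.find hd, ¬ Down U i a l := fun i hi e => Nat.find_min hd hi (Or.inl e)
    have hm : ∀ i < Nat.find hd, ¬ Down U i a m := fun i hi e => Nat.find_min hd hi (Or.inr e)
    rcases Nat.find_spec hd with e | e
    · exact case_G1 W1 W2 I C h h0 h2 e hl hm
    · exact W2.sw_symm (case_G1 W1 W2 I C.swap (W1.sw_symm h) h0' h1 e hm hl)
  · push Not at hd
    have h3 : co l ∈ U := not_not.1 (hd 0).1
    have h4 : co m ∈ U := not_not.1 (hd 0).2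
    have h5 := co_ne l
    have h6 := co_ne m
    have ne : co l ≠ co m := fun e => by have := co_inj e; grind
    have p : pG R2 := I.G (by
      obtain ⟨a1, a2, rfl⟩ := List.append_of_mem (show co l ∈ a by grind)
      by_cases e : co m ∈ a2
      · exact tr_G W1 C h e
      · obtain ⟨p, q, rfl⟩ := List.append_of_mem (show co m ∈ a1 by grind)
        have C' := C.swap
        have h' := W1.sw_symm h
        rw [List.append_assoc, List.cons_append] at C' h'
        exact tr_G W1 C' h' (by simp))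
    obtain ⟨a1, c, rfl, hc⟩ := closedness U _ a [l, m] b le_rfl (by grind) (by grind)
      (by grind) (by grind) (by grind)
    exact W2.sw_two (p _ _ _ _ (by grind)) (p _ _ _ _ (by grind))

end Pool.Agent.Lib.IZ64
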