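import Mathlib
import Pool.Agent.Lib.IZ64.Trans

namespace Pool.Agent.Lib.IZ64

variable {R R1 R2 : Word → Word → Prop}

theorem WT.dedup (W : WT R) : ∀ u : Word, R u u.dedup
  | [] => W.refl _
  | x :: u => by
    by_cases h : x ∈ u
    · rw [List.dedup_cons_of_mem h]
      exact W.trans (W.absorb [] [x] u (by simpa using h)) (W.dedup u)
    · rw [List.dedup_cons_of_notMem h]
      exact W.left [x] (W.dedup u)

theorem move (W1 : WT R1) (W2 : WT R2) (I : Imp R1 R2) (l : Lit) (s : Word) :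
    ∀ v2 v1 : Word, (v1 ++ l :: (v2 ++ s)).Nodup →
      R1 (v1 ++ l :: (v2 ++ s)) (v1 ++ (v2 ++ l :: s)) →
      R2 (v1 ++ l :: (v2 ++ s)) (v1 ++ (v2 ++ l :: s))
  | [], v1, _, _ => W2.refl _
  | n :: v2, v1, nd, h => by
    have e := W1.right (v2 ++ s) h
    have e1 := W1.absorb (v1 ++ [l, n]) (v2 ++ s) (v2 ++ s) (fun _ hx => hx)
    have e2 := W1.absorb (v1 ++ [n]) v2 (l :: (s ++ (v2 ++ s))) (by grind)
    have e3 := W1.absorb (v1 ++ [n, l]) s (v2 ++ s) (by grind)
    simp only [List.append_assoc, List.cons_append, List.nil_append] at e e1 e2 e3 h nd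
    have t1 : Sw R1 v1 [l] [n] (v2 ++ s) := W1.trans (W1.symm e1) (W1.trans e (W1.trans e2 e3))
    have t2 := swap_transfer W1 W2 I nd t1
    have nd2 : ((v1 ++ [n]) ++ l :: (v2 ++ s)).Nodup := by
      rw [List.append_assoc]
      exact (List.Perm.append_left v1 (List.Perm.swap l n _)).symm.nodup_iff.1 nd
    have t3 := move W1 W2 I l s v2 (v1 ++ [n]) nd2 (by
      simp only [List.append_assoc, List.cons_append, List.nil_append]
      exact W1.trans (W1.symm t1) h)
    simp only [List.append_assoc, List.cons_append, List.nil_append] at t3 ⊢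
    exact W2.trans t2 t3

theorem perm_transfer (W1 : WT R1) (W2 : WT R2) (I : Imp R1 R2) (u : Word) :
    ∀ v s : Word, (u ++ s).Nodup → u.Perm v → R1 (u ++ s) (v ++ s) → R2 (u ++ s) (v ++ s) := by
  induction u using List.reverseRecOn with
  | nil => intro v s _ hp _; rw [← hp.nil_eq]; exact W2.refl _
  | append_singleton u l ih =>
    intro v s nd hp h
    obtain ⟨v1, v2, rfl⟩ := List.append_of_mem (hp.subset (show l ∈ u ++ [l] by simp))
    have hp2 : u.Perm (v1 ++ v2) :=
      ((List.perm_append_singleton l u).symm.trans (hp.trans List.perm_middle)).cons_inv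
    have e := W1.right (l :: s) h
    have e1 := W1.absorb u (l :: s) (l :: s) (fun _ hx => hx)
    have e2 := W1.absorb v1 [l] (v2 ++ (s ++ l :: s)) (by grind)
    have e3 := W1.absorb (v1 ++ v2) s (l :: s) (by grind)
    have nd2 := (hp.append_right s).nodup_iff.1 nd
    simp only [List.append_assoc, List.cons_append, List.nil_append] at e e1 e2 e3 h nd nd2 ⊢
    have t1 := W1.trans (W1.symm e1) (W1.trans e (W1.trans e2 e3))
    have t2 := move W1 W2 I l s v2 v1 nd2 (W1.trans (W1.symm h) t1)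
    have t3 := ih (v1 ++ v2) (l :: s) nd hp2 (by simpa using t1)
    rw [List.append_assoc] at t3
    exact W2.trans t3 (W2.symm t2)

theorem same_content (W1 : WT R1) (W2 : WT R2) (I : Imp R1 R2) {u v : Word}
    (hc : ∀ t, t ∈ u ↔ t ∈ v) (h : R1 u v) : R2 u v := by
  have hp : u.dedup.Perm v.dedup :=
    (List.perm_ext_iff_of_nodup (List.nodup_dedup u) (List.nodup_dedup v)).2 (by simpa using hc)
  have := perm_transfer W1 W2 I u.dedup v.dedup [] (by simpa using List.nodup_dedup u) hp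
    (by simpa using W1.trans (W1.symm (W1.dedup u)) (W1.trans h (W1.dedup v)))
  simp only [List.append_nil] at this
  exact W2.trans (W2.dedup u) (W2.trans this (W2.symm (W2.dedup v)))

theorem WT.pT_of (W : WT R) {u v : Word} {t : Lit} (h : R u v) (h1 : t ∈ u) (h2 : t ∉ v)
    (h3 : co t ∉ v) : pT R := by
  have key : ∀ w, R w [] := fun w => by
    have e := W.sub (upd (fun _ => []) t w) h
    rw [sb_upd _ _ h2 h3, sb_eq_nil (u := v) (fun t _ => by simp [sbl])] at e
    have e1 := W.absorb [] w _ (fun x hx => mem_sb.2 ⟨t, h1, (sbl_upd (fun _ => []) t w).symm ▸ hx⟩)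
    have e2 := W.left w e
    simp only [List.nil_append, List.append_nil] at e1 e2
    exact W.trans (W.symm e2) (W.trans e1 e)
  exact fun u v => W.trans (key u) (W.symm (key v))

theorem WT.pP_of (W : WT R) {u v : Word} {t : Lit} (h : R u v) (h1 : t ∈ u) (h2 : t ∉ v) :
    pP R := by
  intro w
  have e := W.right w (W.sub (upd (fun _ => []) t (ng w)) h)
  have e0 := W.absorb [] (sb (upd (fun _ => []) t (ng w)) v) w (fun x hx => by
    obtain ⟨s, hs, hx⟩ := mem_sb.1 hx
    by_cases e : s = co t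
    · rwa [e, sbl_co, sbl_upd, ng_ng] at hx
    · rw [sbl_upd_ne _ _ (fun e' => h2 (by rwa [e'] at hs)) e] at hx
      simp [sbl] at hx)
  have e1 := W.absorb [] (ng w) (sb (upd (fun _ => []) t (ng w)) u ++ w) (fun x hx =>
    List.mem_append_left _ (mem_sb.2 ⟨t, h1, (sbl_upd (fun _ => []) t (ng w)).symm ▸ hx⟩))
  simp only [List.nil_append] at e0 e1
  have e2 := W.trans e e0
  exact W.symm (W.trans (W.symm (W.left (ng w) e2)) (W.trans e1 e2))

theorem transfer (W1 : WT R1) (W2 : WT R2) (I : Imp R1 R2) {u v : Word} (h : R1 u v) :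
    R2 u v := by
  by_cases hT : pT R1
  · exact I.T hT u v
  by_cases hP : pP R1
  · have p := I.P hP
    refine W2.trans (p u) (W2.trans (same_content W1 W2 I (fun t => ?_)
      (W1.trans (W1.symm (hP u)) (W1.trans h (hP v)))) (W2.symm (p v)))
    have k : ∀ {u v : Word}, R1 u v → t ∈ ng u ++ u → t ∈ ng v ++ v := fun {u v} h ht => by
      by_contra hn
      simp only [List.mem_append, mem_ng, not_or] at ht hn
      rcases ht with ht | ht
      · exact hT (W1.pT_of h ht hn.1 (by simpa using hn.2))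
      · exact hT (W1.pT_of h ht hn.2 hn.1)
    exact ⟨k h, k (W1.symm h)⟩
  · refine same_content W1 W2 I (fun t => ⟨fun ht => ?_, fun ht => ?_⟩) h <;> by_contra hn
    exacts [hP (W1.pP_of h ht hn), hP (W1.pP_of (W1.symm h) ht hn)]

/-! ### Implications between the principles -/

theorem WT.P_Phi (W : WT R) (h : pP R) : pPhi 0 R := by
  intro a X Y b _ hY
  have e1 := W.left (a ++ (X ++ Y)) (h b)
  have e2 := W.left (a ++ (Y ++ X)) (h b)
  have hb : ∀ y ∈ Y, y ∈ ng b := fun y hy => mem_ng.2 (hY y hy)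
  have e3 := W.absorb (a ++ X) Y (ng b ++ b) (by grind)
  have e4 := W.absorb a Y (X ++ (ng b ++ b)) (by grind)
  simp only [List.append_assoc] at e1 e2 e3
  exact W.trans e1 (W.trans e3 (W.symm (W.trans e2 e4)))

theorem Phi_succ {k : ℕ} (h : pPhi k R) : pPhi (k + 1) R :=
  fun a X Y b hu hY => h a X Y b hu.pred hY

theorem Phi_F {k : ℕ} (h : pPhi k R) : pF R :=
  fun a X Y b hX hY => h a X Y b (Up.closed k a (by grind)) hY

theorem F_E (h : pF R) : pE R := fun a X Y b hX hY => h a X Y b (by grind) hY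

theorem G_E1 (h : pG R) : pE1 R := fun a X b => h a X (ng X) b (fun x hx => by
  simp only [List.mem_append, mem_ng, co_co] at hx ⊢; tauto)

theorem WT.E1_F (W : WT R) (h : pE1 R) : pF R := by
  refine W.f_of ?_
  have e1 := h [] [(0, false)] [(1, true), (1, false)]
  have e2 := h [] [(0, true), (1, false)] [(1, false)]
  have e3 := W.absorb [(0, true)] [(1, false)] [(0, false), (1, true), (1, false)] (by simp)
  have e4 := W.absorb [(0, false), (1, true), (0, true)] [(1, false)] [(1, false)] (by simp)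
  exact W.trans e1 (W.trans (W.symm e3) (W.trans e2 e4))

theorem A_G {k : ℕ} (h : pA k R) : pG R := fun a X Y b hX => h a X Y b (Up.closed k a hX)

theorem WT.A_B (W : WT R) {k : ℕ} (h : pA k R) : pB k R := by
  intro a X Y b hu
  refine W.sw_two (h _ _ _ _ (hu.mono ?_ (by grind))) (h _ _ _ _ (hu.mono ?_ (by grind))) <;>
    (intro x hx; simp only [List.mem_append, mem_ng, co_co] at hx ⊢; tauto)

theorem WT.B_aux (W : WT R) {a X Y b : Word} (e : Sw R (a ++ ng Y) X Y b)
    (hY : ∀ y ∈ Y, co y ∈ X ∨ co y ∈ Y ∨ co y ∈ b) : Sw R a X Y b := by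
  have hb : ∀ x ∈ ng Y, x ∈ X ∨ x ∈ Y ∨ x ∈ b := fun x hx => by simpa using hY _ (mem_ng.1 hx)
  have e3 := W.absorb a (ng Y) (X ++ (Y ++ b)) (by grind)
  have e4 := W.absorb a (ng Y) (Y ++ (X ++ b)) (by grind)
  simp only [Sw, List.append_assoc] at e
  exact W.trans (W.symm e3) (W.trans e e4)

theorem WT.B_Phi (W : WT R) {k : ℕ} (h : pB k R) : pPhi k R := fun a X Y b hu hY =>
  W.B_aux (h a X Y b (hu.mono (by grind) (by grind))) (by grind)

theorem WT.B_G (W : WT R) {k : ℕ} (h : pB k R) : pG R := fun a X Y b hX =>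
  W.B_aux (h a X Y b (Up.closed k a (by grind))) (by grind)

theorem WT.PhiG_A (W : WT R) {k : ℕ} (h : pPhi k R) (g : pG R) : pA (k + 1) R := by
  refine W.a_of k ?_
  have e1 := h (Pk k) [lk k] [(k + 1, true), (k + 2, true)] [(k + 1, false), (k + 2, false)]
    (up_Pk k (by simp) (by simp)) (by simp [co])
  have e2 := h (Pk k) [lk k] [(k + 1, true), (k + 2, true)] [(k + 2, false), (k + 1, false)]
    (up_Pk k (by simp) (by simp)) (by simp [co])
  have e3 : Sw R ((Pk k ++ [lk k]) ++ [(k + 1, true), (k + 2, true)]) [(k + 1, false)]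
      [(k + 2, false)] [] :=
    W.sw_two (g _ _ _ _ (by simp [co])) (g _ _ _ _ (by simp [co]))
  simp only [Sw, List.append_assoc, List.cons_append, List.nil_append] at e1 e2 e3 ⊢
  exact W.trans (W.symm e1) (W.trans e3 e2)

theorem WT.PG_A (W : WT R) (h : pP R) (g : pG R) : pA 0 R := by
  refine W.a0_of ?_
  have e1 := h [(0, true), (1, true)]
  have e2 := h [(1, true), (0, true)]
  have e3 : Sw R ([] ++ [(0, false), (1, false)]) [(0, true)] [(1, true)] [] :=
    W.sw_two (g _ _ _ _ (by simp [co])) (g _ _ _ _ (by simp [co]))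
  have e4 := F_E (W.E1_F (G_E1 g)) [] [(0, false)] [(1, false)] [(1, true), (0, true)]
    (by simp [co]) (by simp [co])
  exact W.trans e1 (W.trans e3 (W.trans e4 (W.symm e2)))

/-- The finite levels. -/
def lev : ℕ → (Word → Word → Prop) → Prop
  | 0, R => pT R
  | 1, R => pP R
  | c + 2, R => if c % 3 = 0 then pA (c / 3) R else if c % 3 = 1 then pB (c / 3) R
      else pPhi (c / 3) R

theorem lev_A (k : ℕ) : lev (3 * k + 2) R ↔ pA k R := by
  simp [lev]
theorem lev_B (k : ℕ) : lev (3 * k + 3) R ↔ pB k R := by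
  have h1 : (3 * k + 1) % 3 = 1 := by omega
  have h2 : (3 * k + 1) / 3 = k := by omega
  rw [show 3 * k + 3 = (3 * k + 1) + 2 from rfl, lev, h1, h2]; simp
theorem lev_Phi (k : ℕ) : lev (3 * k + 4) R ↔ pPhi k R := by
  have h1 : (3 * k + 2) % 3 = 2 := by omega
  have h2 : (3 * k + 2) / 3 = k := by omega
  rw [show 3 * k + 4 = (3 * k + 2) + 2 from rfl, lev, h1, h2]; simp

theorem lev_cases (c : ℕ) :
    c = 0 ∨ c = 1 ∨ ∃ k, c = 3 * k + 2 ∨ c = 3 * k + 3 ∨ c = 3 * k + 4 := by
  by_cases h : c < 2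
  · omega
  · exact Or.inr (Or.inr ⟨(c - 2) / 3, by omega⟩)

theorem WT.lev_G (W : WT R) {c : ℕ} (h : lev c R) (hc : c % 3 ≠ 1) : pG R := by
  rcases lev_cases c with rfl | rfl | ⟨k, rfl | rfl | rfl⟩
  · exact fun _ _ _ _ _ => h _ _
  · omega
  · exact A_G ((lev_A k).1 h)
  · exact W.B_G ((lev_B k).1 h)
  · omega

theorem WT.lev_succ (W : WT R) {c : ℕ} (h : lev c R) (hc : c % 3 = 1 → pG R) : lev (c + 1) R := by
  rcases lev_cases c with rfl | rfl | ⟨k, rfl | rfl | rfl⟩
  · exact fun _ => h _ _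
  · exact (lev_A 0).2 (W.PG_A h (hc rfl))
  · exact (lev_B k).2 (W.A_B ((lev_A k).1 h))
  · exact (lev_Phi k).2 (W.B_Phi ((lev_B k).1 h))
  · exact (lev_A (k + 1)).2 (W.PhiG_A ((lev_Phi k).1 h) (hc (by omega)))

theorem WT.lev_le_G (W : WT R) (g : pG R) {c d : ℕ} (h : lev c R) (hc : c ≤ d) : lev d R := by
  induction hc with
  | refl => exact h
  | step _ ih => exact W.lev_succ ih fun _ => g

theorem WT.lev_three (W : WT R) {c : ℕ} (h : lev c R) (hc : c % 3 = 1) : lev (c + 3) R := by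
  rcases lev_cases c with rfl | rfl | ⟨k, rfl | rfl | rfl⟩
  · omega
  · exact (lev_Phi 0).2 (W.P_Phi h)
  · omega
  · omega
  · exact (lev_Phi (k + 1)).2 (Phi_succ ((lev_Phi k).1 h))

theorem WT.lev_le (W : WT R) {c d : ℕ} (h : lev c R) (hc : c ≤ d) (hd : d % 3 = 1) : lev d R := by
  by_cases h1 : c % 3 = 1
  · obtain ⟨n, rfl⟩ : ∃ n, d = c + 3 * n := ⟨(d - c) / 3, by omega⟩
    clear hc hd
    induction n with
    | zero => exact h
    | succ n ih => exact W.lev_three (c := c + 3 * n) ih (by omega)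
  · exact W.lev_le_G (W.lev_G h h1) h hc

theorem WT.lev_F (W : WT R) {c : ℕ} (h : lev c R) : pF R :=
  Phi_F ((lev_Phi c).1 (W.lev_le h (by omega) (by omega)))

end Pool.Agent.Lib.IZ64
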