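import Mathlib
import Pool.Agent.Lib.IZ64.Chain

namespace Pool.Agent.Lib.IZ64

def Step (S : Word → Word → Word → Word → Prop) (u v : Word) : Prop :=
  (∃ a X Y b, S a X Y b ∧ u = a ++ (X ++ (Y ++ b)) ∧ v = a ++ (Y ++ (X ++ b))) ∨
  ∃ p x y q, u = p ++ (x ++ (y ++ (x ++ q))) ∧ v = p ++ (y ++ (x ++ q))

def Gen (S : Word → Word → Word → Word → Prop) : Word → Word → Prop := Relation.EqvGen (Step S)

structure Cl (S : Word → Word → Word → Word → Prop) : Prop where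
  left : ∀ p {a X Y b}, S a X Y b → S (p ++ a) X Y b
  right : ∀ q {a X Y b}, S a X Y b → S a X Y (b ++ q)
  sub : ∀ σ {a X Y b}, S a X Y b → S (sb σ a) (sb σ X) (sb σ Y) (sb σ b)

variable {S : Word → Word → Word → Word → Prop}

theorem Gen.map (f : Word → Word) (hf : ∀ u v, Step S u v → Step S (f u) (f v)) {u v : Word}
    (h : Gen S u v) : Gen S (f u) (f v) := by
  induction h with
  | rel u v h => exact .rel _ _ (hf u v h)
  | refl u => exact .refl _
  | symm u v _ ih => exact .symm _ _ ih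
  | trans u v w _ _ ih1 ih2 => exact .trans _ _ _ ih1 ih2

theorem Cl.wt (C : Cl S) : WT (Gen S) where
  refl := fun _ => .refl _
  symm := fun h => .symm _ _ h
  trans := fun h1 h2 => .trans _ _ _ h1 h2
  left := fun p _ _ h => Gen.map (fun u => p ++ u) (by
    rintro _ _ (⟨a, X, Y, b, h, rfl, rfl⟩ | ⟨a, x, y, q, rfl, rfl⟩)
    · exact Or.inl ⟨p ++ a, X, Y, b, C.left p h, by simp, by simp⟩
    · exact Or.inr ⟨p ++ a, x, y, q, by simp, by simp⟩) h
  right := fun p _ _ h => Gen.map (fun u => u ++ p) (by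
    rintro _ _ (⟨a, X, Y, b, h, rfl, rfl⟩ | ⟨a, x, y, q, rfl, rfl⟩)
    · exact Or.inl ⟨a, X, Y, b ++ p, C.right p h, by simp, by simp⟩
    · exact Or.inr ⟨a, x, y, q ++ p, by simp, by simp⟩) h
  sub := fun σ _ _ h => Gen.map (sb σ) (by
    rintro _ _ (⟨a, X, Y, b, h, rfl, rfl⟩ | ⟨a, x, y, q, rfl, rfl⟩)
    · exact Or.inl ⟨_, _, _, _, C.sub σ h, by simp, by simp⟩
    · exact Or.inr ⟨sb σ a, sb σ x, sb σ y, sb σ q, by simp, by simp⟩) h
  rrb := fun u v => .rel _ _ (Or.inr ⟨[], u, v, [], by simp, by simp⟩)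

theorem Gen.sw {a X Y b : Word} (h : S a X Y b) : Sw (Gen S) a X Y b :=
  .rel _ _ (Or.inl ⟨a, X, Y, b, h, rfl, rfl⟩)

/-- `t` occurs after the last occurrence of `s`. -/
def Af : Word → Lit → Lit → Prop
  | [], _, _ => False
  | x :: v, s, t => Af v s t ∨ (x = t ∧ s ≠ x ∧ s ∉ v)

theorem af_append {s t : Lit} (v : Word) : ∀ u : Word,
    Af (u ++ v) s t ↔ Af v s t ∨ (s ∉ v ∧ Af u s t)
  | [] => by simp [Af]
  | x :: u => by
    simp only [List.cons_append, Af, af_append v u, List.mem_append]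
    tauto

theorem Af.mem {s t : Lit} : ∀ {u : Word}, Af u s t → t ∈ u
  | _ :: _, Or.inl h => List.mem_cons_of_mem _ h.mem
  | _ :: _, Or.inr h => h.1 ▸ List.mem_cons_self

theorem af_of {s t : Lit} : ∀ {u : Word}, t ∈ u → s ∉ u → Af u s t
  | x :: u, h1, h2 => by
    rcases List.mem_cons.1 h1 with rfl | h1
    · exact Or.inr ⟨rfl, by grind, by grind⟩
    · exact Or.inl (af_of h1 (by grind))

theorem Af.suffix {s t : Lit} {a r : Word} (h : Af (a ++ r) s t) (hs : s ∈ r) : t ∈ r := by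
  rcases (af_append r a).1 h with h | h
  exacts [h.mem, absurd hs h.1]

theorem Af.swap {s t : Lit} {a X Y b : Word} (h : Af (a ++ (X ++ (Y ++ b))) s t) :
    Af (a ++ (Y ++ (X ++ b))) s t ∨ (s ∈ X ∧ t ∈ Y ∧ s ∉ b ∧ t ∉ b) := by
  have h1 := @Af.mem s t Y
  have h2 := @af_of s t b
  simp only [af_append, List.mem_append] at h ⊢
  tauto

structure Same (u v : Word) : Prop where
  af : ∀ s t, Af u s t ↔ Af v s t
  mem : ∀ t, t ∈ u ↔ t ∈ v

theorem same_rrb (p x y q : Word) : Same (p ++ (x ++ (y ++ (x ++ q)))) (p ++ (y ++ (x ++ q))) := by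
  refine ⟨fun s t => ?_, fun t => by simp only [List.mem_append]; tauto⟩
  simp only [af_append, List.mem_append]
  tauto

theorem Gen.inv (I : Word → Prop) (h1 : ∀ u v, Same u v → I u → I v)
    (h2 : ∀ a X Y b, S a X Y b ∨ S a Y X b → I (a ++ (X ++ (Y ++ b))) → I (a ++ (Y ++ (X ++ b))))
    {u v : Word} (h : Gen S u v) : I u ↔ I v := by
  induction h with
  | rel u v h =>
    rcases h with ⟨a, X, Y, b, h, rfl, rfl⟩ | ⟨a, x, y, q, rfl, rfl⟩
    · exact ⟨h2 _ _ _ _ (Or.inl h), h2 _ _ _ _ (Or.inr h)⟩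
    · have e := same_rrb a x y q
      exact ⟨h1 _ _ e, h1 _ _ ⟨fun s t => (e.af s t).symm, fun t => (e.mem t).symm⟩⟩
  | refl u => exact Iff.rfl
  | symm u v _ ih => exact ih.symm
  | trans u v w _ _ ih1 ih2 => exact ih1.trans ih2

def Ch : ℕ → Word → Prop
  | 0, u => (0, false) ∉ u
  | k + 1, u => Ch k u ∧ Af u (k + 1, true) (lk k) ∧ Af u (lk k) (lk (k + 1))

theorem Ch.same {u v : Word} (e : Same u v) : ∀ {k : ℕ}, Ch k u → Ch k v
  | 0, h => fun h' => h ((e.mem _).2 h')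
  | _ + 1, ⟨h1, h2, h3⟩ => ⟨h1.same e, (e.af _ _).1 h2, (e.af _ _).1 h3⟩

theorem Ch.nd : ∀ {k : ℕ} {a L r : Word}, Ch k (a ++ (L ++ r)) → Up (k + 1) a L r → lk k ∈ L →
    lk k ∉ r → False
  | 0, _, L, r, h, ⟨a1, c, ha, hc, _⟩, h1, _ => by
    subst ha
    have : (0, false) ∈ c ∨ (0, false) ∈ L ∨ (0, false) ∈ r := hc _ h1
    exact h (by grind)
  | k + 1, _, L, r, ⟨h3, h4, h5⟩, ⟨a1, c, ha, hc, hu⟩, h1, h2 => by
    subst ha
    have e : (k + 1, true) ∈ c ∨ (k + 1, true) ∈ L ∨ (k + 1, true) ∈ r := hc _ h1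
    have e1 : lk k ∉ r := fun h => h2 (Af.suffix (a := a1 ++ c ++ L) (by simpa using h5) h)
    have e2 : lk k ∈ c ++ (L ++ r) := Af.suffix (a := a1) (by simpa using h4) (by grind)
    by_cases e3 : lk k ∈ L
    · exact Ch.nd (a := a1 ++ c) h3 (Up.pred ⟨a1, c, rfl, hc, hu⟩) e3 e1
    · exact Ch.nd (a := a1) (L := c) (r := L ++ r) (by simpa using h3) hu (by grind) (by grind)

theorem Ch.nd' {k : ℕ} {a Z X Y b : Word} (h : Ch k ((a ++ Z) ++ (X ++ (Y ++ b))))
    (hu : Up (k + 1) a (Z ++ (X ++ Y)) b) (h1 : lk k ∈ Z ∨ lk k ∈ X ∨ lk k ∈ Y) (h2 : lk k ∉ b) :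
    False :=
  Ch.nd (by simpa using h) hu (by grind) h2

theorem Ch.swap {a Z X Y b : Word} : ∀ {k : ℕ}, Ch k ((a ++ Z) ++ (X ++ (Y ++ b))) →
    Up k a (Z ++ (X ++ Y)) b → Ch k ((a ++ Z) ++ (Y ++ (X ++ b)))
  | 0, h, _ => fun h' => h (by grind)
  | _ + 1, ⟨h1, h2, h3⟩, hu => ⟨h1.swap hu.pred,
      h2.swap.resolve_right fun e => h1.nd' hu (Or.inr (Or.inr e.2.1)) e.2.2.2,
      h3.swap.resolve_right fun e => h1.nd' hu (Or.inr (Or.inl e.1)) e.2.2.1⟩

theorem ch_Pk : ∀ (k : ℕ) {r : Word}, lk k ∈ r → (∀ x ∈ r, x = lk k ∨ k < x.1) → Ch k (Pk k ++ r)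
  | 0, r, _, h => fun h' => by
    rcases h _ h' with h | h
    · simp [lk] at h
    · simp at h
  | k + 1, r, h1, h2 => by
    have f1 := lk_fst k
    have f2 := lk_fst (k + 1)
    have e1 : (k + 1, true) ∉ r := fun h => by
      rcases h2 _ h with h | h
      · simp [lk] at h
      · simp at h
    have e2 : lk k ∉ r := fun h => by grind
    rw [Pk, List.append_assoc]
    refine ⟨ch_Pk k (by simp) (by grind), ?_, ?_⟩
    · exact (af_append _ _).2 (Or.inl (Or.inl (Or.inr ⟨rfl, by grind, e1⟩)))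
    · exact (af_append _ _).2 (Or.inl (Or.inl (Or.inl (af_of h1 e2))))

theorem Up.comm {k : ℕ} {a Z X Y b : Word} (h : Up k a (Z ++ (X ++ Y)) b) :
    Up k a (Z ++ (Y ++ X)) b := h.mono (by grind) (by grind)

theorem Up.right {k : ℕ} {a L b : Word} (q : Word) (h : Up k a L b) : Up k a L (b ++ q) :=
  h.mono (by grind) (by grind)

theorem co_sub {σ : ℕ → Word} {Y b : Word} (h : ∀ y ∈ Y, co y ∈ b) :
    ∀ y ∈ sb σ Y, co y ∈ sb σ b := fun y hy => by
  obtain ⟨t, ht, hy⟩ := mem_sb.1 hy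
  exact co_mem_sb hy (h t ht)

theorem sep_A_Phi (k : ℕ) : ∃ R, WT R ∧ pA (k + 1) R ∧ ¬ pPhi k R := by
  have C : Cl fun a X Y b => Up (k + 1) a (X ++ Y) b :=
    ⟨fun p _ _ _ _ h => h.left p, fun q _ _ _ _ h => h.right q,
      fun σ _ _ _ _ h => by simpa using h.sub σ⟩
  refine ⟨_, C.wt, fun a X Y b h => Gen.sw h, fun h => ?_⟩
  have f1 := lk_fst k
  have e := (Gen.inv (fun u => Ch k u ∧ Af u (lk k) (k + 1, true))
    (fun u v e h => ⟨h.1.same e, (e.af _ _).1 h.2⟩) (fun a X Y b hs h => ?_)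
    (h (Pk k) [lk k] [(k + 1, true)] [(k + 1, false)] (up_Pk k (by simp) (by simp))
      (by simp [co]))).1 ⟨ch_Pk k (by simp) (by simp), by simp [af_append, Af]; grind⟩
  · have := e.2
    simp [af_append, Af] at this
  · have hu : Up (k + 1) a ([] ++ (X ++ Y)) b := hs.elim id fun h => Up.comm (Z := []) h
    have h1 : Ch k ((a ++ []) ++ (X ++ (Y ++ b))) := by simpa using h.1
    exact ⟨by simpa using h1.swap hu.pred,
      h.2.swap.resolve_right fun e => h1.nd' hu (Or.inr (Or.inl e.1)) e.2.2.1⟩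

theorem sep_Phi_B (k : ℕ) : ∃ R, WT R ∧ pPhi k R ∧ pG R ∧ ¬ pB k R := by
  have C : Cl fun a X Y b => (Up k a (X ++ Y) b ∧ ∀ y ∈ Y, co y ∈ b) ∨ Up (k + 1) a (X ++ Y) b :=
    ⟨fun p _ _ _ _ h => h.imp (fun h => ⟨h.1.left p, h.2⟩) (fun h => h.left p),
      fun q _ _ _ _ h => h.imp (fun h => ⟨h.1.right q, by grind⟩) (fun h => h.right q),
      fun σ _ _ _ _ h => h.imp (fun h => ⟨by simpa using h.1.sub σ, co_sub h.2⟩)
        (fun h => by simpa using h.sub σ)⟩
  refine ⟨_, C.wt, fun a X Y b h1 h2 => Gen.sw (Or.inl ⟨h1.mono (by grind) (by grind), h2⟩),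
    fun a X Y b h => Gen.sw (Or.inr (Up.closed _ _ h)), fun h => ?_⟩
  have f1 := lk_fst k
  have e := (Gen.inv (fun u => Ch k u ∧ ∃ t : Lit, t.1 = k + 1 ∧ Af u (lk k) t)
    (fun u v e h => ⟨h.1.same e, h.2.imp fun t h => ⟨h.1, (e.af _ _).1 h.2⟩⟩)
    (fun a X Y b hs h => ?_)
    (h (Pk k) [lk k] [(k + 1, false)] [] (up_Pk k (by simp) (by simp)))).1
      ⟨by rw [List.append_assoc]; exact ch_Pk k (by simp) (by simp [co]), (k + 1, false), rfl,
        by simp [af_append, Af]; grind⟩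
  · obtain ⟨t, _, ht⟩ := e.2
    simp [af_append, Af] at ht
  · have h1 : Ch k ((a ++ []) ++ (X ++ (Y ++ b))) := by simpa using h.1
    have hu : Up k a ([] ++ (X ++ Y)) b := by
      rcases hs with (h | h) | (h | h)
      exacts [h.1, h.pred, Up.comm (Z := []) h.1, Up.comm (Z := []) h.pred]
    refine ⟨by simpa using h1.swap hu, ?_⟩
    obtain ⟨t, ht, h2⟩ := h.2
    rcases h2.swap with h3 | ⟨e1, e2, e3, e4⟩
    · exact ⟨t, ht, h3⟩
    rcases hs with (h | h) | (h | h)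
    · refine ⟨co t, ht, ?_⟩
      have := af_of (h.2 t e2) e3
      simp only [af_append]
      tauto
    · exact (h1.nd' h (Or.inr (Or.inl e1)) e3).elim
    · exfalso
      have e5 := h.2 _ e1
      cases k with
      | zero => exact h1 (by have : (0, false) ∈ b := e5; grind)
      | succ k =>
        have e7 : (k + 1, true) ∈ b := e5
        have e6 := Af.suffix (a := a ++ (X ++ Y)) (by simpa using h1.2.1) e7
        exact e3 (Af.suffix (a := a ++ (X ++ Y)) (by simpa using h1.2.2) e6)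
    · exact (h1.nd' (Up.comm (Z := []) h) (Or.inr (Or.inl e1)) e3).elim

theorem cl_B (k : ℕ) : Cl fun a X Y b => ∃ a', a = a' ++ ng Y ∧ Up k a' (ng Y ++ (X ++ Y)) b :=
  ⟨fun p _ _ _ _ ⟨a', h1, h2⟩ => ⟨p ++ a', by simp [h1], h2.left p⟩,
    fun q _ _ _ _ ⟨a', h1, h2⟩ => ⟨a', h1, h2.right q⟩,
    fun σ _ _ _ _ ⟨a', h1, h2⟩ => ⟨sb σ a', by simp [h1], by simpa using h2.sub σ⟩⟩

theorem sep_B_A (k : ℕ) : ∃ R, WT R ∧ pB k R ∧ ¬ pA k R := by
  refine ⟨_, (cl_B k).wt, fun a X Y b h => Gen.sw ⟨a, rfl, h.mono (fun x hx => ?_) (by grind)⟩,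
    fun h => ?_⟩
  · simp only [List.mem_append, mem_ng, co_co] at hx ⊢; tauto
  cases k with
  | zero =>
    have e := (Gen.inv (fun u => (0, false) ∉ u ∧ (1, false) ∉ u ∧ Af u (0, true) (1, true))
      (fun u v e h => ⟨by rw [← e.mem]; exact h.1, by rw [← e.mem]; exact h.2.1,
        (e.af _ _).1 h.2.2⟩) (fun a X Y b hs h => ?_)
      (h [] [(0, true)] [(1, true)] [] trivial)).1 (by simp [Af])
    · simp [Af] at e
    · refine ⟨by grind, by grind, h.2.2.swap.resolve_right fun e => ?_⟩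
      rcases hs with ⟨a', rfl, _⟩ | ⟨a', rfl, _⟩
      · exact h.2.1 (by have : (1, false) ∈ ng Y := mem_ng.2 e.2.1; grind)
      · exact h.1 (by have : (0, false) ∈ ng X := mem_ng.2 e.1; grind)
  | succ k =>
    have f1 := lk_fst k
    have e := (Gen.inv (fun u => Ch k u ∧ (∀ i, i = k + 1 ∨ i = k + 2 →
        Af u (i, true) (lk k) ∧ Af u (lk k) (i, false)) ∧ Af u (k + 1, false) (k + 2, false))
      (fun u v e h => ⟨h.1.same e, fun i hi => ⟨(e.af _ _).1 (h.2.1 i hi).1,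
        (e.af _ _).1 (h.2.1 i hi).2⟩, (e.af _ _).1 h.2.2⟩) (fun a X Y b hs h => ?_)
      (h (Pk k ++ [(k + 1, true), (k + 2, true), lk k]) [(k + 1, false)] [(k + 2, false)] []
        ⟨Pk k, _, rfl, by simp [co], up_Pk k (by simp [co]) (by simp)⟩)).1
      ⟨by rw [List.append_assoc]; exact ch_Pk k (by simp) (by simp),
        by simp [af_append, Af]; grind, by simp [af_append, Af]⟩
    · have := e.2.2
      simp [af_append, Af] at this
    · obtain ⟨a', Z, rfl, hu, hZ⟩ : ∃ a' Z, a = a' ++ Z ∧ Up (k + 1) a' (Z ++ (X ++ Y)) b ∧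
          (Z = ng X ∨ Z = ng Y) := by
        rcases hs with ⟨a', h1, h2⟩ | ⟨a', h1, h2⟩
        exacts [⟨a', _, h1, h2, Or.inr rfl⟩, ⟨a', _, h1, h2.comm, Or.inl rfl⟩]
      obtain ⟨h1, h2, h3⟩ := h
      refine ⟨h1.swap hu.pred, fun i hi => ⟨
        (h2 i hi).1.swap.resolve_right fun e => h1.nd' hu (Or.inr (Or.inr e.2.1)) e.2.2.2,
        (h2 i hi).2.swap.resolve_right fun e => h1.nd' hu (Or.inr (Or.inl e.1)) e.2.2.1⟩,
        h3.swap.resolve_right fun e => ?_⟩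
      have key : ∀ i, i = k + 1 ∨ i = k + 2 → (i, true) ∈ Z → (i, false) ∉ b → False :=
        fun i hi e1 e2 => by
          have e3 : lk k ∉ b := fun e3 =>
            e2 (Af.suffix (a := a' ++ Z ++ (X ++ Y)) (by simpa using (h2 i hi).2) e3)
          have e4 : lk k ∈ Z ++ (X ++ (Y ++ b)) :=
            Af.suffix (a := a') (by simpa using (h2 i hi).1) (by grind)
          exact h1.nd' hu (by grind) e3
      rcases hZ with rfl | rfl
      · exact key _ (Or.inl rfl) (mem_ng.2 e.1) e.2.2.1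
      · exact key _ (Or.inr rfl) (mem_ng.2 e.2.1) e.2.2.2

theorem sep_E_F : ∃ R, WT R ∧ pE R ∧ ¬ pF R := by
  have C : Cl fun _ X Y b => (∀ x ∈ X, co x ∈ b) ∧ ∀ y ∈ Y, co y ∈ b :=
    ⟨fun _ _ _ _ _ h => h, fun _ _ _ _ _ h => by grind, fun _ _ _ _ _ h => ⟨co_sub h.1, co_sub h.2⟩⟩
  refine ⟨_, C.wt, fun a X Y b h1 h2 => Gen.sw ⟨h1, h2⟩, fun h => ?_⟩
  have W := C.wt
  have h0 : Sw (Gen _) ([] ++ [(0, false)]) [(0, true)] [(1, true)] [(1, false)] :=
    W.sw_two (h _ _ _ _ (by simp [co]) (by simp [co])) (h _ _ _ _ (by simp [co]) (by simp [co]))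
  have e := (Gen.inv (fun u => Af u (0, false) (0, true) ∧ Af u (0, true) (1, true))
    (fun u v e h => ⟨(e.af _ _).1 h.1, (e.af _ _).1 h.2⟩) (fun a X Y b hs h => ?_) h0).1
    (by simp [Af])
  · simp [Af] at e
  · have hX : ∀ x ∈ X, co x ∈ b := hs.elim (fun h => h.1) fun h => h.2
    exact ⟨h.1.swap.resolve_right fun e => e.2.2.2 (hX _ e.1), h.2.swap.resolve_right fun e =>
      e.2.2.1 (Af.suffix (a := a ++ (X ++ Y)) (s := (0, false)) (by simpa using h.1) (hX _ e.1))⟩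

theorem sep_E : ∃ R, WT R ∧ ¬ pE R := by
  have C : Cl fun _ _ _ _ => False := ⟨fun _ _ _ _ _ h => h, fun _ _ _ _ _ h => h,
    fun _ _ _ _ _ h => h⟩
  refine ⟨_, C.wt, fun h => ?_⟩
  have e := (Gen.inv (fun u => Af u (0, true) (1, true)) (fun u v e h => (e.af _ _).1 h)
    (fun a X Y b hs _ => (hs.elim id id).elim)
    (h [] [(0, true)] [(1, true)] [(0, false), (1, false)] (by simp [co]) (by simp [co]))).1
    (by simp [Af])
  simp [Af] at e

theorem sep_A_P : ∃ R, WT R ∧ pA 0 R ∧ ¬ pP R := by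
  have C : Cl fun _ _ _ _ => True := ⟨fun _ _ _ _ _ h => h, fun _ _ _ _ _ h => h,
    fun _ _ _ _ _ h => h⟩
  refine ⟨_, C.wt, fun a X Y b _ => Gen.sw trivial, fun h => ?_⟩
  have e := (Gen.inv (fun u => (0, false) ∉ u) (fun u v e h => by rwa [← e.mem])
    (fun a X Y b _ h => by grind) (h [(0, true)])).1 (by simp)
  simp [co] at e

theorem sb_sb (τ σ : ℕ → Word) (u : Word) : sb τ (sb σ u) = sb (fun i => sb τ (σ i)) u := by
  induction u with
  | nil => rfl
  | cons x u ih =>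
    obtain ⟨i, b⟩ := x
    cases b <;> simp [ih]

/-- Theories read off from the last letter. -/
def LT {β : Type} (f : Lit → β) (u v : Word) : Prop :=
  ∀ σ, (sb σ u).getLast?.map f = (sb σ v).getLast?.map f

theorem lt_wt {β : Type} (f : Lit → β) : WT (LT f) where
  refl := fun _ _ => rfl
  symm := fun h σ => (h σ).symm
  trans := fun h1 h2 σ => (h1 σ).trans (h2 σ)
  left := fun p _ _ h σ => by simp only [sb_append, List.getLast?_append, Option.map_or, h σ]
  right := fun p _ _ h σ => by simp only [sb_append, List.getLast?_append, Option.map_or, h σ]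
  sub := fun τ _ _ h σ => by rw [sb_sb, sb_sb]; exact h _
  rrb := fun u v σ => by
    simp only [sb_append, List.getLast?_append]
    cases (sb σ u).getLast? <;> simp

theorem last_ng (u : Word) : (ng u).getLast? = u.getLast?.map co := List.getLast?_map

theorem lt_P {β : Type} (f : Lit → β) : pP (LT f) := fun u σ => by
  simp only [sb_append, sb_ng, List.getLast?_append, last_ng]
  cases (sb σ u).getLast? <;> simp

theorem sep_P_E1 : ∃ R, WT R ∧ pP R ∧ ¬ pE1 R :=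
  ⟨_, lt_wt id, lt_P id, fun h => by
    have := h [] [(0, true)] [] fun i => [(i, true)]
    simp [co] at this⟩

theorem sep_E1_G : ∃ R, WT R ∧ pP R ∧ pE1 R ∧ ¬ pG R := by
  refine ⟨_, lt_wt Prod.fst, lt_P _, fun a X b σ => ?_, fun h => ?_⟩
  · simp only [sb_append, sb_ng, List.getLast?_append, last_ng]
    cases (sb σ X).getLast? <;> cases (sb σ b).getLast? <;> simp [co]
  · have := h [] [(0, false), (1, false), (0, true)] [(1, true)] [] (by simp [co])
      fun i => [(i, true)]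
    simp [co] at this

theorem sep_G_T : ∃ R, WT R ∧ pP R ∧ pG R ∧ ¬ pT R := by
  refine ⟨_, lt_wt fun _ => (), lt_P _, fun a X Y b _ σ => ?_, fun h => ?_⟩
  · simp only [sb_append, List.getLast?_append]
    cases (sb σ X).getLast? <;> cases (sb σ Y).getLast? <;> cases (sb σ b).getLast? <;> simp
  · have := h [] [(0, true)] fun i => [(i, true)]
    simp at this

end Pool.Agent.Lib.IZ64
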