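import Mathlib
import Pool.Agent.Lib.IZ64.Sep

namespace Pool.Agent.Lib.IZ64

abbrev Rel2 := Word → Word → Prop

/-- The index set of the word theories. -/
abbrev K := {p : Fin 3 × Lex (ℕ ⊕ Fin 3) // (∀ n, p.2 = toLex (Sum.inl n) → p.1 = 0 ∨ n % 3 = 1) ∧
  ∀ t, p.2 = toLex (Sum.inr t) → t = 0 ∨ p.1 = 2}

def col (i : Fin 3) (R : Rel2) : Prop := (i = 0 → pG R) ∧ (i = 1 → pE1 R)

def hl : ℕ ⊕ Fin 3 → Rel2 → Prop
  | .inl n, R => lev n R
  | .inr t, R => (t = 0 → pF R) ∧ (t = 1 → pE R)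

def S (κ : K) (R : Rel2) : Prop := col κ.1.1 R ∧ hl (ofLex κ.1.2) R

/-- Properties of word theories that are given by a set of identities. -/
structure Eqn (p : Rel2 → Prop) : Prop where
  mono : ∀ {R R' : Rel2}, (∀ u v, R u v → R' u v) → p R → p R'
  inf : p fun u v => ∀ R, p R → R u v

theorem Eqn.and {p q : Rel2 → Prop} (hp : Eqn p) (hq : Eqn q) : Eqn fun R => p R ∧ q R :=
  ⟨fun h a => ⟨hp.mono h a.1, hq.mono h a.2⟩, hp.mono (fun _ _ h R a => h R a.1) hp.inf,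
    hq.mono (fun _ _ h R a => h R a.2) hq.inf⟩

theorem Eqn.imp {p : Rel2 → Prop} (hp : Eqn p) (c : Prop) : Eqn fun R => c → p R :=
  ⟨fun h a hc => hp.mono h (a hc), fun hc => hp.mono (fun _ _ h R a => h R (a hc)) hp.inf⟩

theorem Eqn.of_iff {p q : Rel2 → Prop} (hp : Eqn p) (h : ∀ R, q R ↔ p R) : Eqn q := by
  rw [show q = p from funext fun R => propext (h R)]; exact hp

theorem eqn_G : Eqn pG := ⟨fun h a _ _ _ _ x => h _ _ (a _ _ _ _ x), fun _ _ _ _ x _ a => a _ _ _ _ x⟩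
theorem eqn_E1 : Eqn pE1 := ⟨fun h a _ _ _ => h _ _ (a _ _ _), fun _ _ _ _ a => a _ _ _⟩
theorem eqn_F : Eqn pF :=
  ⟨fun h a _ _ _ _ x y => h _ _ (a _ _ _ _ x y), fun _ _ _ _ x y _ a => a _ _ _ _ x y⟩
theorem eqn_E : Eqn pE :=
  ⟨fun h a _ _ _ _ x y => h _ _ (a _ _ _ _ x y), fun _ _ _ _ x y _ a => a _ _ _ _ x y⟩

theorem eqn_lev (c : ℕ) : Eqn (lev c) := by
  rcases lev_cases c with rfl | rfl | ⟨k, rfl | rfl | rfl⟩
  · exact ⟨fun h a _ _ => h _ _ (a _ _), fun _ _ _ a => a _ _⟩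
  · exact ⟨fun h a _ => h _ _ (a _), fun _ _ a => a _⟩
  · exact Eqn.of_iff (p := pA k)
      ⟨fun h a _ _ _ _ x => h _ _ (a _ _ _ _ x), fun _ _ _ _ x _ a => a _ _ _ _ x⟩ fun _ => lev_A k
  · exact Eqn.of_iff (p := pB k)
      ⟨fun h a _ _ _ _ x => h _ _ (a _ _ _ _ x), fun _ _ _ _ x _ a => a _ _ _ _ x⟩ fun _ => lev_B k
  · exact Eqn.of_iff (p := pPhi k) ⟨fun h a _ _ _ _ x y => h _ _ (a _ _ _ _ x y),
      fun _ _ _ _ x y _ a => a _ _ _ _ x y⟩ fun _ => lev_Phi k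

theorem eqn_S (κ : K) : Eqn (S κ) := by
  refine ((eqn_G.imp _).and (eqn_E1.imp _)).and ?_
  rcases ofLex κ.1.2 with n | t
  exacts [eqn_lev n, (eqn_F.imp _).and (eqn_E.imp _)]

variable {R : Rel2}

theorem col_G (h : pG R) (i : Fin 3) : col i R := ⟨fun _ => h, fun _ => G_E1 h⟩
theorem hl_F (h : pF R) (t : Fin 3) : hl (.inr t) R := ⟨fun _ => h, fun _ => F_E h⟩

theorem S_mono (W : WT R) {κ κ' : K} (h : κ ≤ κ') (a : S κ R) : S κ' R := by
  obtain ⟨⟨i, x⟩, g1, g2⟩ := κ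
  obtain ⟨⟨j, y⟩, g3, g4⟩ := κ'
  obtain ⟨h1, h2⟩ : i ≤ j ∧ x ≤ y := h
  obtain ⟨a1, a2⟩ : col i R ∧ hl (ofLex x) R := a
  dsimp only at g3
  show col j R ∧ hl (ofLex y) R
  refine ⟨⟨fun e => a1.1 (by omega), fun e => ?_⟩, ?_⟩
  · by_cases e0 : i = 0
    exacts [G_E1 (a1.1 e0), a1.2 (by omega)]
  · obtain ⟨n | t, rfl⟩ := toLex.surjective x <;> obtain ⟨m | s, rfl⟩ := toLex.surjective y
    · have h3 : n ≤ m := Sum.Lex.inl_le_inl_iff.1 h2
      rcases g3 m rfl with e | e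
      exacts [W.lev_le_G (a1.1 (by omega)) a2 h3, W.lev_le a2 h3 e]
    · exact hl_F (W.lev_F a2) s
    · exact absurd h2 Sum.Lex.not_inr_le_inl
    · have h3 : t ≤ s := Sum.Lex.inr_le_inr_iff.1 h2
      refine ⟨fun e => a2.1 (by omega), fun e => ?_⟩
      by_cases e0 : t = 0
      exacts [F_E (a2.1 e0), a2.2 (by omega)]

theorem S_of_T (W : WT R) (h : pT R) (κ : K) : S κ R := by
  refine S_mono W (κ := ⟨(0, toLex (.inl 0)), by simp, by simp⟩) ⟨Fin.zero_le _, ?_⟩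
    ⟨col_G (W.lev_G (c := 0) h (by omega)) _, h⟩
  obtain ⟨n | t, e⟩ := toLex.surjective κ.1.2 <;> rw [← e]
  exacts [Sum.Lex.inl_le_inl_iff.2 (Nat.zero_le _), Sum.Lex.inl_le_inr _ _]

theorem cover (W : WT R) : ∃ κ : K, S κ R ∧ ∀ R', WT R' → S κ R' → Imp R R' := by
  classical
  obtain ⟨i, hi, hG, hE⟩ : ∃ i : Fin 3, col i R ∧ (pG R → i = 0) ∧ (pE1 R → i ≠ 2) := by
    by_cases g : pG R
    · exact ⟨0, col_G g _, fun _ => rfl, fun _ => by decide⟩
    by_cases e : pE1 R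
    · exact ⟨1, ⟨fun h => absurd h (by decide), fun _ => e⟩, fun h => absurd h g, fun _ => by decide⟩
    · exact ⟨2, ⟨fun h => absurd h (by decide), fun h => absurd h (by decide)⟩,
        fun h => absurd h g, fun h => absurd h e⟩
  have key : ∀ R', col i R' → (∀ c, lev c R → lev c R') → (pF R → pF R') → (pE R → pE R') →
      Imp R R' := fun R' c l f e =>
    ⟨l 0, l 1, e, fun h => by
        by_cases e0 : i = 0
        exacts [G_E1 (c.1 e0), c.2 (by have := hE h; omega)], f, fun h => c.1 (hG h),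
      fun k h => (lev_Phi k).1 (l _ ((lev_Phi k).2 h)), fun k h => (lev_A k).1 (l _ ((lev_A k).2 h)),
      fun k h => (lev_B k).1 (l _ ((lev_B k).2 h))⟩
  by_cases hn : ∃ n, lev n R
  · refine ⟨⟨(i, toLex (.inl (Nat.find hn))), fun n e => ?_, by simp⟩, ⟨hi, Nat.find_spec hn⟩,
      fun R' W' a => key R' a.1 (fun c h => ?_) (fun _ => W'.lev_F a.2) fun _ => F_E (W'.lev_F a.2)⟩
    · obtain rfl : Nat.find hn = n := by simpa using e
      by_contra hc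
      exact hc (Or.inl (hG (W.lev_G (Nat.find_spec hn) fun e => hc (Or.inr e))))
    · by_cases e : c % 3 = 1
      exacts [W'.lev_le a.2 (Nat.find_min' hn h) e,
        W'.lev_le_G (a.1.1 (hG (W.lev_G h e))) a.2 (Nat.find_min' hn h)]
  · obtain ⟨t, ht, hF, hE'⟩ : ∃ t : Fin 3, hl (.inr t) R ∧ (pF R → t = 0) ∧ (pE R → t ≠ 2) := by
      by_cases g : pF R
      · exact ⟨0, hl_F g _, fun _ => rfl, fun _ => by decide⟩
      by_cases e : pE R
      · exact ⟨1, ⟨fun h => absurd h (by decide), fun _ => e⟩, fun h => absurd h g,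
          fun _ => by decide⟩
      · exact ⟨2, ⟨fun h => absurd h (by decide), fun h => absurd h (by decide)⟩,
          fun h => absurd h g, fun h => absurd h e⟩
    refine ⟨⟨(i, toLex (.inr t)), by simp, fun s e => ?_⟩, ⟨hi, ht⟩, fun R' W' a =>
      key R' a.1 (fun c h => absurd ⟨c, h⟩ hn) (fun h => a.2.1 (hF h)) fun h => ?_⟩
    · obtain rfl : t = s := by simpa using e
      by_contra hc
      have e1 : pE1 R := by
        by_cases e0 : i = 0
        exacts [G_E1 (hi.1 e0), hi.2 (by simp only [not_or] at hc; omega)]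
      exact hc (Or.inl (hF (W.E1_F e1)))
    · by_cases e0 : t = 0
      exacts [F_E (a.2.1 e0), a.2.2 (by have := hE' h; omega)]

theorem strict (c : ℕ) : ∃ R, WT R ∧ pG R ∧ lev (c + 1) R ∧ ¬ lev c R := by
  rcases lev_cases c with rfl | rfl | ⟨k, rfl | rfl | rfl⟩
  · obtain ⟨R, W, a, b, c⟩ := sep_G_T
    exact ⟨R, W, b, a, c⟩
  · obtain ⟨R, W, a, b⟩ := sep_A_P
    exact ⟨R, W, A_G a, (lev_A 0).2 a, b⟩
  · obtain ⟨R, W, a, b⟩ := sep_B_A k
    exact ⟨R, W, W.B_G a, (lev_B k).2 a, fun h => b ((lev_A k).1 h)⟩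
  · obtain ⟨R, W, a, b, c⟩ := sep_Phi_B k
    exact ⟨R, W, b, (lev_Phi k).2 a, fun h => c ((lev_B k).1 h)⟩
  · obtain ⟨R, W, a, b⟩ := sep_A_Phi k
    exact ⟨R, W, A_G a, (lev_A (k + 1)).2 a, fun h => b ((lev_Phi k).1 h)⟩

theorem reflect {κ κ' : K} (h : ∀ R, WT R → S κ R → S κ' R) : κ ≤ κ' := by
  obtain ⟨⟨i, x⟩, g1, g2⟩ := κ
  obtain ⟨⟨j, y⟩, g3, g4⟩ := κ'
  replace h : ∀ R, WT R → col i R → hl (ofLex x) R → col j R ∧ hl (ofLex y) R :=
    fun R W a b => h R W ⟨a, b⟩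
  dsimp only at g1 g2
  refine ⟨not_lt.1 fun (hc : j < i) => ?_, not_lt.1 fun (hc : y < x) => ?_⟩
  · have hP : ∀ R, WT R → pP R → hl (ofLex x) R := fun R W a => by
      obtain ⟨n | t, rfl⟩ := toLex.surjective x
      · have := g1 n rfl
        exact W.lev_le (c := 1) a (by omega) (by omega)
      · exact hl_F (W.lev_F (c := 1) a) t
    by_cases e : i = 1
    · obtain ⟨R, W, a, b, c⟩ := sep_E1_G
      exact c ((h R W ⟨fun e0 => by omega, fun _ => b⟩ (hP R W a)).1.1 (by omega))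
    · obtain ⟨R, W, a, b⟩ := sep_P_E1
      have := (h R W ⟨fun e0 => by omega, fun e0 => absurd e0 e⟩ (hP R W a)).1
      by_cases e0 : j = 0
      exacts [b (G_E1 (this.1 e0)), b (this.2 (by omega))]
  · obtain ⟨n | t, rfl⟩ := toLex.surjective x <;> obtain ⟨m | s, rfl⟩ := toLex.surjective y
    · obtain ⟨R, W, a, b, c⟩ := strict m
      exact c (h R W (col_G a i) (W.lev_le_G a b (Sum.Lex.inl_lt_inl_iff.1 hc))).2
    · exact absurd hc Sum.Lex.not_inr_lt_inl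
    · obtain ⟨R, W, a, b, c⟩ := strict m
      exact c (h R W (col_G a i) (hl_F (W.lev_F b) t)).2
    · have h3 : s < t := Sum.Lex.inr_lt_inr_iff.1 hc
      have := g2 t rfl
      have ci : ∀ R, col i R := fun R => ⟨fun e => by omega, fun e => by omega⟩
      by_cases e : s = 0
      · obtain ⟨R, W, a, b⟩ := sep_E_F
        exact b ((h R W (ci R) ⟨fun e0 => by omega, fun _ => a⟩).2.1 e)
      · obtain ⟨R, W, a⟩ := sep_E
        exact a ((h R W (ci R) ⟨fun e0 => by omega, fun e0 => by omega⟩).2.2 (by omega))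

end Pool.Agent.Lib.IZ64
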