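import Mathlib
import Pool.Agent.Lib.IZ64.Assoc

namespace Pool.Agent.Lib.IZ64

/-- Twisted distributive bi-bands with units. -/
structure Law {α : Type} (j m : α → α → α) (z o : α) : Prop where
  D : ∀ x y w, j (m x y) w = m (j w x) (j y w)
  Dp : ∀ x y w, m (j x y) w = j (m w x) (m y w)
  h0 : ∀ x, j x z = x
  h1 : ∀ x, m x o = x
  h2 : ∀ x, j z x = x
  h3 : ∀ x, m o x = x

namespace Law
variable {α : Type} {j m : α → α → α} {z o : α}

theorem dual (L : Law j m z o) : Law m j o z := ⟨L.Dp, L.D, L.h1, L.h0, L.h3, L.h2⟩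

theorem joo (L : Law j m z o) : j o o = o := by
  have := L.D o z o
  rw [L.h3, L.h2, L.h1] at this
  exact this.symm

theorem idem (L : Law j m z o) (x : α) : j x x = x := by
  have := L.Dp o o x
  rw [L.joo, L.h3, L.h1] at this
  exact this.symm

theorem ecomm (L : Law j m z o) (x : α) : j x o = j o x := by
  have := L.D x o o
  rw [L.h1, L.joo, L.h1] at this
  exact this

theorem massoc (L : Law j m z o) (a b c : α) : m (m a b) c = m a (m b c) :=
  assoc_aux j m (fun x => j x o) (fun x => m x z) z o L.D L.Dp L.h0 L.h1 L.h2 L.h3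
    (fun _ => rfl) (fun x => (L.ecomm x).symm) (fun _ => rfl) (fun x => (L.dual.ecomm x).symm) a b c

theorem assoc (L : Law j m z o) (a b c : α) : j (j a b) c = j a (j b c) := L.dual.massoc a b c

theorem idem' (L : Law j m z o) (x y : α) : j x (j x y) = j x y := by
  rw [← L.assoc, L.idem]

/-- `x ∧ y = (y ∧ x) ∨ (0 ∧ y)`, dual form. -/
theorem sw (L : Law j m z o) (x y : α) : j x y = m (j y x) (j o y) := by
  have := L.D x o y
  rw [L.h1] at this
  exact this

theorem me (L : Law j m z o) (x : α) : m x (j o x) = x := by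
  have := L.sw z x
  rw [L.h2, L.h0] at this
  exact this.symm

theorem em (L : Law j m z o) (x : α) : m (j o x) x = x := by
  have := L.D o z x
  rw [L.h3, L.h2, L.ecomm] at this
  exact this.symm

theorem ee (L : Law j m z o) (x : α) : j o (j o x) = j o x := L.idem' o x

theorem ej (L : Law j m z o) (x y : α) : j o (j x y) = j (j o x) (j o y) := by
  rw [L.assoc o x, ← L.assoc x o, L.ecomm x, L.assoc o x, L.idem']

theorem oj (L : Law j m z o) (x y : α) : j x (j o y) = j o (j x y) := by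
  rw [← L.assoc, L.ecomm, L.assoc]

theorem emm (L : Law j m z o) (x y : α) : j o (m x y) = m (j o x) (j o y) := by
  rw [← L.ecomm, L.D, L.ecomm]

/-- `e x ∧ y = y ∨ (x ∧ y)`. -/
theorem ab (L : Law j m z o) (x y : α) : m (j o x) y = j y (m x y) := by
  rw [L.Dp, L.h1]

theorem rrb (L : Law j m z o) (x y : α) : j x (j y x) = j y x := by
  have h1 : j x (j y x) = m (j (j y x) x) (j o (j y x)) := L.sw _ _
  rw [L.assoc, L.idem, L.me] at h1
  exact h1

theorem rrb' (L : Law j m z o) (x y w : α) : j x (j y (j x w)) = j y (j x w) := by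
  rw [← L.assoc y, ← L.assoc x, L.rrb]

theorem ef (L : Law j m z o) (x : α) : j o (m z x) = j o x := by
  rw [L.emm, L.h0, L.h3]

theorem efj (L : Law j m z o) (x y : α) : m (j o x) y = j (m z x) y := by
  rw [← L.ecomm, L.Dp, L.h3, L.D, L.idem, L.D, L.h0]

theorem emj (L : Law j m z o) (x y : α) : j o (m x y) = j o (j x y) := by
  rw [L.emm, L.efj, L.oj, L.ej, L.ef, ← L.ej]

theorem rd (L : Law j m z o) (x y w : α) : m (j x y) w = j (m x w) (m y w) := by
  have h : j (m z w) (m y w) = m y w := by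
    rw [← L.efj, ← L.dual.rrb w y, ← L.massoc, L.em]
  rw [L.Dp, L.dual.sw x w, L.assoc, h]

theorem comm (L : Law j m z o) {a b : α} (h : j o a = j o b) : j a b = j b a := by
  have : j o (j b a) = j o b := by rw [L.ej, h, L.idem]
  rw [L.sw a b, ← this, L.me]

theorem fe_of (L : Law j m z o) {a b : α} (h : j o a = j o b) : m z a = m z b := by
  rw [← L.dual.ef a, h, L.dual.ef]

theorem absorb (L : Law j m z o) {a b : α} (h : j o a = j o b) : j a (m a b) = a := by
  rw [L.dual.comm (L.fe_of h), ← L.ab, ← h, L.em]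

/-- `a` lies below the index `k`. -/
theorem le_j (L : Law j m z o) {a b k : α} : j (j a b) k = k ↔ j a k = k ∧ j b k = k := by
  constructor
  · intro h
    rw [L.assoc] at h
    refine ⟨?_, ?_⟩
    · rw [← h, L.idem']
    · rw [← h, ← L.assoc a b, ← L.assoc b, L.rrb]
  · rintro ⟨h1, h2⟩
    rw [L.assoc, h2, h1]

theorem le_m (L : Law j m z o) {a b k : α} (hk : j o k = k) :
    j (m a b) k = k ↔ j a k = k ∧ j b k = k := by
  have : j (m a b) k = j (j a b) k := by
    rw [← hk, ← L.assoc, L.ecomm, L.emj, ← L.ecomm, L.assoc]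
  rw [this, L.le_j]

end Law

/-- A two valued point of the component with index `k`. -/
structure Point {α : Type} (j m : α → α → α) (z o k : α) (h : α → Prop) : Prop where
  hj : ∀ a b, j a k = k → j b k = k → (h (j a b) ↔ h a ∨ h b)
  hm : ∀ a b, j a k = k → j b k = k → (h (m a b) ↔ h a ∧ h b)
  hz : ¬ h z
  ho : h o

theorem Law.point_aux {α : Type} {j m : α → α → α} {z o : α} (L : Law j m z o) {a b : α}
    (hab : j o a = j o b) (hn : j a b ≠ b) :
    ∃ h, Point j m z o (j o a) h ∧ h a ∧ ¬ h b := by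
  set k := j o a with hk
  have hkk : j o k = k := L.ee a
  let C := {x : α // j o x = k}
  let : Max C := ⟨fun x y => ⟨j x.1 y.1, by rw [L.ej, x.2, y.2, L.idem]⟩⟩
  let : Min C := ⟨fun x y => ⟨m x.1 y.1, by rw [L.emj, L.ej, x.2, y.2, L.idem]⟩⟩
  have cxy : ∀ x y : C, j o x.1 = j o y.1 := fun x y => x.2.trans y.2.symm
  let lat : Lattice C := Lattice.mk'
    (fun x y => Subtype.ext (L.comm (cxy x y)))
    (fun x y w => Subtype.ext (L.assoc _ _ _))
    (fun x y => Subtype.ext (L.dual.comm (L.fe_of (cxy x y))))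
    (fun x y w => Subtype.ext (L.massoc _ _ _))
    (fun x y => Subtype.ext (L.absorb (cxy x y)))
    (fun x y => Subtype.ext (L.dual.absorb (L.fe_of (cxy x y))))
  have sv : ∀ x y : C, (x ⊔ y).1 = j x.1 y.1 := fun _ _ => rfl
  have iv : ∀ x y : C, (x ⊓ y).1 = m x.1 y.1 := fun _ _ => rfl
  let dl : DistribLattice C := DistribLattice.ofInfSupLe (fun x y w => by
    rw [inf_comm x (y ⊔ w), inf_comm x y, inf_comm x w]
    exact le_of_eq (Subtype.ext (L.rd _ _ _)))
  let A : C := ⟨a, rfl⟩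
  let B : C := ⟨b, hab.symm⟩
  have hAB : ¬ A ≤ B := fun h => hn (congrArg Subtype.val (sup_eq_right.2 h))
  have hd : Disjoint ((Order.PFilter.principal A : Order.PFilter C) : Set C)
      ((Order.Ideal.principal B : Order.Ideal C) : Set C) := by
    rw [Set.disjoint_left]
    intro x h1 h2
    exact hAB (le_trans (Order.PFilter.mem_principal.1 h1) (Order.Ideal.mem_principal.1 h2))
  obtain ⟨J, hJ, hBJ, hAJ⟩ := DistribLattice.prime_ideal_of_disjoint_filter_ideal hd
  have hA : A ∉ J := Set.disjoint_left.1 hAJ (Order.PFilter.mem_principal.2 le_rfl)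
  have hB : B ∈ J := hBJ (Order.Ideal.mem_principal.2 le_rfl)
  have tk : ∀ x, j x k = k → j o (m x k) = k := fun x hx => by rw [L.emj, hx, hkk]
  have key : ∀ x (hx : j x k = k),
      (∀ c : C, c.1 = m x k → c ∉ J) ↔ (⟨m x k, tk x hx⟩ : C) ∉ J := fun x hx =>
    ⟨fun h => h _ rfl, fun h c hc => by
      have : c = ⟨m x k, tk x hx⟩ := Subtype.ext hc
      rw [this]; exact h⟩
  refine ⟨fun x => ∀ c : C, c.1 = m x k → c ∉ J, ⟨?_, ?_, ?_, ?_⟩, ?_, ?_⟩
  · intro x y hx hy
    rw [key x hx, key y hy, key _ (L.le_j.2 ⟨hx, hy⟩)]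
    have : (⟨m (j x y) k, tk _ (L.le_j.2 ⟨hx, hy⟩)⟩ : C) = ⟨m x k, tk x hx⟩ ⊔ ⟨m y k, tk y hy⟩ :=
      Subtype.ext (L.rd _ _ _)
    rw [this, Order.Ideal.sup_mem_iff]
    tauto
  · intro x y hx hy
    rw [key x hx, key y hy, key _ ((L.le_m hkk).2 ⟨hx, hy⟩)]
    have : (⟨m (m x y) k, tk _ ((L.le_m hkk).2 ⟨hx, hy⟩)⟩ : C) =
        ⟨m x k, tk x hx⟩ ⊓ ⟨m y k, tk y hy⟩ :=
      Subtype.ext (by rw [iv]; simp only; rw [L.massoc, L.massoc, L.dual.rrb])
    rw [this]
    constructor
    · intro h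
      exact ⟨fun h1 => h (J.lower inf_le_left h1), fun h1 => h (J.lower inf_le_right h1)⟩
    · rintro ⟨h1, h2⟩ h
      rcases hJ.mem_or_mem h with h | h
      exacts [h1 h, h2 h]
  · rw [key z (L.h2 k), not_not]
    refine J.lower (sup_eq_right.1 (Subtype.ext ?_)) hB
    rw [sv]
    show j (m z k) b = b
    rw [← L.efj, hkk, hab, L.em]
  · rw [key o hkk]
    intro h
    refine hA (J.lower (sup_eq_right.1 (Subtype.ext ?_)) h)
    rw [sv]
    show j a (m o k) = m o k
    rw [L.h3, hk, L.oj, L.idem]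
  · intro c hc
    have : c = A := Subtype.ext (hc.trans (L.me a))
    rw [this]; exact hA
  · intro h
    refine h B ?_ hB
    show b = m b k
    rw [hab, L.me]

theorem Law.point {α : Type} {j m : α → α → α} {z o : α} (L : Law j m z o) {a b : α}
    (hab : j o a = j o b) (hn : a ≠ b) :
    ∃ h, Point j m z o (j o a) h ∧ ¬ (h a ↔ h b) := by
  by_cases h1 : j a b = b
  · have h2 : j b a ≠ a := fun h2 => hn (by rw [← h2, L.comm hab.symm, h1])
    obtain ⟨h, hp, hb, ha⟩ := L.point_aux hab.symm h2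
    exact ⟨h, hab ▸ hp, fun e => ha (e.2 hb)⟩
  · obtain ⟨h, hp, ha, hb⟩ := L.point_aux hab h1
    exact ⟨h, hp, fun e => hb (e.1 ha)⟩

end Pool.Agent.Lib.IZ64
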