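import Mathlib
import Pool.Agent.Lib.MP_79490a_al.Defs
import Pool.Agent.Lib.IZ64.Law
import Pool.Agent.Lib.IZ64.Sep

namespace Pool.Agent.Lib.IZ64

open Pool.Agent.Lib.MP_79490a_al

def I20 : Set Alg := {A | A ∈ IZ ∧ ∀ x, A.neg (A.neg x) = x}

def jn (A : Alg) (x y : A.carrier) : A.carrier := A.imp (A.neg x) y
def mt (A : Alg) (x y : A.carrier) : A.carrier := A.neg (A.imp x (A.neg y))
def one (A : Alg) : A.carrier := A.neg A.zero

variable {A : Alg}

theorem neg_jn (h : A ∈ I20) (x y : A.carrier) : A.neg (jn A x y) = mt A (A.neg x) (A.neg y) := by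
  rw [mt, jn, h.2]
theorem neg_mt (h : A ∈ I20) (x y : A.carrier) : A.neg (mt A x y) = jn A (A.neg x) (A.neg y) := by
  rw [mt, jn, h.2, h.2]
theorem neg_one (h : A ∈ I20) : A.neg (one A) = A.zero := h.2 _
theorem imp_eq (h : A ∈ I20) (x y : A.carrier) : A.imp x y = jn A (A.neg x) y := by rw [jn, h.2]

theorem law (h : A ∈ I20) : Law (jn A) (mt A) A.zero (one A) := by
  have D : ∀ x y w, jn A (mt A x y) w = mt A (jn A w x) (jn A y w) := fun x y w => by
    rw [jn, mt, h.2, h.1.1]; rfl
  have h0 : ∀ x, jn A x A.zero = x := h.2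
  have h1 : ∀ x, mt A x (one A) = x := fun x => by rw [mt, neg_one h]; exact h.2 x
  have h2 : ∀ x, jn A A.zero x = x := fun x => by
    have := D x (one A) A.zero
    rw [h1, h0, h0, h1] at this
    exact this.symm
  refine ⟨D, fun x y w => ?_, h0, h1, h2, fun x => ?_⟩
  · have := congrArg A.neg (D (A.neg x) (A.neg y) (A.neg w))
    simpa only [neg_jn h, neg_mt h, h.2] using this
  · rw [← h.2 (mt A (one A) x), neg_mt h, neg_one h, h2, h.2]

def val (A : Alg) (v : ℕ → A.carrier) (x : Lit) : A.carrier := if x.2 then v x.1 else A.neg (v x.1)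
def wv (A : Alg) (v : ℕ → A.carrier) (u : Word) : A.carrier :=
  u.foldr (fun x acc => jn A (val A v x) acc) (one A)
def lt (x : Lit) : Term := if x.2 then .var x.1 else .imp (.var x.1) .zero
def wt (u : Word) : Term := u.foldr (fun x acc => .imp (.imp (lt x) .zero) acc) (.imp .zero .zero)

theorem wt_eval (v : ℕ → A.carrier) : ∀ u : Word, (wt u).eval A v = wv A v u
  | [] => rfl
  | (i, true) :: u => congrArg (jn A (v i)) (wt_eval v u)
  | (i, false) :: u => congrArg (jn A (A.neg (v i))) (wt_eval v u)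

theorem wv_cons (v : ℕ → A.carrier) (x : Lit) (u : Word) :
    wv A v (x :: u) = jn A (val A v x) (wv A v u) := rfl

theorem val_co (h : A ∈ I20) (v : ℕ → A.carrier) (x : Lit) : val A v (co x) = A.neg (val A v x) := by
  obtain ⟨i, b⟩ := x
  cases b <;> simp [val, co, h.2]

theorem e_wv (h : A ∈ I20) (v : ℕ → A.carrier) : ∀ u : Word, jn A (one A) (wv A v u) = wv A v u
  | [] => (law h).idem _
  | x :: u => by rw [wv_cons, ← (law h).oj, e_wv h v u]

theorem wv_append (h : A ∈ I20) (v : ℕ → A.carrier) (w : Word) : ∀ u : Word,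
    wv A v (u ++ w) = jn A (wv A v u) (wv A v w)
  | [] => (e_wv h v w).symm
  | x :: u => by rw [List.cons_append, wv_cons, wv_cons, wv_append h v w u, (law h).assoc]

theorem wv_ng (h : A ∈ I20) (v : ℕ → A.carrier) : ∀ u : Word,
    wv A v (ng u) = jn A (one A) (A.neg (wv A v u))
  | [] => by
    show one A = jn A (one A) (A.neg (one A))
    rw [neg_one h, (law h).h0]
  | x :: u => by
    rw [ng_cons, wv_cons, wv_cons, wv_ng h v u, val_co h, neg_jn h, (law h).emj, (law h).oj]

theorem wv_sb (h : A ∈ I20) (v : ℕ → A.carrier) (σ : ℕ → Word) : ∀ u : Word,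
    wv A v (sb σ u) = wv A (fun i => wv A v (σ i)) u
  | [] => rfl
  | (i, true) :: u => by rw [sb_cons, wv_append h, wv_sb h v σ u]; rfl
  | (i, false) :: u => by
    rw [sb_cons, wv_append h, wv_sb h v σ u, sbl_false, wv_ng h, (law h).assoc, ← (law h).oj,
      e_wv h]
    rfl

theorem wv_le (h : A ∈ I20) (v : ℕ → A.carrier) {x : Lit} {u : Word} (hx : x ∈ u) :
    jn A (val A v x) (wv A v u) = wv A v u := by
  obtain ⟨p, q, rfl⟩ := List.append_of_mem hx
  rw [wv_append h, wv_cons, (law h).rrb']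

/-- The word theory of a class of algebras. -/
def RV (V : Set Alg) (u w : Word) : Prop := ∀ A ∈ V, ∀ v, wv A v u = wv A v w

theorem rv_wt {V : Set Alg} (hV : V ⊆ I20) : WT (RV V) where
  refl := fun _ _ _ _ => rfl
  symm := fun h A hA v => (h A hA v).symm
  trans := fun h1 h2 A hA v => (h1 A hA v).trans (h2 A hA v)
  left := fun p _ _ h A hA v => by rw [wv_append (hV hA), wv_append (hV hA), h A hA]
  right := fun p _ _ h A hA v => by rw [wv_append (hV hA), wv_append (hV hA), h A hA]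
  sub := fun σ _ _ h A hA v => by rw [wv_sb (hV hA), wv_sb (hV hA), h A hA]
  rrb := fun u w A hA v => by
    simp only [wv_append (hV hA)]
    rw [(law (hV hA)).assoc, (law (hV hA)).rrb]

def lits : Term → Bool → Word
  | .var i, b => [(i, b)]
  | .zero, _ => []
  | .imp s t, b => lits s (!b) ++ lits t b

def pe (A : Alg) (b : Bool) (x : A.carrier) : A.carrier := if b then x else A.neg x

theorem pe_imp_true (h : A ∈ I20) (x y : A.carrier) :
    pe A true (A.imp x y) = jn A (pe A false x) (pe A true y) := imp_eq h x y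
theorem pe_imp_false (h : A ∈ I20) (x y : A.carrier) :
    pe A false (A.imp x y) = mt A (pe A true x) (pe A false y) := by
  simp [pe, mt, h.2]

theorem e_pe (h : A ∈ I20) (v : ℕ → A.carrier) : ∀ (s : Term) (b : Bool),
    jn A (one A) (pe A b (s.eval A v)) = wv A v (lits s b)
  | .var i, b => ((law h).ecomm _).symm
  | .zero, true => (law h).h0 _
  | .zero, false => (law h).idem _
  | .imp s t, true => by
    rw [Term.eval, pe_imp_true h, (law h).ej, e_pe h v s, e_pe h v t, lits, wv_append h]; rfl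
  | .imp s t, false => by
    rw [Term.eval, pe_imp_false h, (law h).emj, (law h).ej, e_pe h v s, e_pe h v t, lits,
      wv_append h]; rfl

/-- The four element De Morgan algebra. -/
abbrev M3 : Alg := ⟨Bool × Bool, fun p q => (!p.2 || q.1, !p.1 || q.2), (false, false)⟩

def bv (p : Bool × Bool) (b : Bool) : Bool := if b then p.1 else !p.2

theorem matching (h : A ∈ I20) {k : A.carrier} (hk : jn A (one A) k = k) {P : A.carrier → Prop}
    (hP : Point (jn A) (mt A) A.zero (one A) k P) (v : ℕ → A.carrier) (w : ℕ → Bool × Bool) :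
    ∀ (s : Term) (b : Bool),
      (∀ x ∈ lits s b, jn A (val A v x) k = k ∧ (P (val A v x) ↔ bv (w x.1) x.2 = true)) →
      jn A (pe A b (s.eval A v)) k = k ∧ (P (pe A b (s.eval A v)) ↔ bv (s.eval M3 w) b = true)
  | .var i, b, hx => hx (i, b) (by simp [lits])
  | .zero, true, _ => ⟨(law h).h2 k, by simpa [bv, Term.eval, pe, one] using hP.hz⟩
  | .zero, false, _ => ⟨hk, by simpa [bv, Term.eval, pe, one] using hP.ho⟩
  | .imp s t, true, hx => by
    have h1 := matching h hk hP v w s false fun x h => hx x (List.mem_append_left _ h)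
    have h2 := matching h hk hP v w t true fun x h => hx x (List.mem_append_right _ h)
    rw [Term.eval, pe_imp_true h]
    refine ⟨(law h).le_j.2 ⟨h1.1, h2.1⟩, ?_⟩
    rw [hP.hj _ _ h1.1 h2.1, h1.2, h2.2]
    simp [bv, Term.eval]
  | .imp s t, false, hx => by
    have h1 := matching h hk hP v w s true fun x h => hx x (List.mem_append_left _ h)
    have h2 := matching h hk hP v w t false fun x h => hx x (List.mem_append_right _ h)
    rw [Term.eval, pe_imp_false h]
    refine ⟨((law h).le_m hk).2 ⟨h1.1, h2.1⟩, ?_⟩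
    rw [hP.hm _ _ h1.1 h2.1, h1.2, h2.2]
    simp [bv, Term.eval]

def ok : ℕ → Bool × Bool → Prop
  | 0, _ => False
  | 1, p => p.1 = p.2
  | 2, p => p ≠ (true, false)
  | _ + 3, _ => True

def MS (d : ℕ) (s t : Term) : Prop :=
  ∀ w : ℕ → Bool × Bool, (∀ i, ok d (w i)) → s.eval M3 w = t.eval M3 w

def dT : ℕ → Alg → Prop
  | 0, A => A.zero = one A
  | 1, A => ∀ x, mt A x (A.neg x) = mt A A.zero (mt A x (A.neg x))
  | 2, A => ∀ x y, jn A (mt A x (A.neg x)) (jn A y (A.neg y)) =
      jn A (mt A A.zero (mt A x (A.neg x))) (jn A y (A.neg y))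
  | _ + 3, _ => True

theorem eval_swap (w : ℕ → Bool × Bool) : ∀ s : Term,
    s.eval M3 (fun i => (w i).swap) = (s.eval M3 w).swap
  | .var _ => rfl
  | .zero => rfl
  | .imp s t => by rw [Term.eval, eval_swap w s, eval_swap w t]; rfl

theorem MS.swap {s t : Term} {w : ℕ → Bool × Bool}
    (h : s.eval M3 (fun i => (w i).swap) = t.eval M3 fun i => (w i).swap) :
    s.eval M3 w = t.eval M3 w := by
  rw [eval_swap, eval_swap] at h
  exact Prod.swap_injective h

theorem sat_of_ms (h : A ∈ I20) {d : ℕ} (hd : dT d A) {s t : Term} (hm : MS d s t)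
    (he : ∀ v, wv A v (lits s true) = wv A v (lits t true)) : A.Sat (s, t) := by
  classical
  intro v
  by_contra hne
  have L := law h
  have e1 : jn A (one A) (s.eval A v) = wv A v (lits s true) := e_pe h v s true
  have e2 : jn A (one A) (t.eval A v) = wv A v (lits t true) := e_pe h v t true
  obtain ⟨P, hP, hn⟩ := L.point (e1.trans ((he v).trans e2.symm)) hne
  rw [e1] at hP
  set k := wv A v (lits s true) with hk0
  have hk : jn A (one A) k = k := e_wv h v _
  let w : ℕ → Bool × Bool := fun i =>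
    (if jn A (v i) k = k then decide (P (v i)) else !decide (P (A.neg (v i))),
      if jn A (A.neg (v i)) k = k then !decide (P (A.neg (v i)))
      else if jn A (v i) k = k then decide (P (v i)) else !decide (P (A.neg (v i))))
  have hw : ∀ x : Lit, jn A (val A v x) k = k →
      jn A (val A v x) k = k ∧ (P (val A v x) ↔ bv (w x.1) x.2 = true) := by
    rintro ⟨i, b⟩ hx
    refine ⟨hx, ?_⟩
    cases b <;> simp only [val, Bool.false_eq_true, if_false, if_true] at hx ⊢ <;> simp [w, bv, hx]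
  have m1 := (matching h hk hP v w s true fun x hx => hw x (wv_le h v hx)).2
  have m2 := (matching h hk hP v w t true fun x hx => hw x (by
    rw [hk0, he v]; exact wv_le h v hx)).2
  have ne : s.eval M3 w ≠ t.eval M3 w := fun e => hn (by
    rw [e] at m1; exact m1.trans m2.symm)
  have ta : ∀ i, w i = (true, false) → jn A (v i) k = k ∧ jn A (A.neg (v i)) k = k ∧
      P (v i) ∧ P (A.neg (v i)) := fun i hi => by
    simp only [w, Prod.mk.injEq] at hi
    split_ifs at hi <;> simp_all
  have tb : ∀ i, w i = (false, true) → jn A (v i) k = k ∧ jn A (A.neg (v i)) k = k ∧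
      ¬ P (v i) ∧ ¬ P (A.neg (v i)) := fun i hi => by
    simp only [w, Prod.mk.injEq] at hi
    split_ifs at hi <;> simp_all
  have lz := L.h2 k
  match d, hd, hm with
  | 0, hd, _ => exact hP.hz ((show A.zero = one A from hd) ▸ hP.ho)
  | 1, hd, hm =>
    refine ne (hm w fun i => ?_)
    show (w i).1 = (w i).2
    by_contra hne
    have : w i = (true, false) ∨ w i = (false, true) := by
      revert hne; rcases w i with ⟨_ | _, _ | _⟩ <;> simp
    rcases this with e | e
    · obtain ⟨a1, a2, a3, a4⟩ := ta i e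
      have := (hP.hm _ _ a1 a2).2 ⟨a3, a4⟩
      rw [hd] at this
      exact hP.hz ((hP.hm _ _ lz ((L.le_m hk).2 ⟨a1, a2⟩)).1 this).1
    · obtain ⟨a1, a2, a3, a4⟩ := tb i e
      have e3 := congrArg A.neg (hd (v i))
      rw [neg_mt h, neg_mt h, neg_mt h, h.2] at e3
      have := (hP.hj _ _ hk (L.le_j.2 ⟨a2, a1⟩)).2 (Or.inl hP.ho)
      rw [one, ← e3, hP.hj _ _ a2 a1] at this
      tauto
  | 2, hd, hm =>
    by_cases e : ∃ i, w i = (true, false)
    · obtain ⟨i, e⟩ := e
      obtain ⟨a1, a2, a3, a4⟩ := ta i e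
      refine ne (MS.swap (hm _ fun n e' => ?_))
      obtain ⟨b1, b2, b3, b4⟩ := tb n (Prod.swap_injective e')
      have l1 := (L.le_m hk).2 ⟨a1, a2⟩
      have l2 := L.le_j.2 ⟨b1, b2⟩
      have := (hP.hj _ _ l1 l2).2 (Or.inl ((hP.hm _ _ a1 a2).2 ⟨a3, a4⟩))
      rw [hd, hP.hj _ _ ((L.le_m hk).2 ⟨lz, l1⟩) l2, hP.hm _ _ lz l1, hP.hj _ _ b1 b2] at this
      have := hP.hz
      tauto
    · exact ne (hm w fun i e' => e ⟨i, e'⟩)
  | _ + 3, _, hm => exact ne (hm w fun _ => trivial)

theorem ms_of_point (h : A ∈ I20) {k : A.carrier} (hk : jn A (one A) k = k) {P : A.carrier → Prop}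
    (hP : Point (jn A) (mt A) A.zero (one A) k P) {s t : Term} (hs : A.Sat (s, t))
    (w : ℕ → Bool × Bool)
    (h1 : (∃ i, w i = (true, false)) → ∃ x, jn A x k = k ∧ jn A (A.neg x) k = k ∧ P x ∧ P (A.neg x))
    (h2 : (∃ i, w i = (false, true)) →
      ∃ x, jn A x k = k ∧ jn A (A.neg x) k = k ∧ ¬ P x ∧ ¬ P (A.neg x)) :
    s.eval M3 w = t.eval M3 w := by
  have L := law h
  have : ∀ i, ∃ x, ∀ b, jn A (pe A b x) k = k ∧ (P (pe A b x) ↔ bv (w i) b = true) := fun i => by
    rcases e : w i with ⟨_ | _, _ | _⟩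
    · exact ⟨A.zero, fun b => by
        cases b
        exacts [⟨hk, by simpa [bv, pe, one] using hP.ho⟩,
          ⟨L.h2 k, by simpa [bv, pe, one] using hP.hz⟩]⟩
    · obtain ⟨x, a1, a2, a3, a4⟩ := h2 ⟨i, e⟩
      exact ⟨x, fun b => by
        cases b
        exacts [⟨a2, by simpa [bv, pe] using a4⟩, ⟨a1, by simpa [bv, pe] using a3⟩]⟩
    · obtain ⟨x, a1, a2, a3, a4⟩ := h1 ⟨i, e⟩
      exact ⟨x, fun b => by
        cases b
        exacts [⟨a2, by simpa [bv, pe] using a4⟩, ⟨a1, by simpa [bv, pe] using a3⟩]⟩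
    · refine ⟨one A, fun b => ?_⟩
      have e0 : pe A false (one A) = A.zero := neg_one h
      cases b
      · rw [e0]; exact ⟨L.h2 k, by simpa [bv] using hP.hz⟩
      · exact ⟨hk, by simpa [bv, pe] using hP.ho⟩
  choose v hv using this
  have e : s.eval A v = t.eval A v := hs v
  have key : ∀ b, bv (s.eval M3 w) b = bv (t.eval M3 w) b := fun b => by
    have m1 := (matching h hk hP v w s b fun x _ => hv x.1 x.2).2
    have m2 := (matching h hk hP v w t b fun x _ => hv x.1 x.2).2
    rw [e] at m1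
    exact Bool.eq_iff_iff.2 (m1.symm.trans m2)
  exact Prod.ext (key true) (by simpa [bv] using key false)

theorem ms_of_sat (h : A ∈ I20) {d : ℕ} (hd : ¬ dT d A) {s t : Term} (hs : A.Sat (s, t)) :
    MS (d + 1) s t := by
  have L := law h
  intro w hw
  match d, hd, hw with
  | 0, hd, hw =>
    obtain ⟨P, hP, _⟩ := L.point (a := A.zero) (b := one A) (by rw [L.h0, L.joo]) hd
    refine ms_of_point h (L.ee _) hP hs w ?_ ?_ <;> rintro ⟨i, e⟩ <;>
      (have := hw i; rw [e] at this; simp [ok] at this)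
  | 1, hd, hw =>
    obtain ⟨x, hx⟩ := not_forall.1 hd
    obtain ⟨P, hP, hn⟩ := L.point (L.ef _).symm hx
    have hk := L.ee (mt A x (A.neg x))
    have l0 : jn A (mt A x (A.neg x)) _ = _ := (L.oj _ _).trans (congrArg _ (L.idem _))
    have l1 := (L.le_m hk).1 l0
    rw [hP.hm _ _ (L.h2 _) l0, hP.hm _ _ l1.1 l1.2] at hn
    have := hP.hz
    refine MS.swap (ms_of_point h hk hP hs _ (fun _ => ⟨x, l1.1, l1.2, by tauto, by tauto⟩) ?_)
    rintro ⟨i, e⟩
    exact absurd (Prod.swap_injective e) (hw i)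
  | 2, hd, _ =>
    obtain ⟨x, hx⟩ := not_forall.1 hd
    obtain ⟨y, hy⟩ := not_forall.1 hx
    obtain ⟨P, hP, hn⟩ := L.point (by rw [L.ej, L.ej (mt A A.zero _), L.ef]) hy
    have hk := L.ee (jn A (mt A x (A.neg x)) (jn A y (A.neg y)))
    have l0 : jn A (jn A (mt A x (A.neg x)) (jn A y (A.neg y))) _ = _ :=
      (L.oj _ _).trans (congrArg _ (L.idem _))
    have l1 := L.le_j.1 l0
    have l2 := (L.le_m hk).1 l1.1
    have l3 := L.le_j.1 l1.2
    rw [hP.hj _ _ l1.1 l1.2, hP.hj _ _ ((L.le_m hk).2 ⟨L.h2 _, l1.1⟩) l1.2,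
      hP.hm _ _ (L.h2 _) l1.1, hP.hm _ _ l2.1 l2.2, hP.hj _ _ l3.1 l3.2] at hn
    have := hP.hz
    exact ms_of_point h hk hP hs w (fun _ => ⟨x, l2.1, l2.2, by tauto, by tauto⟩)
      fun _ => ⟨y, l3.1, l3.2, by tauto, by tauto⟩
  | _ + 3, hd, _ => exact absurd trivial hd

theorem dT_succ (h : A ∈ I20) : ∀ {d : ℕ}, dT d A → dT (d + 1) A
  | 0, hd => fun x => by rw [show A.zero = one A from hd, (law h).h3]
  | 1, hd => fun x y => by rw [← hd]
  | _ + 2, _ => trivial

theorem dT_le (h : A ∈ I20) {c d : ℕ} (hd : dT c A) (hc : c ≤ d) : dT d A := by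
  induction hc with
  | refl => exact hd
  | step _ ih => exact dT_succ h ih

end Pool.Agent.Lib.IZ64
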