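import Mathlib
import Pool.Agent.Lib.MP_79490a_al.Proof
import Pool.Agent.Lib.IZ64.DM
import Pool.Agent.Lib.IZ64.Cover

namespace Pool.Agent.Lib.IZ64

open Pool.Agent.Lib.MP_79490a_al

variable {R : Rel2}

theorem sb_id (b : Bool) : ∀ u : Word, sb (fun i => [(i, b)]) u = if b then u else ng u
  | [] => by cases b <;> rfl
  | (i, c) :: u => by rw [sb_cons, sb_id b u]; cases b <;> cases c <;> rfl

/-- The free algebra of a word theory. -/
def QA (W : WT R) : Alg :=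
  ⟨Quotient ⟨R, W.refl, W.symm, W.trans⟩, Quotient.map₂ (fun a b => ng a ++ b)
    (fun _ _ h1 _ _ h2 => W.trans (W.right _ (by simpa [sb_id] using W.sub (fun i => [(i, false)]) h1))
      (W.left _ h2)), Quotient.mk _ []⟩

theorem QA_mem (W : WT R) : QA W ∈ I20 := by
  refine ⟨⟨fun x y z => ?_, rfl⟩, fun x => ?_⟩
  · obtain ⟨x⟩ := x
    obtain ⟨y⟩ := y
    obtain ⟨z⟩ := z
    exact Quotient.sound (show R _ _ by simpa using W.symm (W.rrb z (x ++ ng y)))
  · obtain ⟨x⟩ := x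
    exact Quotient.sound (by simp)

theorem QA_wv (W : WT R) (σ : ℕ → Word) : ∀ u : Word,
    wv (QA W) (fun i => Quotient.mk _ (σ i)) u = Quotient.mk _ (sb σ u)
  | [] => rfl
  | (i, true) :: u => by
    rw [wv_cons, QA_wv W σ u]; exact Quotient.sound (by simp)
  | (i, false) :: u => by
    rw [wv_cons, QA_wv W σ u]; exact Quotient.sound (by simp)

theorem QA_rv (W : WT R) : RV {QA W} = R := by
  ext u w
  constructor
  · intro h
    have := h _ rfl fun i => Quotient.mk _ [(i, true)]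
    rw [QA_wv, QA_wv, sb_id, sb_id] at this
    exact Quotient.exact this
  · rintro h _ rfl v
    choose σ hσ using fun i => Quotient.exists_rep (v i)
    rw [← funext hσ, QA_wv, QA_wv]
    exact Quotient.sound (W.sub σ h)

theorem rv_T {A : Alg} (h : ∀ x, jn A x (one A) = one A) : pT (RV {A}) := by
  have e : ∀ v u, wv A v u = one A := fun v u => by
    induction u with
    | nil => rfl
    | cons x u ih => rw [wv_cons, ih, h]
  rintro u w _ rfl v
  rw [e, e]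

theorem dm_model (d : ℕ) (hd : d < 3) :
    ∃ A ∈ I20, dT (d + 1) A ∧ ¬ dT d A ∧ pT (RV {A}) := by
  interval_cases d
  · refine ⟨⟨Bool, fun a b => !a || b, false⟩, ⟨⟨?_, ?_⟩, ?_⟩, ?_, ?_, rv_T ?_⟩ <;>
      simp only [dT, Alg.neg, mt, jn, one] <;> decide
  · refine ⟨⟨Fin 3, fun a b => max (2 - a) b, 0⟩, ⟨⟨?_, ?_⟩, ?_⟩, ?_, ?_, rv_T ?_⟩ <;>
      simp only [dT, Alg.neg, mt, jn, one] <;> decide
  · refine ⟨M3, ⟨⟨?_, ?_⟩, ?_⟩, trivial, ?_, rv_T ?_⟩ <;>
      simp only [dT, Alg.neg, mt, jn, one] <;> decide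

theorem isVariety_of {V : Set Alg} (e : Term × Term) (h : ∀ A, A ∈ V ↔ A.Sat e) : IsVariety V := by
  rw [show V = {A | A.Sat e} from Set.ext h]; exact isVariety_single e

theorem isVariety_I20 : IsVariety I20 :=
  isVariety_IZ.inter (isVariety_of (.imp (.imp (.var 0) .zero) .zero, .var 0) fun _ =>
    ⟨fun h v => h (v 0), fun h x => h fun _ => x⟩)

theorem isVariety_dT (d : ℕ) : IsVariety {A | dT d A} := by
  let n : Term → Term := fun t => .imp t .zero
  let m : Term → Term → Term := fun s t => n (.imp s (n t))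
  let x := m (.var 0) (n (.var 0))
  let y := Term.imp (n (.var 1)) (n (.var 1))
  match d with
  | 0 => exact isVariety_of (.zero, n .zero) fun A => ⟨fun h _ => h, fun h => h fun _ => A.zero⟩
  | 1 => exact isVariety_of (x, m .zero x) fun A => ⟨fun h v => h (v 0), fun h a => h fun _ => a⟩
  | 2 =>
    exact isVariety_of (.imp (n x) y, .imp (n (m .zero x)) y) fun A =>
      ⟨fun h v => h (v 0) (v 1), fun h a b => h fun i => if i = 0 then a else b⟩
  | _ + 3 => exact isVariety_of (.zero, .zero) fun A => ⟨fun _ _ => rfl, fun _ => trivial⟩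

theorem isVariety_eqn {p : Rel2 → Prop} (hp : Eqn p) : IsVariety {A | p (RV {A})} := by
  refine ⟨{e | ∃ u w, (∀ R, p R → R u w) ∧ e = (wt u, wt w)}, Set.ext fun A => ⟨?_, fun h => ?_⟩⟩
  · rintro h _ ⟨u, w, h1, rfl⟩ v
    exact (wt_eval v u).trans ((h1 _ h A rfl v).trans (wt_eval v w).symm)
  · refine hp.mono (fun u w h1 => ?_) hp.inf
    rintro _ rfl v
    exact (wt_eval v u).symm.trans ((h _ ⟨u, w, h1, rfl⟩ v).trans (wt_eval v w))

abbrev Var := {V : Set Alg // IsVariety V ∧ V ⊆ I20}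

def VV (p : Fin 4 × K) : Var :=
  ⟨I20 ∩ ({A | dT p.1 A} ∩ {A | S p.2 (RV {A})}),
    isVariety_I20.inter ((isVariety_dT _).inter (isVariety_eqn (eqn_S _))), fun _ h => h.1⟩

theorem rv1 {A : Alg} (h : A ∈ I20) : WT (RV {A}) := rv_wt (by simpa using h)

theorem VV_le (p q : Fin 4 × K) : VV p ≤ VV q ↔ p ≤ q := by
  refine ⟨fun h => ⟨not_lt.1 fun hc => ?_, reflect fun R W a => ?_⟩, fun h A hA =>
    ⟨hA.1, dT_le hA.1 hA.2.1 h.1, S_mono (rv1 hA.1) h.2 hA.2.2⟩⟩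
  · obtain ⟨A, h1, h2, h3, h4⟩ := dm_model q.1 (by omega)
    exact h3 (h ⟨h1, dT_le h1 h2 hc, S_of_T (rv1 h1) h4 _⟩).2.1
  · have := (h (a := QA W) ⟨QA_mem W, dT_le (QA_mem W) (c := 0) rfl (Nat.zero_le _),
      show S _ _ by rw [QA_rv]; exact a⟩).2.2
    rw [← QA_rv W]; exact this

theorem VV_surj : Function.Surjective VV := by
  classical
  rintro ⟨V, ⟨E, hE⟩, hV⟩
  have hd : ∃ d, ∀ A ∈ V, dT d A := ⟨3, fun _ _ => trivial⟩
  have h3 : Nat.find hd ≤ 3 := Nat.find_min' hd fun _ _ => trivial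
  obtain ⟨κ, h1, h2⟩ := cover (rv_wt hV)
  refine ⟨(⟨Nat.find hd, by omega⟩, κ), Subtype.ext (Set.ext fun B => ⟨fun hB => ?_, fun hB =>
    ⟨hV hB, Nat.find_spec hd B hB, (eqn_S κ).mono ?_ h1⟩⟩)⟩
  · refine hE.ge ?_
    rintro ⟨s, t⟩ he
    have hs : ∀ A ∈ V, A.Sat (s, t) := fun A hA => hE.le hA _ he
    refine sat_of_ms hB.1 hB.2.1 ?_ (transfer (rv_wt hV) (rv1 hB.1) (h2 _ (rv1 hB.1) hB.2.2)
      (fun A hA v => ?_) B rfl)
    · show MS (Nat.find hd) s t
      rcases e : Nat.find hd with _ | c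
      · exact fun w hw => (hw 0).elim
      · have := Nat.find_min hd (show c < Nat.find hd by omega)
        push Not at this
        obtain ⟨A, hA, hn⟩ := this
        exact ms_of_sat (hV hA) hn (hs A hA)
    · rw [← e_pe (hV hA), ← e_pe (hV hA), show s.eval A v = t.eval A v from hs A hA v]
  · rintro u w h _ rfl v
    exact h _ hB v

noncomputable def iso : Var ≃o Fin 4 × K :=
  (RelIso.ofSurjective (OrderEmbedding.ofMapLEIff VV VV_le) VV_surj).symm

theorem breadth (x : Fin 4 → Var) : ∃ j, ∀ y, (∀ i, i ≠ j → y ≤ x i) → y ≤ x j := by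
  obtain ⟨a, ha⟩ := Finite.exists_min fun i => (iso (x i)).1
  obtain ⟨b, hb⟩ := Finite.exists_min fun i => (iso (x i)).2.1.1
  obtain ⟨c, hc⟩ := Finite.exists_min fun i => (iso (x i)).2.1.2
  obtain ⟨j, h1, h2, h3⟩ : ∃ j, a ≠ j ∧ b ≠ j ∧ c ≠ j := 
    (by decide : ∀ a b c : Fin 4, ∃ j, a ≠ j ∧ b ≠ j ∧ c ≠ j) a b c
  exact ⟨j, fun y h => iso.le_iff_le.1 ⟨(iso.monotone (h a h1)).1.trans (ha j),
    (iso.monotone (h b h2)).2.1.trans (hb j), (iso.monotone (h c h3)).2.2.trans (hc j)⟩⟩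

/-- The meet of three variables. -/
def m3 (a b c : ℕ) : LTerm := .inf (.var a) (.inf (.var b) (.var c))
def lhs : LTerm := .sup (.var 4) (.inf (.var 0) (m3 1 2 3))
def rhs : LTerm := .inf (.inf (.sup (.var 4) (m3 1 2 3)) (.sup (.var 4) (m3 0 2 3)))
  (.inf (.sup (.var 4) (m3 0 1 3)) (.sup (.var 4) (m3 0 1 2)))

theorem gen_mono {K K' : Set Alg} (h : K ⊆ K') : generated K ⊆ generated K' :=
  fun _ a => mem_generated.2 fun e he => mem_generated.1 a e fun C hC => he C (h hC)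

theorem huhn (V : ℕ → Set Alg) (hV : ∀ i, IsVariety (V i) ∧ V i ⊆ I20) :
    lhs.eval (fun V₁ V₂ => generated (V₁ ∪ V₂)) (fun V₁ V₂ => V₁ ∩ V₂) V =
      rhs.eval (fun V₁ V₂ => generated (V₁ ∪ V₂)) (fun V₁ V₂ => V₁ ∩ V₂) V := by
  simp only [lhs, rhs, m3, LTerm.eval]
  refine subset_antisymm (fun A hA => ?_) fun A hA => ?_
  · refine ⟨⟨?_, ?_⟩, ?_, ?_⟩ <;> exact gen_mono (fun B hB => by grind) hA
  · obtain ⟨j, hj⟩ := breadth fun i => ⟨V i, hV i⟩
    have key : ∀ a b c : ℕ, (∀ i : Fin 4, i ≠ j → (i : ℕ) = a ∨ (i : ℕ) = b ∨ (i : ℕ) = c) →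
        V a ∩ (V b ∩ V c) ⊆ V j := fun a b c h =>
      hj ⟨_, (hV a).1.inter ((hV b).1.inter (hV c).1), fun _ hB => (hV a).2 hB.1⟩ fun i hi B hB => by
        rcases h i hi with e | e | e <;> subst e
        exacts [hB.1, hB.2.1, hB.2.2]
    fin_cases j
    · have := key 1 2 3 (by decide)
      exact gen_mono (fun B hB => hB.imp id fun h => ⟨this h, h⟩) hA.1.1
    · have := key 0 2 3 (by decide)
      exact gen_mono (fun B hB => hB.imp id fun h => ⟨h.1, this h, h.2⟩) hA.1.2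
    · have := key 0 1 3 (by decide)
      exact gen_mono (fun B hB => hB.imp id fun h => ⟨h.1, h.2.1, this h, h.2.2⟩) hA.2.1
    · have := key 0 1 2 (by decide)
      exact gen_mono (fun B hB => hB.imp id fun h => ⟨h.1, h.2.1, h.2.2, this h⟩) hA.2.2

theorem nontrivial : ∃ (L : Type) (_ : Lattice L) (a : ℕ → L),
    lhs.eval (fun x y => x ⊔ y) (fun x y => x ⊓ y) a ≠
      rhs.eval (fun x y => x ⊔ y) (fun x y => x ⊓ y) a := by
  let f : ℕ → (ℕ → ℚ) →ₗ[ℚ] ℚ := fun i => LinearMap.proj i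
  let a : ℕ → Submodule ℚ (ℕ → ℚ) := fun i =>
    LinearMap.ker (if i = 4 then f 0 + f 1 + f 2 + f 3 else f i)
  refine ⟨_, inferInstance, a, fun h => ?_⟩
  have h1 : Pi.single 0 1 ∈ rhs.eval (fun x y => x ⊔ y) (fun x y => x ⊓ y) a := by
    have e : ∀ j : ℕ, ∀ W : Submodule ℚ (ℕ → ℚ), j < 4 → Pi.single j 1 ∈ W →
        Pi.single 0 1 ∈ a 4 ⊔ W := fun j W hj hW =>
      Submodule.mem_sup.2 ⟨Pi.single 0 1 - Pi.single j 1, by
        interval_cases j <;> simp [a, f], _, hW, sub_add_cancel _ _⟩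
    refine ⟨⟨e 0 _ (by omega) ?_, e 1 _ (by omega) ?_⟩, e 2 _ (by omega) ?_,
      e 3 _ (by omega) ?_⟩ <;> simp [m3, LTerm.eval, a, f]
  rw [← h] at h1
  obtain ⟨x, hx, y, hy, e⟩ := Submodule.mem_sup.1 h1
  have e0 := congrFun e 0
  have e1 := congrFun e 1
  have e2 := congrFun e 2
  have e3 := congrFun e 3
  simp [m3, LTerm.eval, a, f] at hx hy e0 e1 e2 e3
  linarith [hy.1, hy.2.1, hy.2.2.1, hy.2.2.2]

end Pool.Agent.Lib.IZ64
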